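import Mathlib
import Pool.Agent.Helper92.Theta.Blow

/-!
# The Lovász number and the theta body of the complement

For `k > 0` the Lovász number of `G` is at most `k` if and only if the vector `(1/k, …, 1/k)` lies
in the theta body of the complement of `G`.
-/

set_option autoImplicit false

open Finset
open scoped InnerProductSpace

namespace Pool.Agent.Helper78.TT

open Pool.Agent.Helper92.Theta (TH th_iff exists_ext exists_vectors gram_posSemidef)

/-- The Lovász number. -/
noncomputable def lov {V : Type} [Fintype V] (G : SimpleGraph V) : ℝ :=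
  sSup {s | ∃ x ∈ TH G, s = ∑ i, x i}

section weak

variable {n : ℕ} (G : SimpleGraph (Fin n))

theorem th_weak {x z : Fin n → ℝ} (hx : x ∈ TH G) (hz : z ∈ TH Gᶜ) :
    ∑ i, x i * z i ≤ 1 := by
  obtain ⟨Y, hY, y0, y1, y2⟩ := hx
  obtain ⟨Z, hZ, z0, z1, z2⟩ := hz
  obtain ⟨m, p, hp⟩ := exists_vectors (hY.hadamard hZ)
  have h0 : ⟪p none, p none⟫_ℝ = 1 := by
    rw [hp, Matrix.hadamard_apply, y0, z0, one_mul]
  have h1 : ∀ i, ⟪p none, p (some i)⟫_ℝ = x i * z i := by
    intro i
    rw [hp, Matrix.hadamard_apply, (y1 i).1, (z1 i).1]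
  have h1' : ∀ i, ⟪p (some i), p (some i)⟫_ℝ = x i * z i := by
    intro i
    rw [hp, Matrix.hadamard_apply, (y1 i).2, (z1 i).2]
  have h2 : ∀ i j, i ≠ j → ⟪p (some i), p (some j)⟫_ℝ = 0 := by
    intro i j hij
    rw [hp, Matrix.hadamard_apply]
    by_cases h : G.Adj i j
    · rw [y2 i j h, zero_mul]
    · rw [z2 i j ((SimpleGraph.compl_adj _ _ _).2 ⟨hij, h⟩), mul_zero]
  have h3 : 0 ≤ ⟪p none - ∑ i, p (some i), p none - ∑ i, p (some i)⟫_ℝ := real_inner_self_nonneg
  have h4 : ⟪p none, ∑ i, p (some i)⟫_ℝ = ∑ i, x i * z i := by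
    rw [inner_sum]
    exact Finset.sum_congr rfl fun i _ => h1 i
  have h5 : ⟪∑ i, p (some i), ∑ i, p (some i)⟫_ℝ = ∑ i, x i * z i := by
    rw [sum_inner]
    refine Finset.sum_congr rfl fun i _ => ?_
    rw [inner_sum, Finset.sum_eq_single i, h1' i]
    · intro j _ hj
      exact h2 i j (Ne.symm hj)
    · intro h
      exact absurd (Finset.mem_univ _) h
  rw [inner_sub_left, inner_sub_right, inner_sub_right,
    real_inner_comm (p none) (∑ i, p (some i)), h0, h4, h5] at h3
  linarith

theorem th_zero : (fun _ => 0) ∈ TH G := by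
  refine (th_iff _ _).2 ⟨EuclideanSpace ℝ (Fin 1), inferInstance, inferInstance,
    EuclideanSpace.single 0 1, fun _ => 0, by simp, fun i => by simp, fun i j _ => by simp⟩

theorem th_single (i₀ : Fin n) : (fun i => if i = i₀ then (1 : ℝ) else 0) ∈ TH G := by
  refine (th_iff _ _).2 ⟨EuclideanSpace ℝ (Fin 1), inferInstance, inferInstance,
    EuclideanSpace.single 0 1, fun i => if i = i₀ then EuclideanSpace.single 0 1 else 0, by simp,
    fun i => ?_, fun i j hij => ?_⟩
  · by_cases h : i = i₀
    · simp [h]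
    · simp [h]
  · by_cases h : i = i₀
    · have h' : j ≠ i₀ := fun h' => hij.ne (h.trans h'.symm)
      simp [h']
    · simp [h]

theorem th_le_one {x : Fin n → ℝ} (hx : x ∈ TH G) (i : Fin n) : x i ≤ 1 := by
  obtain ⟨H, _, _, y₀, y, h0, h1, -⟩ := (th_iff _ _).1 hx
  have h2 : 0 ≤ ⟪y₀ - y i, y₀ - y i⟫_ℝ := real_inner_self_nonneg
  rw [inner_sub_left, inner_sub_right, inner_sub_right, real_inner_comm y₀ (y i), h0, (h1 i).1,
    (h1 i).2] at h2
  linarith

theorem th_bdd : BddAbove {s | ∃ x ∈ TH G, s = ∑ i, x i} := by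
  refine ⟨n, ?_⟩
  rintro s ⟨x, hx, rfl⟩
  calc ∑ i, x i ≤ ∑ _i : Fin n, (1 : ℝ) := Finset.sum_le_sum fun i _ => th_le_one G hx i
    _ = n := by simp

theorem le_lov {x : Fin n → ℝ} (hx : x ∈ TH G) : ∑ i, x i ≤ lov G :=
  le_csSup (th_bdd G) ⟨x, hx, rfl⟩

theorem lov_le {k : ℝ} (h : ∀ x ∈ TH G, ∑ i, x i ≤ k) : lov G ≤ k := by
  refine csSup_le ⟨_, _, th_zero G, rfl⟩ ?_
  rintro s ⟨x, hx, rfl⟩
  exact h x hx

end weak

section strong

variable {n : ℕ} (G : SimpleGraph (Fin n))

/-- The cone of the positive semidefinite matrices, with arbitrary entries at the edges. -/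
def pcone : Set (Fin n → Fin n → ℝ) :=
  {M | ∃ P : Matrix (Fin n) (Fin n) ℝ, P.PosSemidef ∧ ∀ i j, ¬ G.Adj i j → M i j = P i j}

theorem pcone_zero : (0 : Fin n → Fin n → ℝ) ∈ pcone G :=
  ⟨0, Matrix.PosSemidef.zero, fun _ _ _ => rfl⟩

theorem pcone_smul {M : Fin n → Fin n → ℝ} (hM : M ∈ pcone G) {c : ℝ} (hc : 0 ≤ c) :
    c • M ∈ pcone G := by
  obtain ⟨P, hP, h⟩ := hM
  refine ⟨c • P, hP.smul hc, fun i j hij => ?_⟩
  rw [Pi.smul_apply, Pi.smul_apply, Matrix.smul_apply, h i j hij]

theorem pcone_add {M M' : Fin n → Fin n → ℝ} (hM : M ∈ pcone G) (hM' : M' ∈ pcone G) :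
    M + M' ∈ pcone G := by
  obtain ⟨P, hP, h⟩ := hM
  obtain ⟨P', hP', h'⟩ := hM'
  refine ⟨P + P', hP.add hP', fun i j hij => ?_⟩
  rw [Pi.add_apply, Pi.add_apply, Matrix.add_apply, h i j hij, h' i j hij]

theorem pcone_convex : Convex ℝ (pcone G) := by
  intro M hM M' hM' a b ha hb _
  exact pcone_add G (pcone_smul G hM ha) (pcone_smul G hM' hb)

theorem psd_abs {P : Matrix (Fin n) (Fin n) ℝ} (hP : P.PosSemidef) (i j : Fin n) :
    |P i j| ≤ (P i i + P j j) / 2 := by
  obtain ⟨m, y, hy⟩ := exists_vectors hP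
  rw [← hy, ← hy, ← hy]
  have h1 := abs_real_inner_le_norm (y i) (y j)
  rw [real_inner_self_eq_norm_sq, real_inner_self_eq_norm_sq]
  nlinarith [sq_nonneg (‖y i‖ - ‖y j‖)]

theorem pcone_closed : IsClosed (pcone G) := by
  rw [← isSeqClosed_iff_isClosed]
  intro M L hM hL
  choose P hP hPM using hM
  -- the entries are bounded
  obtain ⟨R, hR⟩ : ∃ R : ℝ, ∀ l, ‖M l‖ ≤ R := by
    obtain ⟨R, hR⟩ := (Metric.isBounded_range_of_tendsto M hL).exists_norm_le
    exact ⟨R, fun l => hR _ ⟨l, rfl⟩⟩
  have hd : ∀ l i, P l i i ≤ R := by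
    intro l i
    rw [← hPM l i i (G.loopless.irrefl i)]
    calc M l i i ≤ |M l i i| := le_abs_self _
      _ = ‖M l i i‖ := (Real.norm_eq_abs _).symm
      _ ≤ ‖M l i‖ := norm_le_pi_norm _ _
      _ ≤ ‖M l‖ := norm_le_pi_norm _ _
      _ ≤ R := hR l
  set Q : ℕ → Fin n → Fin n → ℝ := fun l i j => P l i j with hQ
  have hb : ∀ l, Q l ∈ Metric.closedBall (0 : Fin n → Fin n → ℝ) (max R 0) := by
    intro l
    rw [mem_closedBall_zero_iff]
    refine (pi_norm_le_iff_of_nonneg (le_max_right _ _)).2 fun i => ?_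
    refine (pi_norm_le_iff_of_nonneg (le_max_right _ _)).2 fun j => ?_
    rw [Real.norm_eq_abs]
    have h1 := psd_abs (hP l) i j
    have h2 := hd l i
    have h3 := hd l j
    exact le_trans (by simp only [hQ]; linarith) (le_max_left R 0)
  obtain ⟨Q', -, φ, hφ, hlim⟩ := (isCompact_closedBall (0 : Fin n → Fin n → ℝ)
    (max R 0)).tendsto_subseq hb
  have hent : ∀ i j, Filter.Tendsto (fun l => P (φ l) i j) Filter.atTop (nhds (Q' i j)) := by
    intro i j
    exact tendsto_pi_nhds.1 (tendsto_pi_nhds.1 hlim i) j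
  refine ⟨Matrix.of Q', ?_, fun i j hij => ?_⟩
  · rw [Matrix.posSemidef_iff_dotProduct_mulVec]
    refine ⟨?_, fun x => ?_⟩
    · ext i j
      rw [Matrix.conjTranspose_apply, star_trivial, Matrix.of_apply, Matrix.of_apply]
      refine tendsto_nhds_unique (hent j i) ?_
      have h1 : (fun l => P (φ l) j i) = fun l => P (φ l) i j := by
        funext l
        have h2 := (hP (φ l)).1.apply i j
        rw [star_trivial] at h2
        exact h2
      rw [h1]
      exact hent i j
    · have h1 : Filter.Tendsto (fun l => star x ⬝ᵥ (P (φ l)).mulVec x) Filter.atTop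
          (nhds (star x ⬝ᵥ (Matrix.of Q').mulVec x)) := by
        simp only [dotProduct, Matrix.mulVec, Matrix.of_apply]
        refine tendsto_finsetSum _ fun i _ => Filter.Tendsto.const_mul _ ?_
        exact tendsto_finsetSum _ fun j _ => Filter.Tendsto.mul_const _ (hent i j)
      exact ge_of_tendsto' h1 fun l => (hP (φ l)).dotProduct_mulVec_nonneg x
  · refine tendsto_nhds_unique ?_ (hent i j)
    have h1 : Filter.Tendsto (fun l => M (φ l) i j) Filter.atTop (nhds (L i j)) :=
      (tendsto_pi_nhds.1 (tendsto_pi_nhds.1 hL i) j).comp hφ.tendsto_atTop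
    have h2 : (fun l => M (φ l) i j) = fun l => P (φ l) i j := by
      funext l
      exact hPM (φ l) i j hij
    rwa [h2] at h1

/-- The matrix units. -/
def mun (i j : Fin n) : Fin n → Fin n → ℝ := Pi.single i (Pi.single j 1)

theorem mun_apply (i j a b : Fin n) :
    mun i j a b = if a = i ∧ b = j then (1 : ℝ) else 0 := by
  unfold mun
  by_cases h : a = i
  · subst h
    by_cases h' : b = j
    · subst h'
      simp
    · simp [h']
  · simp [h]

theorem mun_sum (f : (Fin n → Fin n → ℝ) →L[ℝ] ℝ) (M : Fin n → Fin n → ℝ) :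
    f M = ∑ i, ∑ j, M i j * f (mun i j) := by
  have h : M = ∑ i, ∑ j, M i j • mun i j := by
    funext a b
    simp only [Finset.sum_apply, Pi.smul_apply, mun_apply, smul_eq_mul]
    rw [Finset.sum_eq_single a, Finset.sum_eq_single b]
    · simp
    · intro j _ hj
      rw [if_neg (fun h => hj h.2.symm), mul_zero]
    · intro h
      exact absurd (Finset.mem_univ _) h
    · intro i _ hi
      refine Finset.sum_eq_zero fun j _ => ?_
      rw [if_neg (fun h => hi h.1.symm), mul_zero]
    · intro h
      exact absurd (Finset.mem_univ _) h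
  conv_lhs => rw [h]
  simp only [map_sum, map_smul, smul_eq_mul]

/-- From a positive semidefinite matrix to a vector of the theta body. -/
theorem th_of_psd {X : Matrix (Fin n) (Fin n) ℝ} (hX : X.PosSemidef)
    (hX0 : ∀ i j, G.Adj i j → X i j = 0) {k : ℝ} (hk : 0 < k)
    (h : k * ∑ i, X i i < ∑ i, ∑ j, X i j) : ∃ x ∈ TH G, k < ∑ i, x i := by
  obtain ⟨m, w, hw⟩ := exists_vectors hX
  set T := ∑ i, X i i with hT
  set S := ∑ i, ∑ j, X i j with hS
  have hnn : ∀ i, 0 ≤ X i i := fun i => by
    rw [← hw]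
    exact real_inner_self_nonneg
  have hT0 : 0 ≤ T := Finset.sum_nonneg fun i _ => hnn i
  have hS0 : 0 < S := lt_of_le_of_lt (by positivity) h
  have hs : ⟪∑ i, w i, ∑ i, w i⟫_ℝ = S := by
    rw [sum_inner, hS]
    refine Finset.sum_congr rfl fun i _ => ?_
    rw [inner_sum]
    exact Finset.sum_congr rfl fun j _ => hw i j
  have hw0 : ∀ i, X i i = 0 → w i = 0 := by
    intro i hi
    rw [← inner_self_eq_zero (𝕜 := ℝ), hw, hi]
  have hTpos : 0 < T := by
    rcases hT0.lt_or_eq with h1 | h1
    · exact h1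
    · exfalso
      have h2 : ∀ i, w i = 0 := fun i => hw0 i
        ((Finset.sum_eq_zero_iff_of_nonneg fun i _ => hnn i).1 h1.symm i (Finset.mem_univ _))
      have h3 : ∑ i, w i = 0 := Finset.sum_eq_zero fun i _ => h2 i
      rw [h3, inner_zero_left] at hs
      exact hS0.ne hs
  have hr : Real.sqrt S * Real.sqrt S = S := Real.mul_self_sqrt hS0.le
  have hr0 : 0 < Real.sqrt S := Real.sqrt_pos.2 hS0
  set y₀ : EuclideanSpace ℝ (Fin m) := (1 / Real.sqrt S) • ∑ i, w i with hy₀
  set c : Fin n → ℝ := fun i => ⟪w i, y₀⟫_ℝ with hc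
  have hcs : ∑ i, c i = Real.sqrt S := by
    rw [hc, ← sum_inner, hy₀, inner_smul_right, hs]
    nth_rewrite 2 [← hr]
    field_simp
  set x : Fin n → ℝ := fun i => c i ^ 2 / X i i with hx
  refine ⟨x, (th_iff _ _).2 ⟨EuclideanSpace ℝ (Fin m), inferInstance, inferInstance, y₀,
    fun i => (c i / X i i) • w i, ?_, fun i => ⟨?_, ?_⟩, ?_⟩, ?_⟩
  · rw [hy₀, inner_smul_left, inner_smul_right, hs, RCLike.conj_to_real]
    nth_rewrite 3 [← hr]
    field_simp
  · rw [inner_smul_right, real_inner_comm]
    simp only [hx, hc]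
    ring
  · rw [inner_smul_left, inner_smul_right, hw, RCLike.conj_to_real]
    by_cases h0 : X i i = 0
    · simp [hx, h0]
    · simp only [hx]
      field_simp
  · intro i j hij
    rw [inner_smul_left, inner_smul_right, hw, hX0 i j hij, mul_zero, mul_zero]
  · have h1 : ∀ i, 2 * (Real.sqrt S / T) * c i ≤ x i + (Real.sqrt S / T) ^ 2 * X i i := by
      intro i
      rcases (hnn i).lt_or_eq with h2 | h2
      · have h3 : x i + (Real.sqrt S / T) ^ 2 * X i i - 2 * (Real.sqrt S / T) * c i =
            (c i - Real.sqrt S / T * X i i) ^ 2 / X i i := by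
          simp only [hx]
          field_simp
          ring
        have h4 : 0 ≤ (c i - Real.sqrt S / T * X i i) ^ 2 / X i i := by positivity
        linarith
      · have h3 : c i = 0 := by
          simp only [hc]
          rw [hw0 i h2.symm, inner_zero_left]
        simp only [hx]
        rw [h3, ← h2]
        simp
    have h2 := Finset.sum_le_sum fun i (_ : i ∈ (Finset.univ : Finset (Fin n))) => h1 i
    rw [← Finset.mul_sum, Finset.sum_add_distrib, ← Finset.mul_sum, hcs, ← hT] at h2
    have h3 : 2 * (Real.sqrt S / T) * Real.sqrt S = 2 * (S / T) := by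
      rw [mul_assoc, div_mul_eq_mul_div, hr]
    have h4 : (Real.sqrt S / T) ^ 2 * T = S / T := by
      rw [div_pow, sq (Real.sqrt S), hr]
      field_simp
    rw [h3, h4] at h2
    have h5 : k < S / T := by
      rw [lt_div_iff₀ hTpos]
      exact h
    linarith

/-- Duality. -/
theorem th_strong {k : ℝ} (hk : 0 < k) (h : ∀ x ∈ TH G, ∑ i, x i ≤ k) :
    (fun _ => 1 / k) ∈ TH Gᶜ := by
  classical
  set K : Fin n → Fin n → ℝ := fun i j => (if i = j then k else 0) - 1 with hKdef
  by_cases hK : K ∈ pcone G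
  · obtain ⟨P, hP, hPK⟩ := hK
    obtain ⟨m, y, hy⟩ := exists_vectors hP
    obtain ⟨H, _, _, e, b, he, hb, heb, hbe⟩ := exists_ext (EuclideanSpace ℝ (Fin m)) Unit
    have hbb : ⟪b (), b ()⟫_ℝ = 1 := by rw [hb, if_pos rfl]
    refine (th_iff _ _).2 ⟨H, inferInstance, inferInstance, b (),
      fun i => (1 / k : ℝ) • (b () + e (y i)), hbb, fun i => ⟨?_, ?_⟩, ?_⟩
    · simp only [inner_smul_right, inner_add_right, hbb, hbe]
      ring
    · have h1 : P i i = k - 1 := by
        rw [← hPK i i (G.loopless.irrefl i)]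
        simp [hKdef]
      simp only [inner_smul_left, inner_smul_right, inner_add_left, inner_add_right, hbb, hbe,
        heb, he, hy, h1, RCLike.conj_to_real]
      field_simp
      ring
    · intro i j hij
      rw [SimpleGraph.compl_adj] at hij
      have h1 : P i j = -1 := by
        rw [← hPK i j hij.2]
        simp [hKdef, hij.1]
      simp only [inner_smul_left, inner_smul_right, inner_add_left, inner_add_right, hbb, hbe,
        heb, he, hy, h1, RCLike.conj_to_real]
      ring
  · exfalso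
    obtain ⟨f, u, hf1, hf2⟩ := geometric_hahn_banach_closed_point (pcone_convex G)
      (pcone_closed G) hK
    have hu : 0 < u := by
      have := hf1 0 (pcone_zero G)
      rwa [map_zero] at this
    have hf0 : ∀ M ∈ pcone G, f M ≤ 0 := by
      intro M hM
      by_contra hc
      push Not at hc
      have h1 := hf1 ((u / f M) • M) (pcone_smul G hM (by positivity))
      rw [map_smul, smul_eq_mul, div_mul_cancel₀ _ hc.ne'] at h1
      exact lt_irrefl _ h1
    set X : Matrix (Fin n) (Fin n) ℝ := Matrix.of fun i j =>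
      -(f (mun i j) + f (mun j i)) / 2 with hXdef
    have hXs : ∀ M : Fin n → Fin n → ℝ, (∀ i j, M i j = M j i) →
        f M = -∑ i, ∑ j, X i j * M i j := by
      intro M hM
      have h1 := mun_sum f M
      have h2 : f M = ∑ i, ∑ j, M i j * f (mun j i) := by
        rw [h1, Finset.sum_comm]
        exact Finset.sum_congr rfl fun i _ => Finset.sum_congr rfl fun j _ => by rw [hM]
      have h3 : -∑ i, ∑ j, X i j * M i j = (∑ i, ∑ j, M i j * f (mun i j) +
          ∑ i, ∑ j, M i j * f (mun j i)) / 2 := by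
        rw [← Finset.sum_add_distrib, Finset.sum_div, ← Finset.sum_neg_distrib]
        refine Finset.sum_congr rfl fun i _ => ?_
        rw [← Finset.sum_add_distrib, Finset.sum_div, ← Finset.sum_neg_distrib]
        refine Finset.sum_congr rfl fun j _ => ?_
        simp only [hXdef, Matrix.of_apply]
        ring
      rw [h3, ← h1, ← h2]
      ring
    have hXpsd : X.PosSemidef := by
      rw [Matrix.posSemidef_iff_dotProduct_mulVec]
      refine ⟨?_, fun x => ?_⟩
      · ext i j
        rw [Matrix.conjTranspose_apply, star_trivial]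
        simp only [hXdef, Matrix.of_apply]
        ring
      · have h1 : (fun i j => x i * x j : Fin n → Fin n → ℝ) ∈ pcone G := by
          refine ⟨Matrix.of fun i j => ⟪x i, x j⟫_ℝ, gram_posSemidef x, fun i j _ => ?_⟩
          rw [Matrix.of_apply, real_inner_eq_re_inner]
          simp [mul_comm]
        have h2 := hf0 _ h1
        rw [hXs _ (fun i j => mul_comm _ _)] at h2
        have h3 : star x ⬝ᵥ X.mulVec x = ∑ i, ∑ j, X i j * (x i * x j) := by
          simp only [dotProduct, Matrix.mulVec, Pi.star_apply, star_trivial]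
          refine Finset.sum_congr rfl fun i _ => ?_
          rw [Finset.mul_sum]
          exact Finset.sum_congr rfl fun j _ => by ring
        rw [h3]
        linarith
    have hX0 : ∀ i j, G.Adj i j → X i j = 0 := by
      have h1 : ∀ i j, G.Adj i j → f (mun i j) = 0 := by
        intro i j hij
        have h2 : ∀ c : ℝ, c • mun i j ∈ pcone G := by
          intro c
          refine ⟨0, Matrix.PosSemidef.zero, fun a b hab => ?_⟩
          rw [Pi.smul_apply, Pi.smul_apply, mun_apply, if_neg, smul_zero]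
          · rfl
          · rintro ⟨rfl, rfl⟩
            exact hab hij
        have h3 := hf0 _ (h2 1)
        have h4 := hf0 _ (h2 (-1))
        rw [map_smul, smul_eq_mul] at h3 h4
        linarith
      intro i j hij
      simp only [hXdef, Matrix.of_apply, h1 i j hij, h1 j i hij.symm]
      ring
    have hfK := hXs K (fun i j => by simp only [hKdef, eq_comm])
    have hpos : 0 < f K := hu.trans hf2
    have hsum : ∑ i, ∑ j, X i j * K i j = k * ∑ i, X i i - ∑ i, ∑ j, X i j := by
      rw [Finset.mul_sum, ← Finset.sum_sub_distrib]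
      refine Finset.sum_congr rfl fun i _ => ?_
      simp only [hKdef, mul_sub, mul_one, Finset.sum_sub_distrib, mul_ite, mul_zero]
      rw [Finset.sum_ite_eq, if_pos (Finset.mem_univ _)]
      ring
    obtain ⟨x, hx, hx'⟩ := th_of_psd G hXpsd hX0 hk (by rw [hfK, hsum] at hpos; linarith)
    exact absurd (h x hx) (not_le.2 hx')

/-- **The Lovász number and the complement.** -/
theorem lov_le_iff {k : ℝ} (hk : 0 < k) : lov G ≤ k ↔ (fun _ => 1 / k) ∈ TH Gᶜ := by
  constructor
  · intro h
    exact th_strong G hk fun x hx => (le_lov G hx).trans h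
  · intro h
    refine lov_le G fun x hx => ?_
    have h1 := th_weak G hx h
    rw [← Finset.sum_mul, mul_one_div, div_le_one hk] at h1
    exact h1

theorem lov_small {k : ℝ} (hk : k ≤ 0) : lov G ≤ k ↔ n = 0 ∧ 0 ≤ k := by
  constructor
  · intro h
    have h0 : (0 : ℝ) ≤ lov G := by
      have := le_lov G (th_zero G)
      simpa using this
    refine ⟨?_, h0.trans h⟩
    by_contra hn
    have h1 := le_lov G (th_single G ⟨0, Nat.pos_of_ne_zero hn⟩)
    rw [Finset.sum_ite_eq', if_pos (Finset.mem_univ _)] at h1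
    linarith
  · rintro ⟨rfl, h0⟩
    refine lov_le G fun x _ => ?_
    simpa using h0

end strong

end Pool.Agent.Helper78.TT
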