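import Pool.Agent.Helper78.TT.Easy
import Pool.Agent.Helper78.TT.Lov

/-!
# Thresholds for the Lovász number
-/

set_option autoImplicit false

open Pool.Agent.Helper91.PolyTime

namespace Pool.Agent.Helper78.TT

open Pool.Agent.Helper92.Theta (TH graphOf)

/-- The edges of the complement. -/
def complE (n : ℕ) (E : List (ℕ × ℕ)) : List (ℕ × ℕ) :=
  (List.range n).flatMap fun i => ((List.range n).filter fun j =>
    (!decide (i = j)) && ((!(E.any fun e => decide (e = (i, j)))) &&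
      !(E.any fun e => decide (e = (j, i))))).map fun j => (i, j)

/-- The complement. -/
def complI (I : ℕ × List (ℕ × ℕ)) : ℕ × List (ℕ × ℕ) := (I.1, complE I.1 I.2)

theorem any_eq (E : List (ℕ × ℕ)) (p : ℕ × ℕ) :
    (E.any fun e => decide (e = p)) = true ↔ p ∈ E := by
  rw [List.any_eq_true]
  constructor
  · rintro ⟨e, he, h⟩
    rw [decide_eq_true_iff] at h
    exact h ▸ he
  · intro h
    exact ⟨p, h, by simp⟩

theorem mem_complE (n : ℕ) (E : List (ℕ × ℕ)) (i j : ℕ) :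
    (i, j) ∈ complE n E ↔ i < n ∧ j < n ∧ i ≠ j ∧ (i, j) ∉ E ∧ (j, i) ∉ E := by
  unfold complE
  simp only [List.mem_flatMap, List.mem_range, List.mem_map, List.mem_filter, Prod.mk.injEq,
    Bool.and_eq_true, Bool.not_eq_true', ← Bool.not_eq_true, any_eq, decide_eq_true_iff]
  constructor
  · rintro ⟨a, ha, b, ⟨hb, h1, h2, h3⟩, rfl, rfl⟩
    exact ⟨ha, hb, h1, h2, h3⟩
  · rintro ⟨h1, h2, h3, h4, h5⟩
    exact ⟨i, h1, j, ⟨h2, h3, h4, h5⟩, rfl, rfl⟩

theorem graphOf_compl (n : ℕ) (E : List (ℕ × ℕ)) : graphOf n (complE n E) = (graphOf n E)ᶜ := by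
  ext i j
  rw [SimpleGraph.compl_adj]
  constructor
  · rintro ⟨h1, h2⟩
    refine ⟨h1, ?_⟩
    rintro ⟨-, h3⟩
    rcases h2 with h2 | h2
    · rw [mem_complE] at h2
      rcases h3 with h3 | h3
      · exact h2.2.2.2.1 h3
      · exact h2.2.2.2.2 h3
    · rw [mem_complE] at h2
      rcases h3 with h3 | h3
      · exact h2.2.2.2.2 h3
      · exact h2.2.2.2.1 h3
  · rintro ⟨h1, h2⟩
    refine ⟨h1, Or.inl ((mem_complE _ _ _ _).2 ⟨i.2, j.2, fun h => h1 (Fin.ext h), ?_, ?_⟩)⟩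
    · intro h
      exact h2 ⟨h1, Or.inl h⟩
    · intro h
      exact h2 ⟨h1, Or.inr h⟩

theorem ptf_complI : PTF complI := by
  refine PTF.pair PTF.id.fst ?_
  unfold complE
  refine PTF.flatMap (f := fun (I : ℕ × List (ℕ × ℕ)) i => ((List.range I.1).filter fun j =>
    (!decide (i = j)) && ((!(I.2.any fun e => decide (e = (i, j)))) &&
      !(I.2.any fun e => decide (e = (j, i))))).map fun j => (i, j)) (PTF.range PTF.id.fst) ?_
  refine PTF.map (f := fun (p : (ℕ × List (ℕ × ℕ)) × ℕ) j => (p.2, j)) ?_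
    (PTF.pair PTF.id.fst.snd PTF.id.snd)
  refine PTF.filter (f := fun (p : (ℕ × List (ℕ × ℕ)) × ℕ) j =>
    (!decide (p.2 = j)) && ((!(p.1.2.any fun e => decide (e = (p.2, j)))) &&
      !(p.1.2.any fun e => decide (e = (j, p.2))))) (PTF.range PTF.id.fst.fst) ?_
  have h1 : PTF (fun q : ((ℕ × List (ℕ × ℕ)) × ℕ) × ℕ => q.1.2) := PTF.id.fst.snd
  have h2 : PTF (fun q : ((ℕ × List (ℕ × ℕ)) × ℕ) × ℕ => q.2) := PTF.id.snd
  have h3 : PTF (fun q : ((ℕ × List (ℕ × ℕ)) × ℕ) × ℕ => q.1.1.2) := PTF.id.fst.fst.snd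
  refine PTF.and (PTF.not (PTF.eq h1 h2)) (PTF.and (PTF.not ?_) (PTF.not ?_))
  · exact PTF.any (f := fun (q : ((ℕ × List (ℕ × ℕ)) × ℕ) × ℕ) e => decide (e = (q.1.2, q.2))) h3
      (PTF.eq PTF.id.snd (PTF.pair (h1.comp PTF.id.fst) (h2.comp PTF.id.fst)))
  · exact PTF.any (f := fun (q : ((ℕ × List (ℕ × ℕ)) × ℕ) × ℕ) e => decide (e = (q.2, q.1.2))) h3
      (PTF.eq PTF.id.snd (PTF.pair (h2.comp PTF.id.fst) (h1.comp PTF.id.fst)))

/-- The graphs with Lovász number at most `k`. -/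
def ThetaLe (k : ℝ) : Set (ℕ × List (ℕ × ℕ)) := {I | lov (graphOf I.1 I.2) ≤ k}

theorem thetaLe_iff {k : ℝ} (hk : 0 < k) (I : ℕ × List (ℕ × ℕ)) :
    I ∈ ThetaLe k ↔ complI I ∈ ThetaT (1 / k) := by
  change lov (graphOf I.1 I.2) ≤ k ↔ (fun _ => 1 / k) ∈ TH (graphOf I.1 (complE I.1 I.2))
  rw [graphOf_compl, lov_le_iff _ hk]

theorem thetaT_iff_le {k : ℝ} (hk : 0 < k) (I : ℕ × List (ℕ × ℕ)) :
    I ∈ ThetaT (1 / k) ↔ complI I ∈ ThetaLe k := by
  change (fun _ => 1 / k) ∈ TH (graphOf I.1 I.2) ↔ lov (graphOf I.1 (complE I.1 I.2)) ≤ k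
  rw [graphOf_compl, lov_le_iff _ hk, compl_compl]

/-- **The easy thresholds.** -/
theorem thetaLe_easy {k : ℝ} (hk : k ≤ 2) :
    ∃ f : ℕ × List (ℕ × ℕ) → Bool, PTF f ∧ ∀ I, I ∈ ThetaLe k ↔ f I = true := by
  rcases le_or_gt k 0 with h | h
  · by_cases h0 : 0 ≤ k
    · refine ⟨_, PTF.isZero PTF.id.fst, fun I => ?_⟩
      rw [decide_eq_true_iff]
      exact (lov_small _ h).trans (and_iff_left h0)
    · refine ⟨fun _ => false, PTF.const false, fun I => ?_⟩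
      exact iff_of_false (fun h1 => h0 ((lov_small _ h).1 h1).2) (by simp)
  · obtain ⟨f, hf, hfI⟩ := thetaT_easy (t := 1 / k) (Or.inr (by
      rw [one_div_le_one_div (by norm_num) h]
      exact hk))
    exact ⟨fun I => f (complI I), hf.comp ptf_complI, fun I => (thetaLe_iff h I).trans (hfI _)⟩

end Pool.Agent.Helper78.TT
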