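import Mathlib
import Pool.Agent.Helper91.PolyTime.Typed

/-!
# Two-colourability can be decided in polynomial time

The edges are read one after the other; each vertex has a label (of its present component) and a
parity, and an edge between two labels merges them.
-/

set_option autoImplicit false

open Pool.Agent.Helper91.PolyTime

namespace Pool.Agent.Helper78.TT

/-- Label and parity of a vertex. -/
def lget (s : List (ℕ × Bool)) (v : ℕ) : ℕ × Bool := (s[v]?).getD (0, false)

/-- The edge is a proper one. -/
def okE (n : ℕ) (e : ℕ × ℕ) : Prop := e.1 ≠ e.2 ∧ e.1 < n ∧ e.2 < n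

instance (n : ℕ) (e : ℕ × ℕ) : Decidable (okE n e) := by unfold okE; infer_instance

/-- New value of an entry when the label `b.1` is merged into `a.1`. -/
def relab (a b z : ℕ × Bool) : ℕ × Bool :=
  if z.1 = b.1 then (a.1, xor (xor z.2 b.2) (!a.2)) else z

/-- One step. -/
def bst (n : ℕ) (s : List (ℕ × Bool) × Bool) (e : ℕ × ℕ) : List (ℕ × Bool) × Bool :=
  if okE n e then
    (if (lget s.1 e.1).1 = (lget s.1 e.2).1 then
      (s.1, s.2 && xor (lget s.1 e.1).2 (lget s.1 e.2).2)
    else (s.1.map (relab (lget s.1 e.1) (lget s.1 e.2)), s.2))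
  else s

/-- The starting state. -/
def binit (n : ℕ) : List (ℕ × Bool) × Bool := ((List.range n).map fun i => (i, false), true)

/-- The test. -/
def bip (I : ℕ × List (ℕ × ℕ)) : Bool := (I.2.foldl (bst I.1) (binit I.1)).2

/-- The invariant. -/
structure BInv (n : ℕ) (E : List (ℕ × ℕ)) (s : List (ℕ × Bool) × Bool) : Prop where
  len : s.1.length = n
  lt : ∀ z ∈ s.1, z.1 < n
  ok : s.2 = true → ∀ e ∈ E, okE n e → (lget s.1 e.1).1 = (lget s.1 e.2).1 ∧
    xor (lget s.1 e.1).2 (lget s.1 e.2).2 = true
  col : ∀ χ : ℕ → Bool, (∀ e ∈ E, okE n e → χ e.1 ≠ χ e.2) → s.2 = true ∧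
    ∀ v w, v < n → w < n → (lget s.1 v).1 = (lget s.1 w).1 →
      xor (lget s.1 v).2 (lget s.1 w).2 = xor (χ v) (χ w)

lemma lget_mem {s : List (ℕ × Bool)} {v : ℕ} (h : v < s.length) : lget s v ∈ s := by
  rw [lget, List.getElem?_eq_getElem h, Option.getD_some]
  exact List.getElem_mem h

lemma lget_map {s : List (ℕ × Bool)} {v : ℕ} (h : v < s.length) (f : ℕ × Bool → ℕ × Bool) :
    lget (s.map f) v = f (lget s v) := by
  rw [lget, lget, List.getElem?_eq_getElem (by simpa using h), Option.getD_some,
    List.getElem?_eq_getElem h, Option.getD_some, List.getElem_map]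

lemma binv_init (n : ℕ) : BInv n [] (binit n) := by
  have hg : ∀ v, v < n → lget (binit n).1 v = (v, false) := by
    intro v hv
    rw [lget, binit, List.getElem?_eq_getElem (by simpa using hv), Option.getD_some]
    simp
  refine ⟨by simp [binit], ?_, ?_, ?_⟩
  · intro z hz
    obtain ⟨i, hi, rfl⟩ := List.mem_map.1 hz
    exact List.mem_range.1 hi
  · intro _ e he
    simp at he
  · intro χ _
    refine ⟨rfl, fun v w hv hw h => ?_⟩
    rw [hg v hv, hg w hw] at h ⊢
    simp only at h
    subst h
    simp

lemma relab_fst (a b z : ℕ × Bool) :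
    (relab a b z).1 = if z.1 = b.1 then a.1 else z.1 := by
  unfold relab
  split_ifs <;> rfl

lemma binv_step {n : ℕ} {E : List (ℕ × ℕ)} {s : List (ℕ × Bool) × Bool} (h : BInv n E s)
    (e : ℕ × ℕ) : BInv n (E ++ [e]) (bst n s e) := by
  obtain ⟨hlen, hlt, hok, hcol⟩ := h
  unfold bst
  by_cases he : okE n e
  swap
  · rw [if_neg he]
    refine ⟨hlen, hlt, ?_, ?_⟩
    · intro h1 e' he' ho
      rcases List.mem_append.1 he' with h2 | h2
      · exact hok h1 e' h2 ho
      · rw [List.mem_singleton] at h2
        subst h2
        exact absurd ho he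
    · intro χ hχ
      exact hcol χ fun e' he' ho => hχ e' (List.mem_append_left _ he') ho
  rw [if_pos he]
  obtain ⟨hne, h1n, h2n⟩ := id he
  by_cases hl : (lget s.1 e.1).1 = (lget s.1 e.2).1
  · rw [if_pos hl]
    refine ⟨hlen, hlt, ?_, ?_⟩
    · intro h1 e' he' ho
      simp only [Bool.and_eq_true] at h1
      rcases List.mem_append.1 he' with h2 | h2
      · exact hok h1.1 e' h2 ho
      · rw [List.mem_singleton] at h2
        subst h2
        exact ⟨hl, h1.2⟩
    · intro χ hχ
      obtain ⟨h1, h2⟩ := hcol χ fun e' he' ho => hχ e' (List.mem_append_left _ he') ho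
      refine ⟨?_, h2⟩
      have h3 := h2 e.1 e.2 h1n h2n hl
      have h4 := hχ e (List.mem_append_right _ (List.mem_singleton_self e)) he
      simp only [h1, Bool.true_and, h3]
      cases hx : χ e.1 <;> cases hy : χ e.2 <;> simp_all
  · rw [if_neg hl]
    set a := lget s.1 e.1 with ha
    set b := lget s.1 e.2 with hb
    have hge : ∀ v, v < n → lget (s.1.map (relab a b)) v = relab a b (lget s.1 v) :=
      fun v hv => lget_map (by omega) _
    have hra : relab a b a = a := by
      unfold relab
      rw [if_neg hl]
    have hrb : relab a b b = (a.1, !a.2) := by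
      unfold relab
      rw [if_pos rfl]
      simp
    refine ⟨by simp [hlen], ?_, ?_, ?_⟩
    · intro z hz
      obtain ⟨z', hz', rfl⟩ := List.mem_map.1 hz
      rw [relab_fst]
      split_ifs
      · exact hlt _ (lget_mem (by omega))
      · exact hlt _ hz'
    · intro h1 e' he' ho
      rw [hge _ ho.2.1, hge _ ho.2.2]
      rcases List.mem_append.1 he' with h2 | h2
      · obtain ⟨h3, h4⟩ := hok h1 e' h2 ho
        constructor
        · rw [relab_fst, relab_fst, h3]
        · unfold relab
          rw [h3]
          split_ifs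
          · simp only
            revert h4
            generalize (lget s.1 e'.1).2 = p
            generalize (lget s.1 e'.2).2 = q
            generalize b.2 = r
            generalize a.2 = t
            revert p q r t
            decide
          · exact h4
      · rw [List.mem_singleton] at h2
        subst h2
        rw [← ha, ← hb, hra, hrb]
        refine ⟨rfl, ?_⟩
        simp
    · intro χ hχ
      obtain ⟨h1, h2⟩ := hcol χ fun e' he' ho => hχ e' (List.mem_append_left _ he') ho
      refine ⟨h1, ?_⟩
      have h4 := hχ e (List.mem_append_right _ (List.mem_singleton_self e)) he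
      intro v w hv hw h
      simp only at h ⊢
      rw [hge _ hv, hge _ hw] at h ⊢
      rw [relab_fst, relab_fst] at h
      unfold relab
      -- parities relative to `a` and `b`
      have hva : (lget s.1 v).1 = a.1 → xor (lget s.1 v).2 a.2 = xor (χ v) (χ e.1) :=
        fun h => h2 v e.1 hv h1n h
      have hvb : (lget s.1 v).1 = b.1 → xor (lget s.1 v).2 b.2 = xor (χ v) (χ e.2) :=
        fun h => h2 v e.2 hv h2n h
      have hwa : (lget s.1 w).1 = a.1 → xor (lget s.1 w).2 a.2 = xor (χ w) (χ e.1) :=
        fun h => h2 w e.1 hw h1n h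
      have hwb : (lget s.1 w).1 = b.1 → xor (lget s.1 w).2 b.2 = xor (χ w) (χ e.2) :=
        fun h => h2 w e.2 hw h2n h
      by_cases c1 : (lget s.1 v).1 = b.1
      · by_cases c2 : (lget s.1 w).1 = b.1
        · rw [if_pos c1, if_pos c2]
          have h5 := hvb c1
          have h6 := hwb c2
          simp only
          revert h5 h6
          generalize (lget s.1 v).2 = p
          generalize (lget s.1 w).2 = q
          generalize b.2 = r
          generalize a.2 = t
          generalize χ v = x
          generalize χ w = y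
          generalize χ e.2 = z
          revert p q r t x y z
          decide
        · rw [if_pos c1, if_neg c2]
          rw [if_pos c1, if_neg c2] at h
          have h5 := hvb c1
          have h6 := hwa h.symm
          simp only
          revert h5 h6 h4
          generalize (lget s.1 v).2 = p
          generalize (lget s.1 w).2 = q
          generalize b.2 = r
          generalize a.2 = t
          generalize χ v = x
          generalize χ w = y
          generalize χ e.2 = z
          generalize χ e.1 = z'
          revert p q r t x y z z'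
          decide
      · by_cases c2 : (lget s.1 w).1 = b.1
        · rw [if_neg c1, if_pos c2]
          rw [if_neg c1, if_pos c2] at h
          have h5 := hva h
          have h6 := hwb c2
          simp only
          revert h5 h6 h4
          generalize (lget s.1 v).2 = p
          generalize (lget s.1 w).2 = q
          generalize b.2 = r
          generalize a.2 = t
          generalize χ v = x
          generalize χ w = y
          generalize χ e.2 = z
          generalize χ e.1 = z'
          revert p q r t x y z z'
          decide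
        · rw [if_neg c1, if_neg c2]
          rw [if_neg c1, if_neg c2] at h
          exact h2 v w hv hw h

lemma binv_fold (n : ℕ) : ∀ (E' E : List (ℕ × ℕ)) (s : List (ℕ × Bool) × Bool), BInv n E s →
    BInv n (E ++ E') (E'.foldl (bst n) s) := by
  intro E'
  induction E' with
  | nil =>
    intro E s h
    rw [List.append_nil]
    exact h
  | cons e E' ih =>
    intro E s h
    have h1 := ih (E ++ [e]) (bst n s e) (binv_step h e)
    rw [List.append_assoc] at h1
    exact h1

lemma binv_all (n : ℕ) (E : List (ℕ × ℕ)) : BInv n E (E.foldl (bst n) (binit n)) := by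
  have h := binv_fold n E [] (binit n) (binv_init n)
  rwa [List.nil_append] at h

theorem bip_iff (I : ℕ × List (ℕ × ℕ)) :
    bip I = true ↔ ∃ χ : ℕ → Bool, ∀ e ∈ I.2, okE I.1 e → χ e.1 ≠ χ e.2 := by
  have h := binv_all I.1 I.2
  constructor
  · intro h1
    refine ⟨fun v => (lget (I.2.foldl (bst I.1) (binit I.1)).1 v).2, fun e he ho h2 => ?_⟩
    have h3 := (h.ok h1 e he ho).2
    simp only at h2
    rw [h2] at h3
    simp at h3
  · rintro ⟨χ, hχ⟩
    exact (h.col χ hχ).1

lemma length_enc_state (l : List (ℕ × Bool)) (n : ℕ) (h : ∀ z ∈ l, z.1 < n) :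
    (enc l).length ≤ l.length * (4 * n + 5) := by
  induction l with
  | nil => simp [enc_nil]
  | cons z l ih =>
    have h1 := ih fun z hz => h z (List.mem_cons_of_mem _ hz)
    have h2 := h z List.mem_cons_self
    obtain ⟨k, b⟩ := z
    rw [length_enc_cons, length_enc_prod, length_enc_nat, List.length_cons, enc_bool,
      List.length_singleton, Nat.add_mul, Nat.one_mul]
    simp only at h2
    omega

section ptf

variable {α : Type} [PEnc α]

lemma ptf_xor {f g : α → Bool} (hf : PTF f) (hg : PTF g) : PTF (fun x => xor (f x) (g x)) := by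
  refine (PTF.cond hf (PTF.not hg) hg).of_eq fun x => ?_
  cases f x <;> simp

lemma ptf_lget {s : α → List (ℕ × Bool)} {v : α → ℕ} (hs : PTF s) (hv : PTF v) :
    PTF (fun x => lget (s x) (v x)) := by
  have h : PTF (fun x => (s x)[v x]?) := PTF.getElem? hv hs
  refine (PTF.optCase (n := fun _ => ((0, false) : ℕ × Bool)) (s := fun _ z => z) h
    (PTF.const _) PTF.id.snd).of_eq fun x => ?_
  unfold lget
  cases (s x)[v x]? <;> rfl

lemma ptf_okE {n : α → ℕ} {e : α → ℕ × ℕ} (hn : PTF n) (he : PTF e) :
    PTF (fun x => decide (okE (n x) (e x))) :=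
  PTF.decide_and (PTF.decide_not (PTF.eq he.fst he.snd))
    (PTF.decide_and (PTF.lt he.fst hn) (PTF.lt he.snd hn))

lemma ptf_bst {n : α → ℕ} {s : α → List (ℕ × Bool) × Bool} {e : α → ℕ × ℕ} (hn : PTF n)
    (hs : PTF s) (he : PTF e) : PTF (fun x => bst (n x) (s x) (e x)) := by
  have ha := ptf_lget hs.fst he.fst
  have hb := ptf_lget hs.fst he.snd
  refine PTF.ite (ptf_okE hn he) (PTF.ite (PTF.eq ha.fst hb.fst)
    (PTF.pair hs.fst (PTF.and hs.snd (ptf_xor ha.snd hb.snd))) (PTF.pair ?_ hs.snd)) hs
  refine PTF.map (f := fun x z => relab (lget (s x).1 (e x).1) (lget (s x).1 (e x).2) z)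
    hs.fst ?_
  have ha' : PTF (fun p : α × (ℕ × Bool) => lget (s p.1).1 (e p.1).1) := ha.comp PTF.id.fst
  have hb' : PTF (fun p : α × (ℕ × Bool) => lget (s p.1).1 (e p.1).2) := hb.comp PTF.id.fst
  have hz : PTF (fun p : α × (ℕ × Bool) => p.2) := PTF.id.snd
  exact PTF.ite (PTF.eq hz.fst hb'.fst) (PTF.pair ha'.fst
    (ptf_xor (ptf_xor hz.snd hb'.snd) (PTF.not ha'.snd))) hz

theorem ptf_bip : PTF bip := by
  unfold bip
  refine PTF.snd ?_
  refine PTF.foldl (l := fun I : ℕ × List (ℕ × ℕ) => I.2) (g := fun I => binit I.1)
    (F := fun I => bst I.1) PTF.id.snd ?_ ?_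
    (2 * (Polynomial.X * (4 * Polynomial.X + 5)) + 2) ?_
  · exact PTF.pair (PTF.map (f := fun _ i => (i, false)) (PTF.range PTF.id.fst)
      (PTF.pair PTF.id.snd (PTF.const false))) (PTF.const true)
  · exact ptf_bst PTF.id.fst.fst PTF.id.snd.fst PTF.id.snd.snd
  · intro I l' _
    have h := binv_all I.1 l'
    set s := l'.foldl (bst I.1) (binit I.1) with hs
    have h1 := length_enc_state s.1 I.1 h.lt
    rw [h.len] at h1
    have h2 : I.1 ≤ (enc I).length := by
      obtain ⟨n, E⟩ := I
      rw [length_enc_prod, length_enc_nat]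
      simp only
      omega
    have h3 : I.1 * (4 * I.1 + 5) ≤ (enc I).length * (4 * (enc I).length + 5) :=
      Nat.mul_le_mul h2 (by omega)
    have h4 : (enc s).length = 2 * (enc s.1).length + 1 + 1 := by
      rw [show s = (s.1, s.2) from rfl, length_enc_prod, enc_bool, List.length_singleton]
    rw [h4]
    simp only [Polynomial.eval_add, Polynomial.eval_mul, Polynomial.eval_X,
      Polynomial.eval_ofNat]
    omega

end ptf

end Pool.Agent.Helper78.TT
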