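import Pool.Agent.Helper92.Theta.Blow

/-!
# Splitting vectors into orthogonal vectors of norm square `1 / N`
-/

set_option autoImplicit false

open scoped InnerProductSpace

namespace Pool.Agent.Helper78.TT

open Pool.Agent.Helper92.Theta (exists_ext)

/-- Splitting vectors of norm square `m / N` into `m` orthogonal vectors of norm square `1 / N`. -/
theorem blowN {X Γ : Type} {N : ℕ} (hN : 0 < N) [DecidableEq X] (grp : X → Γ) (F : Γ → Finset X)
    (valid : X → Prop)
    (hF : ∀ x, valid x → x ∈ F (grp x)) (hF' : ∀ γ x, x ∈ F γ → grp x = γ)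
    {H₀ : Type} [NormedAddCommGroup H₀] [InnerProductSpace ℝ H₀] (y₀ : H₀) (G : Γ → H₀)
    (h0 : ⟪y₀, y₀⟫_ℝ = 1)
    (hG : ∀ x, valid x → ⟪y₀, G (grp x)⟫_ℝ = (F (grp x)).card / N)
    (hG' : ∀ x, valid x → ⟪G (grp x), G (grp x)⟫_ℝ = (F (grp x)).card / N) :
    ∃ (H : Type) (_ : NormedAddCommGroup H) (_ : InnerProductSpace ℝ H) (z₀ : H) (z : X → H),
      ⟪z₀, z₀⟫_ℝ = 1 ∧ (∀ x, valid x → ⟪z₀, z x⟫_ℝ = 1 / N ∧ ⟪z x, z x⟫_ℝ = 1 / N) ∧
      ∀ x x', valid x → valid x' → x ≠ x' →
        (grp x = grp x' ∨ ⟪G (grp x), G (grp x')⟫_ℝ = 0) → ⟪z x, z x'⟫_ℝ = 0 := by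
  classical
  obtain ⟨H, _, _, e, b, he, hb, heb, hbe⟩ := exists_ext H₀ X
  set B : Γ → H := fun γ => ∑ x ∈ F γ, b x with hB
  set m : Γ → ℝ := fun γ => ((F γ).card : ℝ) with hm
  have hbB : ∀ x γ, ⟪b x, B γ⟫_ℝ = if x ∈ F γ then 1 else 0 := by
    intro x γ
    rw [hB, inner_sum]
    by_cases hx : x ∈ F γ
    · rw [if_pos hx, Finset.sum_eq_single x]
      · rw [hb, if_pos rfl]
      · intro j _ hj; rw [hb, if_neg (Ne.symm hj)]
      · intro h; exact absurd hx h
    · rw [if_neg hx]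
      refine Finset.sum_eq_zero fun j hj => ?_
      rw [hb, if_neg]
      rintro rfl
      exact hx hj
  have hBb : ∀ x γ, ⟪B γ, b x⟫_ℝ = if x ∈ F γ then 1 else 0 := by
    intro x γ
    rw [real_inner_comm, hbB]
  have hBB : ∀ γ, ⟪B γ, B γ⟫_ℝ = m γ := by
    intro γ
    conv_lhs => rw [hB]
    simp only
    rw [sum_inner]
    have : ∀ x ∈ F γ, ⟪b x, ∑ x ∈ F γ, b x⟫_ℝ = 1 := by
      intro x hx
      have := hbB x γ
      rw [if_pos hx] at this
      exact this
    rw [Finset.sum_congr rfl this]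
    simp [hm]
  have hBB' : ∀ γ γ', γ ≠ γ' → ⟪B γ, B γ'⟫_ℝ = 0 := by
    intro γ γ' hne
    conv_lhs => rw [hB]
    simp only
    rw [sum_inner]
    refine Finset.sum_eq_zero fun x hx => ?_
    have := hbB x γ'
    rw [if_neg] at this
    · exact this
    · intro hx'
      exact hne ((hF' γ x hx).symm.trans (hF' γ' x hx'))
  have heB : ∀ y γ, ⟪e y, B γ⟫_ℝ = 0 := by
    intro y γ
    rw [hB, inner_sum]
    exact Finset.sum_eq_zero fun x _ => heb y x
  have hBe : ∀ y γ, ⟪B γ, e y⟫_ℝ = 0 := by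
    intro y γ
    rw [real_inner_comm, heB]
  have hmpos : ∀ x, valid x → 0 < m (grp x) := by
    intro x hx
    have := Finset.card_pos.2 ⟨x, hF x hx⟩
    simp only [hm]
    exact_mod_cast this
  obtain ⟨c, hc⟩ : ∃ c : ℝ, c = 1 / N := ⟨_, rfl⟩
  have hc0 : 0 ≤ c := by
    rw [hc]
    positivity
  obtain ⟨a, ha⟩ : ∃ a : Γ → ℝ, ∀ γ, a γ = 1 / m γ := ⟨_, fun γ => rfl⟩
  have ha1 : ∀ x, valid x → a (grp x) * m (grp x) = 1 := by
    intro x hx
    rw [ha, one_div, inv_mul_cancel₀ (hmpos x hx).ne']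
  have hmN : ∀ γ, ((F γ).card : ℝ) / N = m γ * c := by
    intro γ
    rw [hc]
    simp only [hm]
    ring
  obtain ⟨r, hr⟩ : ∃ r : ℝ, r = Real.sqrt c := ⟨_, rfl⟩
  have hr2 : r * r = c := by
    rw [hr]
    exact Real.mul_self_sqrt hc0
  rw [← hc]
  refine ⟨H, inferInstance, inferInstance, e y₀, fun x => a (grp x) • e (G (grp x)) +
    r • (b x - a (grp x) • B (grp x)), ?_, ?_, ?_⟩
  · rw [he, h0]
  · intro x hx
    have hax := ha1 x hx
    constructor
    · rw [inner_add_right, inner_smul_right, inner_smul_right, inner_sub_right, inner_smul_right,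
        he, heb, heB, hG x hx, hmN]
      linear_combination c * hax
    · simp only [inner_add_left, inner_add_right, inner_smul_left, inner_smul_right,
        inner_sub_left, inner_sub_right, he, heb, hbe, heB, hBe, hBB, hbB, hBb, hb,
        if_pos (hF x hx), hG' x hx, hmN, RCLike.conj_to_real]
      simp only [if_true]
      linear_combination (a (grp x) * c + r ^ 2 * a (grp x)) * hax + (1 - a (grp x)) * hr2
  · intro x x' hx hx' hne hor
    have hax := ha1 x hx
    have hax' := ha1 x' hx'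
    by_cases hg : grp x = grp x'
    · have h1 : x ∈ F (grp x') := hg ▸ hF x hx
      simp only [hg]
      simp only [inner_add_left, inner_add_right, inner_smul_left, inner_smul_right,
        inner_sub_left, inner_sub_right, he, heb, hbe, heB, hBe, hBB, hbB, hBb, hb,
        if_pos (hF x' hx'), if_pos h1, if_neg hne, hG' x' hx', hmN, RCLike.conj_to_real]
      linear_combination (a (grp x') * c + r ^ 2 * a (grp x')) * hax' - a (grp x') * hr2
    · have h1 : x ∉ F (grp x') := fun h => hg (hF' _ _ h)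
      have h2 : x' ∉ F (grp x) := fun h => hg (hF' _ _ h).symm
      have h3 : ⟪G (grp x), G (grp x')⟫_ℝ = 0 := hor.resolve_left hg
      simp only [inner_add_left, inner_add_right, inner_smul_left, inner_smul_right,
        inner_sub_left, inner_sub_right, he, heb, hbe, heB, hBe, hBB' _ _ hg, hbB, hBb, hb,
        if_neg h1, if_neg h2, if_neg hne, h3, RCLike.conj_to_real]
      ring

end Pool.Agent.Helper78.TT
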