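import Pool.Agent.Helper78.TT.PolyK

/-!
# The cliques of the graphs of the reduction

No clique has more than `b / a` vertices.
-/

set_option autoImplicit false

open Finset

namespace Pool.Agent.Helper78.TT

open Pool.Agent.Helper92.Theta

/-- Disjoint subsets of equal size. -/
theorem count_disj {ι : Type} [DecidableEq ι] {N r : ℕ} {t : Finset ι} {S : ι → Finset (Fin N)}
    {D : Finset (Fin N)} (h1 : ∀ w ∈ t, (S w).card = r) (h2 : ∀ w ∈ t, S w ⊆ D)
    (h3 : ∀ u ∈ t, ∀ v ∈ t, u ≠ v → Disjoint (S u) (S v)) : r * t.card ≤ D.card := by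
  have h4 : (t.biUnion S).card = r * t.card := by
    rw [card_biUnion (fun u hu v hv huv => h3 u hu v hv huv), sum_congr rfl h1, sum_const,
      smul_eq_mul, mul_comm]
  rw [← h4]
  exact card_le_card (biUnion_subset.2 h2)

/-- The meaning of adjacency in one direction. -/
theorem kbase_iff {b : ℕ} {x y : VK} {S T : Finset (Fin (8 * b))} (hx : x.2 = code S)
    (hy : y.2 = code T) : kbase b x y = true ↔ (x.1 = y.1 ∧ Disjoint S T) ∨
      (x.1.1 = false ∧ y.1.1 = true ∧ T ⊆ (hA b)ᶜ ∧
        ((y.1.2.1 = x.1.2.1 ∧ S ⊆ hA b) ∨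
          (y.1.2.1 = x.1.2.2.1 ∧ S ⊆ hB b x.1.2.2.2))) := by
  unfold kbase
  rw [Bool.or_eq_true, Bool.and_eq_true, Bool.and_eq_true, Bool.and_eq_true, Bool.and_eq_true,
    Bool.or_eq_true, Bool.and_eq_true, Bool.and_eq_true, decide_eq_true_iff, decide_eq_true_iff,
    decide_eq_true_iff, hx, hy, disL_code, inH_code, inA_code, inB_code, Bool.not_eq_true']

theorem clique_le {a b : ℕ} {C : List Cst} (hC : ∀ c ∈ C, c.2.2 ≤ 4)
    (hne : ∀ c ∈ C, c.1 ≠ c.2.1) (s : Finset (Fin (klist a b C).length))
    (hs : (graphOf (klist a b C).length (kedges b (klist a b C))).IsClique s) :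
    a * s.card ≤ b := by
  classical
  have hL : ∀ v : Fin (klist a b C).length, ∃ c ∈ C, ∃ S : Finset (Fin (8 * b)), S.card = 8 * a ∧
      (klist a b C)[v].2 = code S ∧ ((klist a b C)[v].1 = cf c ∨
        (klist a b C)[v].1 = pf c.1 ∨ (klist a b C)[v].1 = pf c.2.1) :=
    fun v => mem_klist.1 (List.getElem_mem _)
  choose co hco S hS hcode hfr using hL
  have hadj : ∀ u ∈ s, ∀ v ∈ s, u ≠ v →
      kadj b (klist a b C)[u] (klist a b C)[v] = true := by
    intro u hu v hv huv
    obtain ⟨-, h | h⟩ := hs hu hv huv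
    · exact (mem_kedges b (klist a b C) u v).1 h
    · exact kadj_symm ((mem_kedges b (klist a b C) v u).1 h)
  have hk : ∀ u v : Fin (klist a b C).length,
      kadj b (klist a b C)[u] (klist a b C)[v] = true →
      ((klist a b C)[u].1 = (klist a b C)[v].1 ∧ Disjoint (S u) (S v)) ∨
      ((klist a b C)[u].1.1 = false ∧ (klist a b C)[v].1.1 = true ∧ S v ⊆ (hA b)ᶜ ∧
        (((klist a b C)[v].1.2.1 = (klist a b C)[u].1.2.1 ∧ S u ⊆ hA b) ∨
          ((klist a b C)[v].1.2.1 = (klist a b C)[u].1.2.2.1 ∧
            S u ⊆ hB b (klist a b C)[u].1.2.2.2))) ∨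
      ((klist a b C)[v].1.1 = false ∧ (klist a b C)[u].1.1 = true ∧ S u ⊆ (hA b)ᶜ ∧
        (((klist a b C)[u].1.2.1 = (klist a b C)[v].1.2.1 ∧ S v ⊆ hA b) ∨
          ((klist a b C)[u].1.2.1 = (klist a b C)[v].1.2.2.1 ∧
            S v ⊆ hB b (klist a b C)[v].1.2.2.2))) := by
    intro u v h
    unfold kadj at h
    rw [Bool.or_eq_true, kbase_iff (hcode u) (hcode v), kbase_iff (hcode v) (hcode u)] at h
    rcases h with (h | h) | (h | h)
    · exact Or.inl h
    · exact Or.inr (Or.inl h)
    · exact Or.inl ⟨h.1.symm, h.2.symm⟩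
    · exact Or.inr (Or.inr h)
  have hsame : ∀ u ∈ s, ∀ v ∈ s, u ≠ v → (klist a b C)[u].1 = (klist a b C)[v].1 →
      Disjoint (S u) (S v) := by
    intro u hu v hv huv h
    rcases hk u v (hadj u hu v hv huv) with h1 | h1 | h1
    · exact h1.2
    · rw [h, h1.2.1] at h1
      exact absurd h1.1 (by decide)
    · rw [h, h1.1] at h1
      exact absurd h1.2.1 (by decide)
  have hcount : ∀ t ⊆ s, ∀ D : Finset (Fin (8 * b)), (∀ w ∈ t, S w ⊆ D) →
      (∀ u ∈ t, ∀ v ∈ t, (klist a b C)[u].1 = (klist a b C)[v].1) →
      8 * a * t.card ≤ D.card := by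
    intro t hts D h1 h2
    exact count_disj (fun w _ => hS w) h1 fun u hu v hv huv =>
      hsame u (hts hu) v (hts hv) huv (h2 u hu v hv)
  by_cases hall : ∀ u ∈ s, ∀ v ∈ s, (klist a b C)[u].1 = (klist a b C)[v].1
  · have h1 := hcount s (Subset.refl s) univ (fun w _ => subset_univ _) hall
    rw [card_univ, Fintype.card_fin, mul_assoc] at h1
    exact Nat.le_of_mul_le_mul_left h1 (by norm_num)
  · -- a vertex `u` of a constraint and a vertex `v` of a name
    obtain ⟨u, hu, v, hv, hu1, hv1⟩ : ∃ u ∈ s, ∃ v ∈ s, (klist a b C)[u].1.1 = false ∧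
        (klist a b C)[v].1.1 = true := by
      push Not at hall
      obtain ⟨u, hu, v, hv, huv⟩ := hall
      rcases hk u v (hadj u hu v hv (fun h => huv (h ▸ rfl))) with h1 | h1 | h1
      · exact absurd h1.1 huv
      · exact ⟨u, hu, v, hv, h1.1, h1.2.1⟩
      · exact ⟨v, hv, u, hu, h1.1, h1.2.1⟩
    have huf : (klist a b C)[u].1 = cf (co u) := by
      rcases hfr u with h | h | h
      · exact h
      · rw [h] at hu1
        exact absurd hu1 (by simp [pf])
      · rw [h] at hu1
        exact absurd hu1 (by simp [pf])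
    have hF : ∀ w ∈ s, (klist a b C)[w].1.1 = false → (klist a b C)[w].1 = cf (co u) := by
      intro w hw h
      by_cases hwu : w = u
      · rw [hwu, huf]
      · rcases hk w u (hadj w hw u hu hwu) with h1 | h1 | h1
        · rw [h1.1, huf]
        · rw [hu1] at h1
          exact absurd h1.2.1 (by decide)
        · rw [h] at h1
          exact absurd h1.2.1 (by decide)
    have hT : ∀ w ∈ s, (klist a b C)[w].1.1 = true →
        (klist a b C)[w].1 = (klist a b C)[v].1 := by
      intro w hw h
      by_cases hwv : w = v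
      · rw [hwv]
      · rcases hk w v (hadj w hw v hv hwv) with h1 | h1 | h1
        · exact h1.1
        · rw [h] at h1
          exact absurd h1.1 (by decide)
        · rw [hv1] at h1
          exact absurd h1.1 (by decide)
    have hsF := hcount (s.filter fun w => (klist a b C)[w].1.1 = false) (filter_subset _ _)
      (if (klist a b C)[v].1.2.1 = (co u).1 then hA b else hB b (co u).2.2) (by
        intro w hw
        rw [mem_filter] at hw
        have h1 := hF w hw.1 hw.2
        rcases hk w v (hadj w hw.1 v hv (fun h => by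
          rw [h, hv1] at hw
          exact absurd hw.2 (by decide))) with h2 | h2 | h2
        · rw [← h2.1, hw.2] at hv1
          exact absurd hv1 (by decide)
        · rw [h1] at h2
          rcases h2.2.2.2 with h3 | h3
          · have h4 : (klist a b C)[v].1.2.1 = (co u).1 := h3.1
            rw [if_pos h4]
            exact h3.2
          · have h4 : (klist a b C)[v].1.2.1 = (co u).2.1 := h3.1
            rw [if_neg (fun h => hne (co u) (hco u) (h.symm.trans h4))]
            exact h3.2
        · rw [hw.2] at h2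
          exact absurd h2.2.1 (by decide)) (by
        intro w hw w' hw'
        rw [mem_filter] at hw hw'
        rw [hF w hw.1 hw.2, hF w' hw'.1 hw'.2])
    have hsT := hcount (s.filter fun w => ¬ (klist a b C)[w].1.1 = false) (filter_subset _ _)
      (hA b)ᶜ (by
        intro w hw
        rw [mem_filter, Bool.not_eq_false] at hw
        rcases hk u w (hadj u hu w hw.1 (fun h => by
          rw [← h, hu1] at hw
          exact absurd hw.2 (by decide))) with h2 | h2 | h2
        · rw [← h2.1, hu1] at hw
          exact absurd hw.2 (by decide)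
        · exact h2.2.2.1
        · rw [hw.2] at h2
          exact absurd h2.1 (by decide)) (by
        intro w hw w' hw'
        rw [mem_filter, Bool.not_eq_false] at hw hw'
        rw [hT w hw.1 hw.2, hT w' hw'.1 hw'.2])
    have hcD : (if (klist a b C)[v].1.2.1 = (co u).1 then hA b
        else hB b (co u).2.2).card = 4 * b := by
      split_ifs
      · exact card_hA b
      · exact card_hB (hC _ (hco u))
    have hcA : ((hA b)ᶜ).card = 4 * b := by
      rw [card_compl, Fintype.card_fin, card_hA]
      omega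
    rw [hcD] at hsF
    rw [hcA] at hsT
    have h5 := card_filter_add_card_filter_not (s := s)
      (fun w => (klist a b C)[w].1.1 = false)
    have h6 : 8 * a * s.card ≤ 8 * b := by
      rw [← h5, Nat.mul_add]
      omega
    rw [mul_assoc] at h6
    exact Nat.le_of_mul_le_mul_left h6 (by norm_num)

theorem linC_ne (K : ℕ) (E : List (List Tm)) : ∀ c ∈ linC K E, c.1 ≠ c.2.1 := by
  intro c hc
  rcases List.mem_append.1 hc with hc | hc
  · have : ∀ c ∈ baseC, c.1 ≠ c.2.1 := by
      simp only [baseC, List.forall_mem_cons]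
      simp [vN, eN]
    exact this c hc
  · obtain ⟨k, -, hc⟩ := List.mem_flatMap.1 hc
    rw [eqC, List.mem_cons, List.mem_cons, List.mem_flatMap] at hc
    rcases hc with rfl | rfl | ⟨m, -, hc⟩
    · simp [hN, vN]
    · simp [hN, vN]
    · rcases List.mem_append.1 hc with hc | hc
      · have : ∀ c ∈ termC K k m ((((E[k]?).getD [])[m]?).getD tm0),
            c.1 ≠ c.2.1 := by
          simp only [termC, List.forall_mem_cons]
          simp [AN, vN, eN, TN, gN, SN, hN, sN]
        exact this c hc
      · obtain ⟨i, -, hc⟩ := List.mem_flatMap.1 hc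
        have : ∀ x y i, ∀ c ∈ chainC x y i, c.1 ≠ c.2.1 := by
          intro x y i
          simp [chainC, AN, EN]
        exact this _ _ _ c hc

/-- **The cliques of the graphs of the reduction.** -/
theorem redT_clique {a b : ℕ} (I : SDP) (s : Finset (Fin (redT a b I).1))
    (hs : (graphOf (redT a b I).1 (redT a b I).2).IsClique s) : a * s.card ≤ b :=
  clique_le (linC_le _ _) (linC_ne _ _) s hs

end Pool.Agent.Helper78.TT
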