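import Pool.Agent.Helper78.TT.Snd

/-!
# From unit vectors to the graph
-/

set_option autoImplicit false

open Finset
open scoped InnerProductSpace

namespace Pool.Agent.Helper78.TT

open Pool.Agent.Helper92.Theta (TH th_iff exists_ext Nm Cst GSat graphOf)

/-- The groups of atoms. -/
abbrev GK : Type := (Nm × Bool) ⊕ (Cst × Bool × Bool)

/-- Is the index in the first half? -/
def ixA (b i : ℕ) : Bool := decide (i < 4 * b)

/-- Is the index in the interval? -/
def ixB (b τ i : ℕ) : Bool := (!decide (i + b * τ < 4 * b)) && decide (i + b * τ < 8 * b)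

instance : DecidableEq ((Bool × Cst) × ℕ) := instDecidableEqProd

/-- The group of an atom. -/
def grpK (b : ℕ) (x : (Bool × Cst) × ℕ) : GK :=
  bif x.1.1 then .inl (x.1.2.1, ixA b x.2) else .inr (x.1.2, ixA b x.2, ixB b x.1.2.2.2 x.2)

/-- The atoms of a group. -/
def grpF (b : ℕ) : GK → Finset ((Bool × Cst) × ℕ)
  | .inl (p, s) => ((range (8 * b)).filter fun i => ixA b i = s).image fun i => (pf p, i)
  | .inr (c, s, r) => ((range (8 * b)).filter fun i => ixA b i = s ∧ ixB b c.2.2 i = r).image
      fun i => (cf c, i)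

theorem card_ico' {n l u : ℕ} (h : u ≤ n) :
    ((range n).filter fun i => l ≤ i ∧ i < u).card = u - l := by
  rw [← Nat.card_Ico l u]
  congr 1
  ext i
  rw [mem_filter, mem_range, mem_Ico]
  omega

theorem card_inl (b : ℕ) (p : Nm) (s : Bool) : (grpF b (.inl (p, s))).card = 4 * b := by
  change (((range (8 * b)).filter fun i => ixA b i = s).image fun i => (pf p, i)).card = _
  rw [card_image_of_injective _ (fun i j h => by simpa using h)]
  cases s
  · have : ((range (8 * b)).filter fun i => ixA b i = false) =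
        (range (8 * b)).filter fun i => 4 * b ≤ i ∧ i < 8 * b := by
      refine filter_congr fun i hi => ?_
      rw [mem_range] at hi
      unfold ixA
      rw [decide_eq_false_iff_not]
      omega
    rw [this, card_ico' le_rfl]
    omega
  · have : ((range (8 * b)).filter fun i => ixA b i = true) =
        (range (8 * b)).filter fun i => 0 ≤ i ∧ i < 4 * b := by
      refine filter_congr fun i hi => ?_
      unfold ixA
      rw [decide_eq_true_eq]
      omega
    rw [this, card_ico' (by omega)]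
    omega

theorem card_inr (b : ℕ) (c : Cst) (hc : c.2.2 ≤ 4) (s r : Bool) :
    (grpF b (.inr (c, s, r))).card = if s = r then b * c.2.2 else 4 * b - b * c.2.2 := by
  change (((range (8 * b)).filter fun i => ixA b i = s ∧ ixB b c.2.2 i = r).image
      fun i => (cf c, i)).card = _
  rw [card_image_of_injective _ (fun i j h => by simpa using h)]
  have h0 := bt_le (b := b) hc
  obtain ⟨m, hm⟩ : ∃ m, m = b * c.2.2 := ⟨_, rfl⟩
  rw [← hm] at h0 ⊢
  have key : ∀ l u : ℕ, u ≤ 8 * b → (∀ i, i < 8 * b → ((ixA b i = s ∧ ixB b c.2.2 i = r) ↔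
      (l ≤ i ∧ i < u))) → ((range (8 * b)).filter fun i => ixA b i = s ∧ ixB b c.2.2 i = r).card =
      u - l := by
    intro l u hu h
    rw [← card_ico' hu]
    congr 1
    exact filter_congr fun i hi => h i (mem_range.1 hi)
  cases s <;> cases r
  · rw [if_pos rfl, key (8 * b - m) (8 * b) le_rfl]
    · omega
    · intro i hi
      unfold ixA ixB
      rw [← hm]
      simp only [decide_eq_false_iff_not, Bool.and_eq_false_iff, Bool.not_eq_false',
        decide_eq_true_eq]
      omega
  · rw [if_neg (by simp), key (4 * b) (8 * b - m) (by omega)]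
    · omega
    · intro i hi
      unfold ixA ixB
      rw [← hm]
      simp only [decide_eq_false_iff_not, Bool.and_eq_true, Bool.not_eq_true',
        decide_eq_true_eq]
      omega
  · rw [if_neg (by simp), key 0 (4 * b - m) (by omega)]
    · omega
    · intro i hi
      unfold ixA ixB
      rw [← hm]
      simp only [decide_eq_true_eq, Bool.and_eq_false_iff, Bool.not_eq_false',
        decide_eq_false_iff_not]
      omega
  · rw [if_pos rfl, key (4 * b - m) (4 * b) (by omega)]
    · omega
    · intro i hi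
      unfold ixA ixB
      rw [← hm]
      simp only [decide_eq_true_eq, Bool.and_eq_true, Bool.not_eq_true',
        decide_eq_false_iff_not]
      omega

theorem grp_of_mem (b : ℕ) (γ : GK) (x : (Bool × Cst) × ℕ) (h : x ∈ grpF b γ) :
    grpK b x = γ := by
  rcases γ with ⟨p, s⟩ | ⟨c, s, r⟩
  · obtain ⟨i, hi, rfl⟩ := mem_image.1 h
    have h1 := (mem_filter.1 hi).2
    change Sum.inl (p, ixA b i) = _
    rw [h1]
  · obtain ⟨i, hi, rfl⟩ := mem_image.1 h
    have h1 := (mem_filter.1 hi).2
    change Sum.inr (c, ixA b i, ixB b c.2.2 i) = _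
    rw [h1.1, h1.2]

/-- Signs. -/
def sgn (s : Bool) : ℝ := bif s then 1 else -1

/-- From unit vectors to the graph. -/
theorem kgadget_of_gsat {a b : ℕ} (ha : 1 ≤ a) (hab : 2 * a < b) (C : List Cst)
    (hC : ∀ c ∈ C, c.2.2 ≤ 4) (h : GSat C) : kgadget a b C ∈ ThetaT ((a : ℝ) / b) := by
  classical
  obtain ⟨H, _, _, u, hu, hC'⟩ := h
  obtain ⟨H₁, _, _, e, d, he, hd, hed, hde⟩ := exists_ext H (Option Cst)
  have hb' : (b : ℝ) ≠ 0 := by
    have : b ≠ 0 := by omega
    exact_mod_cast this
  have hb8 : ((8 * b : ℕ) : ℝ) ≠ 0 := by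
    push_cast
    positivity
  obtain ⟨k, hk⟩ : ∃ k : Cst → ℝ, ∀ c, k c = (c.2.2 : ℝ) / 2 - 1 := ⟨_, fun c => rfl⟩
  obtain ⟨w, hw⟩ : ∃ w : Cst → ℝ, ∀ c, w c = Real.sqrt (1 - k c ^ 2) := ⟨_, fun c => rfl⟩
  have hw2 : ∀ c ∈ C, w c * w c = 1 - k c ^ 2 := by
    intro c hc
    rw [hw]
    refine Real.mul_self_sqrt ?_
    have h1 : ((c.2.2 : ℕ) : ℝ) ≤ 4 := by exact_mod_cast hC c hc
    have h2 : (0 : ℝ) ≤ c.2.2 := Nat.cast_nonneg _
    rw [hk]
    nlinarith
  set G : GK → H₁ := fun γ => match γ with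
    | .inl (p, s) => (1 / 2 : ℝ) • d none + (sgn s / 2 : ℝ) • e (u p)
    | .inr (c, s, r) => ((1 + sgn s * sgn r * k c) / 4 : ℝ) • d none +
        ((sgn s / 4 : ℝ) • e (u c.1) + (sgn r / 4 : ℝ) • e (u c.2.1)) +
        (sgn s * sgn r * w c / 4 : ℝ) • d (some c) with hG
  have hdn : ∀ c : Cst, ⟪d none, d (some c)⟫_ℝ = 0 := fun c => by rw [hd]; simp
  have hdn' : ∀ c : Cst, ⟪d (some c), d none⟫_ℝ = 0 := fun c => by rw [hd]; simp
  have hdd : ∀ x, ⟪d x, d x⟫_ℝ = 1 := fun x => by rw [hd]; simp
  have hκ : ∀ c ∈ C, ⟪u c.1, u c.2.1⟫_ℝ = k c := fun c hc => by rw [hC' c hc, hk]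
  have hκ' : ∀ c ∈ C, ⟪u c.2.1, u c.1⟫_ℝ = k c := fun c hc => by
    rw [real_inner_comm, hκ c hc]
  have hs2 : ∀ s, sgn s * sgn s = 1 := by
    intro s
    cases s <;> norm_num [sgn]
  -- inner products with the base vector
  have i1 : ∀ p s, ⟪d none, G (.inl (p, s))⟫_ℝ = 1 / 2 := by
    intro p s
    simp only [hG, inner_add_right, inner_smul_right, hdd, hde]; ring
  have i2 : ∀ c s r, ⟪d none, G (.inr (c, s, r))⟫_ℝ = (1 + sgn s * sgn r * k c) / 4 := by
    intro c s r
    simp only [hG, inner_add_right, inner_smul_right, hdd, hde, hdn]; ring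
  -- norms
  have n1 : ∀ p s, ⟪G (.inl (p, s)), G (.inl (p, s))⟫_ℝ = 1 / 2 := by
    intro p s
    simp only [hG, inner_add_right, inner_smul_right, inner_add_left, inner_smul_left, hdd, hde,
      hed, he, hu, RCLike.conj_to_real]
    linear_combination (1 / 4) * hs2 s
  have n2 : ∀ c ∈ C, ∀ s r, ⟪G (.inr (c, s, r)), G (.inr (c, s, r))⟫_ℝ =
      (1 + sgn s * sgn r * k c) / 4 := by
    intro c hc s r
    simp only [hG, inner_add_right, inner_smul_right, inner_add_left, inner_smul_left, hdd, hde,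
      hed, he, hu, RCLike.conj_to_real, hdn, hdn', hκ c hc, hκ' c hc]
    have h1 := hw2 c hc
    cases s <;> cases r <;> simp only [sgn, cond_true, cond_false] <;>
      linear_combination (1 / 16) * h1
  -- orthogonality in the frames
  have o1 : ∀ p s s', s ≠ s' → ⟪G (.inl (p, s)), G (.inl (p, s'))⟫_ℝ = 0 := by
    intro p s s' hss
    simp only [hG, inner_add_right, inner_smul_right, inner_add_left, inner_smul_left, hdd, hde,
      hed, he, hu, RCLike.conj_to_real]
    cases s <;> cases s' <;> simp only [sgn, cond_true, cond_false] <;>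
      first | exact absurd rfl hss | norm_num
  have o2 : ∀ c ∈ C, ∀ s r s' r', (s, r) ≠ (s', r') →
      ⟪G (.inr (c, s, r)), G (.inr (c, s', r'))⟫_ℝ = 0 := by
    intro c hc s r s' r' hne
    simp only [hG, inner_add_right, inner_smul_right, inner_add_left, inner_smul_left, hdd, hde,
      hed, he, hu, RCLike.conj_to_real, hdn, hdn', hκ c hc, hκ' c hc]
    have h1 := hw2 c hc
    cases s <;> cases r <;> cases s' <;> cases r' <;> simp only [sgn, cond_true, cond_false] <;>
      first | exact absurd rfl hne | linear_combination (1 / 16) * h1 |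
        linear_combination (-1 / 16) * h1
  -- orthogonality between the frames
  have o3 : ∀ c ∈ C, ∀ r, ⟪G (.inr (c, true, r)), G (.inl (c.1, false))⟫_ℝ = 0 := by
    intro c hc r
    cases r <;>
    simp only [hG, inner_add_right, inner_smul_right, inner_add_left, inner_smul_left,
      hdd, hde, hed, he, hu, RCLike.conj_to_real, hdn, hdn', hκ c hc, hκ' c hc, sgn, cond_true,
      cond_false] <;> ring
  have o4 : ∀ c ∈ C, ∀ s, ⟪G (.inr (c, s, true)), G (.inl (c.2.1, false))⟫_ℝ = 0 := by
    intro c hc s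
    cases s <;>
    simp only [hG, inner_add_right, inner_smul_right, inner_add_left, inner_smul_left,
      hdd, hde, hed, he, hu, RCLike.conj_to_real, hdn, hdn', hκ c hc, hκ' c hc, sgn, cond_true,
      cond_false] <;> ring
  -- the atoms
  set valid : (Bool × Cst) × ℕ → Prop := fun x =>
    x.2 < 8 * b ∧ ((∃ c ∈ C, x.1 = cf c) ∨ ∃ p, x.1 = pf p) with hvalid
  have hcard : ∀ x, valid x → ⟪d none, G (grpK b x)⟫_ℝ = ((grpF b (grpK b x)).card : ℝ) /
      ((8 * b : ℕ) : ℝ) ∧ ⟪G (grpK b x), G (grpK b x)⟫_ℝ = ((grpF b (grpK b x)).card : ℝ) /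
      ((8 * b : ℕ) : ℝ) := by
    rintro ⟨φ, i⟩ ⟨hi, ⟨c, hc, hφ⟩ | ⟨p, hφ⟩⟩
    · have h1 : φ = cf c := hφ
      subst h1
      have h2 : grpK b (cf c, i) = .inr (c, ixA b i, ixB b c.2.2 i) := rfl
      rw [h2, i2, n2 c hc, card_inr b c (hC c hc)]
      have h3 : (1 + sgn (ixA b i) * sgn (ixB b c.2.2 i) * k c) / 4 =
          ((if ixA b i = ixB b c.2.2 i then b * c.2.2 else 4 * b - b * c.2.2 : ℕ) : ℝ) /
            ((8 * b : ℕ) : ℝ) := by
        rw [hk, eq_div_iff hb8]
        have h0 := bt_le (b := b) (hC c hc)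
        cases ixA b i <;> cases ixB b c.2.2 i
        · rw [if_pos rfl]
          simp only [sgn, cond_false]
          push_cast
          ring
        · rw [if_neg (by simp), Nat.cast_sub h0]
          simp only [sgn, cond_false, cond_true]
          push_cast
          ring
        · rw [if_neg (by simp), Nat.cast_sub h0]
          simp only [sgn, cond_false, cond_true]
          push_cast
          ring
        · rw [if_pos rfl]
          simp only [sgn, cond_true]
          push_cast
          ring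
      exact ⟨h3, h3⟩
    · have h1 : φ = pf p := hφ
      subst h1
      have h2 : grpK b (pf p, i) = .inl (p, ixA b i) := rfl
      rw [h2, i1, n1, card_inl]
      have h3 : (1 / 2 : ℝ) = ((4 * b : ℕ) : ℝ) / ((8 * b : ℕ) : ℝ) := by
        rw [eq_div_iff hb8]
        push_cast
        ring
      exact ⟨h3, h3⟩
  obtain ⟨H₂, _, _, z₀, z, hz0, hz1, hz2⟩ := blowN (N := 8 * b) (by omega) (grpK b) (grpF b) valid
    (by
      rintro ⟨φ, i⟩ ⟨hi, ⟨c, hc, hφ⟩ | ⟨p, hφ⟩⟩
      · have h1 : φ = cf c := hφ
        subst h1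
        exact mem_image.2 ⟨i, mem_filter.2 ⟨mem_range.2 hi, rfl, rfl⟩, rfl⟩
      · have h1 : φ = pf p := hφ
        subst h1
        exact mem_image.2 ⟨i, mem_filter.2 ⟨mem_range.2 hi, rfl⟩, rfl⟩)
    (grp_of_mem b) (d none) G (hdd none) (fun x hx => (hcard x hx).1) (fun x hx => (hcard x hx).2)
  -- the frames
  have hvf : ∀ x ∈ klist a b C, (∃ c ∈ C, x.1 = cf c) ∨ ∃ p, x.1 = pf p := by
    intro x hx
    obtain ⟨c, hc, S, hS, h1, h2 | h2 | h2⟩ := mem_klist.1 hx
    · exact Or.inl ⟨c, hc, h2⟩
    · exact Or.inr ⟨_, h2⟩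
    · exact Or.inr ⟨_, h2⟩
  have hself : ∀ φ, ((∃ c ∈ C, φ = cf c) ∨ ∃ p, φ = pf p) → ∀ i j : ℕ, i < 8 * b → j < 8 * b →
      i ≠ j → ⟪z (φ, i), z (φ, j)⟫_ℝ = 0 := by
    intro φ hφ i j hi hj hij
    refine hz2 _ _ ⟨hi, hφ⟩ ⟨hj, hφ⟩ (fun h' => hij (congrArg Prod.snd h')) ?_
    rcases hφ with ⟨c, hc, rfl⟩ | ⟨p, rfl⟩
    · by_cases hg : (ixA b i, ixB b c.2.2 i) = (ixA b j, ixB b c.2.2 j)
      · left
        change Sum.inr (c, ixA b i, ixB b c.2.2 i) = Sum.inr (c, ixA b j, ixB b c.2.2 j)
        rw [hg]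
      · right
        exact o2 c hc _ _ _ _ hg
    · by_cases hg : ixA b i = ixA b j
      · left
        change Sum.inl (p, ixA b i) = Sum.inl (p, ixA b j)
        rw [hg]
      · right
        exact o1 p _ _ hg
  refine (thetaT_iff b (klist a b C) (klist_ne ha)).2 ⟨H₂, inferInstance, inferInstance, z₀,
    fun x => (x.2.map fun i => z (x.1, i)).sum, hz0, ?_, ?_⟩
  · intro x hx
    obtain ⟨c, hc, S, hS, h1, h2⟩ := mem_klist.1 hx
    have hφ := hvf x hx
    obtain ⟨φ, l⟩ := x
    have h1' : l = code S := h1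
    subst h1'
    have e1 : ((code S).map fun i => z (φ, i)).sum = ∑ i ∈ S, z (φ, (i : ℕ)) := by
      unfold code
      rw [List.map_map, ← Finset.sum_map_toList]
      rfl
    simp only
    rw [e1]
    have e2 : (a : ℝ) / b = (8 * a : ℕ) * (1 / ((8 * b : ℕ) : ℝ)) := by
      push_cast
      field_simp
    constructor
    · rw [inner_sum, sum_congr rfl fun (i : Fin (8 * b)) _ => (hz1 (φ, (i : ℕ)) ⟨i.2, hφ⟩).1,
        sum_const, hS, nsmul_eq_mul, e2]
    · rw [sum_inner]
      have e3 : ∀ i ∈ S, ⟪z (φ, (i : ℕ)), ∑ j ∈ S, z (φ, (j : ℕ))⟫_ℝ = 1 / ((8 * b : ℕ) : ℝ) := by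
        intro i hi
        rw [inner_sum, ← (hz1 (φ, (i : ℕ)) ⟨i.2, hφ⟩).2]
        exact sum_eq_single i (fun j _ hji => hself φ hφ i j i.2 j.2
          (fun h' => hji (Fin.ext h'.symm))) (fun h' => absurd hi h')
      rw [sum_congr rfl e3, sum_const, hS, nsmul_eq_mul, e2]
  · -- adjacent vertices
    have hbase : ∀ x ∈ klist a b C, ∀ x' ∈ klist a b C, kbase b x x' = true →
        ⟪(x.2.map fun i => z (x.1, i)).sum, (x'.2.map fun i => z (x'.1, i)).sum⟫_ℝ = 0 := by
      intro x hx x' hx' hadj
      have hφ := hvf x hx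
      have hφ' := hvf x' hx'
      obtain ⟨-, -, S, hS, h1, -⟩ := mem_klist.1 hx
      obtain ⟨-, -, S', hS', h1', -⟩ := mem_klist.1 hx'
      obtain ⟨φ, l⟩ := x
      obtain ⟨φ', l'⟩ := x'
      have h3 : l = code S := h1
      have h3' : l' = code S' := h1'
      subst h3 h3'
      have e1 : ((code S).map fun i => z (φ, i)).sum = ∑ i ∈ S, z (φ, (i : ℕ)) := by
        unfold code
        rw [List.map_map, ← Finset.sum_map_toList]
        rfl
      have e1' : ((code S').map fun i => z (φ', i)).sum = ∑ i ∈ S', z (φ', (i : ℕ)) := by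
        unfold code
        rw [List.map_map, ← Finset.sum_map_toList]
        rfl
      simp only
      rw [e1, e1', sum_inner]
      refine sum_eq_zero fun i hi => ?_
      rw [inner_sum]
      refine sum_eq_zero fun j hj => ?_
      unfold kbase at hadj
      simp only [Bool.or_eq_true, Bool.and_eq_true, decide_eq_true_eq, Bool.not_eq_true'] at hadj
      rcases hadj with ⟨h4, h5⟩ | ⟨h4, h5, h6, h7⟩
      · subst h4
        refine hself φ hφ i j i.2 j.2 fun h' => ?_
        have h8 : i = j := Fin.ext h'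
        exact disjoint_left.1 (disL_code.1 h5) hi (h8 ▸ hj)
      · rcases hφ with ⟨c, hc, rfl⟩ | ⟨p, rfl⟩
        · rcases hφ' with ⟨c', hc', rfl⟩ | ⟨p', rfl⟩
          · exact absurd h5 (by simp [cf])
          · have hjA : ixA b j = false := by
              have h8 := mem_compl.1 ((inH_code.1 h6) hj)
              unfold ixA
              rw [decide_eq_false_iff_not]
              exact fun h' => h8 (mem_filter.2 ⟨mem_univ _, h'⟩)
            refine hz2 _ _ ⟨i.2, Or.inl ⟨c, hc, rfl⟩⟩ ⟨j.2, Or.inr ⟨p', rfl⟩⟩ (fun h' => ?_) ?_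
            · have h9 := congrArg (fun y : (Bool × Cst) × ℕ => y.1.1) h'
              exact absurd h9 (by simp [cf, pf])
            · right
              rcases h7 with ⟨h8, h9⟩ | ⟨h8, h9⟩
              · have h10 : p' = c.1 := h8
                have h11 : ixA b i = true := by
                  have h12 := (mem_filter.1 ((inA_code.1 h9) hi)).2
                  unfold ixA
                  rw [decide_eq_true_eq]
                  exact h12
                change ⟪G (.inr (c, ixA b i, ixB b c.2.2 i)), G (.inl (p', ixA b j))⟫_ℝ = 0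
                rw [h10, h11, hjA]
                exact o3 c hc _
              · have h10 : p' = c.2.1 := h8
                have h11 : ixB b c.2.2 i = true := by
                  have h12 := (mem_filter.1 ((inB_code.1 h9) hi)).2
                  unfold ixB
                  simp only [Bool.and_eq_true, Bool.not_eq_true', decide_eq_false_iff_not,
                    decide_eq_true_eq]
                  exact h12
                change ⟪G (.inr (c, ixA b i, ixB b c.2.2 i)), G (.inl (p', ixA b j))⟫_ℝ = 0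
                rw [h10, h11, hjA]
                exact o4 c hc _
        · exact absurd h4 (by simp [pf])
    intro x hx x' hx' hadj
    unfold kadj at hadj
    rw [Bool.or_eq_true] at hadj
    rcases hadj with h | h
    · exact hbase x hx x' hx' h
    · have h1 := hbase x' hx' x hx h
      rw [real_inner_comm] at h1
      exact h1

/-- Satisfiability by unit vectors is a case of the theta body problem. -/
theorem kgadget_iff {a b : ℕ} (ha : 1 ≤ a) (hab : 2 * a < b) (C : List Cst)
    (hC : ∀ c ∈ C, c.2.2 ≤ 4) : kgadget a b C ∈ ThetaT ((a : ℝ) / b) ↔ GSat C :=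
  ⟨gsat_of_kgadget ha hab C hC, kgadget_of_gsat ha hab C hC⟩

end Pool.Agent.Helper78.TT
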