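import Pool.Agent.Helper78.TT.Clq

/-!
# Systems of constraints in which every name occurs at most three times
-/

set_option autoImplicit false

open scoped InnerProductSpace
open Pool.Agent.Helper91.PolyTime

namespace Pool.Agent.Helper78.TT

open Pool.Agent.Helper92.Theta

/-- The names in the constraints, in order. -/
def nms (C : List Cst) : List Nm := C.flatMap fun c => [c.1, c.2.1]

/-- The name at a position. -/
def nmAt (C : List Cst) (i : ℕ) : Nm := ((nms C)[i]?).getD (0, 0, 0)

/-- The copy of a name at a position. -/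
def cpN (i : ℕ) : Nm := (i, 0, 0)

/-- The next position with the same name. -/
def nxt (C : List Cst) (i j : ℕ) : Bool :=
  decide (i < j) && (decide (nmAt C i = nmAt C j) &&
    (List.range (nms C).length).all fun l =>
      !(decide (i < l) && (decide (l < j) && decide (nmAt C l = nmAt C i))))

/-- The constraints for the copies. -/
def cp1 (C : List Cst) : List Cst :=
  (List.range C.length).map fun k =>
    (cpN (2 * k), cpN (2 * k + 1), ((C[k]?).getD (pf (0, 0, 0)).2).2.2)

/-- The links between the copies. -/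
def cp2 (C : List Cst) : List Cst :=
  (List.range (nms C).length).flatMap fun i =>
    ((List.range (nms C).length).filter fun j => nxt C i j).map fun j => (cpN i, cpN j, 4)

/-- The system of the copies. -/
def cpC (C : List Cst) : List Cst := cp1 C ++ cp2 C

theorem nms_length (C : List Cst) : (nms C).length = 2 * C.length := by
  induction C with
  | nil => rfl
  | cons c C ih =>
    unfold nms at ih ⊢
    rw [List.flatMap_cons, List.length_append, ih, List.length_cons]
    simp
    ring

theorem nmAt_cons (c : Cst) (C : List Cst) (i : ℕ) : nmAt (c :: C) (i + 2) = nmAt C i := by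
  unfold nmAt nms
  rw [List.flatMap_cons]
  rfl

theorem nmAt_even (C : List Cst) (k : ℕ) (hk : k < C.length) : nmAt C (2 * k) = C[k].1 := by
  induction C generalizing k with
  | nil => simp at hk
  | cons c C ih =>
    rcases k with _ | k
    · rfl
    · rw [show 2 * (k + 1) = 2 * k + 2 by ring, nmAt_cons, ih k (by simpa using hk)]
      rfl

theorem nmAt_odd (C : List Cst) (k : ℕ) (hk : k < C.length) :
    nmAt C (2 * k + 1) = C[k].2.1 := by
  induction C generalizing k with
  | nil => simp at hk
  | cons c C ih =>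
    rcases k with _ | k
    · rfl
    · rw [show 2 * (k + 1) + 1 = 2 * k + 1 + 2 by ring, nmAt_cons, ih k (by simpa using hk)]
      rfl

theorem nxt_iff (C : List Cst) (i j : ℕ) : nxt C i j = true ↔ i < j ∧ nmAt C i = nmAt C j ∧
    ∀ l, l < (nms C).length → i < l → l < j → nmAt C l ≠ nmAt C i := by
  unfold nxt
  simp only [Bool.and_eq_true, decide_eq_true_iff, List.all_eq_true, List.mem_range,
    Bool.not_eq_true', ← Bool.not_eq_true]
  refine and_congr Iff.rfl (and_congr Iff.rfl ?_)
  constructor
  · intro h l h1 h2 h3 h4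
    exact h l h1 ⟨h2, h3, h4⟩
  · rintro h l h1 ⟨h2, h3, h4⟩
    exact h l h1 h2 h3 h4

theorem mem_cp1 {C : List Cst} {c : Cst} (hc : c ∈ cp1 C) : ∃ k, ∃ hk : k < C.length,
    c = (cpN (2 * k), cpN (2 * k + 1), C[k].2.2) := by
  obtain ⟨k, hk, rfl⟩ := List.mem_map.1 hc
  rw [List.mem_range] at hk
  refine ⟨k, hk, ?_⟩
  rw [List.getElem?_eq_getElem hk, Option.getD_some]

theorem mem_cp2 {C : List Cst} {c : Cst} (hc : c ∈ cp2 C) : ∃ i j, i < (nms C).length ∧
    j < (nms C).length ∧ nxt C i j = true ∧ c = (cpN i, cpN j, 4) := by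
  obtain ⟨i, hi, hc⟩ := List.mem_flatMap.1 hc
  obtain ⟨j, hj, rfl⟩ := List.mem_map.1 hc
  obtain ⟨hj, hn⟩ := List.mem_filter.1 hj
  exact ⟨i, j, List.mem_range.1 hi, List.mem_range.1 hj, hn, rfl⟩

theorem cpC_le {C : List Cst} (hC : ∀ c ∈ C, c.2.2 ≤ 4) : ∀ c ∈ cpC C, c.2.2 ≤ 4 := by
  intro c hc
  rcases List.mem_append.1 hc with hc | hc
  · obtain ⟨k, hk, rfl⟩ := mem_cp1 hc
    exact hC C[k] (List.getElem_mem hk)
  · obtain ⟨i, j, -, -, -, rfl⟩ := mem_cp2 hc
    exact le_rfl

theorem cpN_inj {i j : ℕ} (h : cpN i = cpN j) : i = j := congrArg Prod.fst h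

theorem cpC_ne (C : List Cst) : ∀ c ∈ cpC C, c.1 ≠ c.2.1 := by
  intro c hc
  rcases List.mem_append.1 hc with hc | hc
  · obtain ⟨k, hk, rfl⟩ := mem_cp1 hc
    intro h
    have := cpN_inj h
    omega
  · obtain ⟨i, j, -, -, hn, rfl⟩ := mem_cp2 hc
    intro h
    have := cpN_inj h
    have := ((nxt_iff C i j).1 hn).1
    omega

/-! ### Equivalence -/

theorem cp_eq {H : Type} [NormedAddCommGroup H] [InnerProductSpace ℝ H] {C : List Cst}
    {u : Nm → H} (hu : ∀ p, ⟪u p, u p⟫_ℝ = 1)
    (h : ∀ c ∈ cpC C, ⟪u c.1, u c.2.1⟫_ℝ = (c.2.2 : ℝ) / 2 - 1) :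
    ∀ n i j, j - i ≤ n → i < j → j < (nms C).length → nmAt C i = nmAt C j →
      u (cpN i) = u (cpN j) := by
  intro n
  induction n with
  | zero =>
    intro i j h1 h2
    omega
  | succ n ih =>
    intro i j h1 h2 h3 h4
    by_cases h5 : nxt C i j = true
    · have h6 : ((cpN i, cpN j, 4) : Cst) ∈ cpC C := by
        refine List.mem_append_right _ (List.mem_flatMap.2 ⟨i, List.mem_range.2 (by omega), ?_⟩)
        exact List.mem_map.2 ⟨j, List.mem_filter.2 ⟨List.mem_range.2 h3, h5⟩, rfl⟩
      have h7 := h _ h6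
      have h8 : ⟪u (cpN i), u (cpN j)⟫_ℝ = 1 := by
        rw [h7]
        norm_num
      have h9 : ⟪u (cpN i) - u (cpN j), u (cpN i) - u (cpN j)⟫_ℝ = 0 := by
        rw [inner_sub_left, inner_sub_right, inner_sub_right,
          real_inner_comm (u (cpN i)) (u (cpN j)), hu, hu, h8]
        norm_num
      exact sub_eq_zero.1 (inner_self_eq_zero.1 h9)
    · rw [nxt_iff] at h5
      push Not at h5
      obtain ⟨l, h6, h7, h8, h9⟩ := h5 h2 h4
      have e1 := ih i l (by omega) h7 h6 h9.symm
      have e2 := ih l j (by omega) h8 h3 (h9.trans h4)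
      exact e1.trans e2

theorem gsat_cp (C : List Cst) : GSat C ↔ GSat (cpC C) := by
  constructor
  · rintro ⟨H, _, _, u, hu, h⟩
    refine ⟨H, inferInstance, inferInstance, fun q => u (nmAt C q.1), fun q => hu _, ?_⟩
    intro c hc
    rcases List.mem_append.1 hc with hc | hc
    · obtain ⟨k, hk, rfl⟩ := mem_cp1 hc
      have h1 := h _ (List.getElem_mem hk)
      change ⟪u (nmAt C (2 * k)), u (nmAt C (2 * k + 1))⟫_ℝ = _
      rw [nmAt_even C k hk, nmAt_odd C k hk]
      exact h1
    · obtain ⟨i, j, -, -, hn, rfl⟩ := mem_cp2 hc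
      change ⟪u (nmAt C i), u (nmAt C j)⟫_ℝ = _
      rw [← ((nxt_iff C i j).1 hn).2.1, hu]
      norm_num
  · rintro ⟨H, _, _, u, hu, h⟩
    classical
    have key : ∀ i j, i < (nms C).length → j < (nms C).length → nmAt C i = nmAt C j →
        u (cpN i) = u (cpN j) := by
      intro i j hi hj hij
      rcases lt_trichotomy i j with h1 | h1 | h1
      · exact cp_eq hu h _ i j le_rfl h1 hj hij
      · rw [h1]
      · exact (cp_eq hu h _ j i le_rfl h1 hi hij.symm).symm
    set w : Nm → H := fun p =>
      if hp : ∃ i, i < (nms C).length ∧ nmAt C i = p then u (cpN hp.choose) else u p with hw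
    have hwi : ∀ i, i < (nms C).length → w (nmAt C i) = u (cpN i) := by
      intro i hi
      have hp : ∃ j, j < (nms C).length ∧ nmAt C j = nmAt C i := ⟨i, hi, rfl⟩
      simp only [hw]
      rw [dif_pos hp]
      exact key _ _ hp.choose_spec.1 hi hp.choose_spec.2
    refine ⟨H, inferInstance, inferInstance, w, ?_, ?_⟩
    · intro p
      simp only [hw]
      split_ifs
      · exact hu _
      · exact hu _
    · intro c hc
      obtain ⟨k, hk, rfl⟩ := List.getElem_of_mem hc
      have h1 : ((cpN (2 * k), cpN (2 * k + 1), C[k].2.2) : Cst) ∈ cpC C := by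
        refine List.mem_append_left _ (List.mem_map.2 ⟨k, List.mem_range.2 hk, ?_⟩)
        rw [List.getElem?_eq_getElem hk, Option.getD_some]
      have h2 := h _ h1
      have hl := nms_length C
      rw [← nmAt_even C k hk, ← nmAt_odd C k hk, hwi _ (by omega), hwi _ (by omega)]
      exact h2

/-! ### Occurrences -/

/-- The name occurs in the constraint. -/
def occ (q : Nm) (c : Cst) : Bool := decide (c.1 = q) || decide (c.2.1 = q)

theorem countP_le_one {α : Type} {p : α → Bool} {l : List α} (hl : l.Nodup)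
    (h : ∀ x ∈ l, ∀ y ∈ l, p x = true → p y = true → x = y) : l.countP p ≤ 1 := by
  rw [List.countP_eq_length_filter]
  have h1 : (l.filter p).Nodup := hl.filter p
  by_contra h2
  push Not at h2
  obtain ⟨x, y, t, ht⟩ : ∃ x y t, l.filter p = x :: y :: t := by
    match hf : l.filter p, h2 with
    | x :: y :: t, _ => exact ⟨x, y, t, rfl⟩
  have hx : x ∈ l.filter p := by rw [ht]; simp
  have hy : y ∈ l.filter p := by rw [ht]; simp
  rw [ht, List.nodup_cons] at h1
  rw [List.mem_filter] at hx hy
  exact h1.1 (by rw [h x hx.1 y hy.1 hx.2 hy.2]; simp)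

theorem cp1_count (C : List Cst) (q : Nm) : (cp1 C).countP (occ q) ≤ 1 := by
  unfold cp1
  rw [List.countP_map]
  refine countP_le_one List.nodup_range fun x _ y _ hx hy => ?_
  simp only [occ, Function.comp_apply, Bool.or_eq_true, decide_eq_true_iff, cpN] at hx hy
  rcases hx with hx | hx <;> rcases hy with hy | hy <;> rw [← hy] at hx <;>
    simp only [Prod.mk.injEq, and_true] at hx <;> omega

theorem cp2_nodup (C : List Cst) : (cp2 C).Nodup := by
  unfold cp2
  rw [List.nodup_flatMap]
  refine ⟨fun i _ => ?_, ?_⟩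
  · refine List.Nodup.map ?_ (List.nodup_range.filter _)
    intro j j' h
    have h1 : cpN j = cpN j' := congrArg (fun c : Cst => c.2.1) h
    exact cpN_inj h1
  · refine List.Pairwise.imp_of_mem ?_ (List.nodup_iff_pairwise_ne.1 List.nodup_range)
    intro i i' _ _ hne c hc hc'
    obtain ⟨j, -, rfl⟩ := List.mem_map.1 hc
    obtain ⟨j', -, h⟩ := List.mem_map.1 hc'
    have h1 : cpN i' = cpN i := congrArg Prod.fst h
    exact hne (cpN_inj h1).symm

theorem cp2_count1 (C : List Cst) (q : Nm) :
    (cp2 C).countP (fun c => decide (c.1 = q)) ≤ 1 := by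
  refine countP_le_one (cp2_nodup C) fun x hx y hy h1 h2 => ?_
  obtain ⟨i, j, hi, hj, hn, rfl⟩ := mem_cp2 hx
  obtain ⟨i', j', hi', hj', hn', rfl⟩ := mem_cp2 hy
  simp only [decide_eq_true_iff] at h1 h2
  have h3 := cpN_inj (h1.trans h2.symm)
  subst h3
  rw [nxt_iff] at hn hn'
  have h4 : j = j' := by
    rcases lt_trichotomy j j' with h | h | h
    · exact absurd hn.2.1.symm (hn'.2.2 j hj hn.1 h)
    · exact h
    · exact absurd hn'.2.1.symm (hn.2.2 j' hj' hn'.1 h)
  rw [h4]

theorem cp2_count2 (C : List Cst) (q : Nm) :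
    (cp2 C).countP (fun c => decide (c.2.1 = q)) ≤ 1 := by
  refine countP_le_one (cp2_nodup C) fun x hx y hy h1 h2 => ?_
  obtain ⟨i, j, hi, hj, hn, rfl⟩ := mem_cp2 hx
  obtain ⟨i', j', hi', hj', hn', rfl⟩ := mem_cp2 hy
  simp only [decide_eq_true_iff] at h1 h2
  have h3 := cpN_inj (h1.trans h2.symm)
  subst h3
  rw [nxt_iff] at hn hn'
  have h4 : i = i' := by
    rcases lt_trichotomy i i' with h | h | h
    · exact absurd (hn'.2.1.trans hn.2.1.symm) (hn.2.2 i' hi' h hn'.1)
    · exact h
    · exact absurd (hn.2.1.trans hn'.2.1.symm) (hn'.2.2 i hi h hn.1)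
  rw [h4]

theorem countP_or_le {α : Type} (p p' : α → Bool) (l : List α) :
    l.countP (fun x => p x || p' x) ≤ l.countP p + l.countP p' := by
  induction l with
  | nil => simp
  | cons x l ih =>
    rw [List.countP_cons, List.countP_cons, List.countP_cons]
    cases p x <;> cases p' x <;> simp <;> omega

theorem cpC_count (C : List Cst) (q : Nm) : (cpC C).countP (occ q) ≤ 3 := by
  unfold cpC
  rw [List.countP_append]
  have h1 := cp1_count C q
  have h2 := countP_or_le (fun c : Cst => decide (c.1 = q)) (fun c => decide (c.2.1 = q)) (cp2 C)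
  have h3 := cp2_count1 C q
  have h4 := cp2_count2 C q
  have h5 : (cp2 C).countP (occ q) = (cp2 C).countP (fun c => decide (c.1 = q) ||
    decide (c.2.1 = q)) := rfl
  omega

/-! ### Degrees -/

theorem countP_flatMap_le {α β : Type} (p : β → Bool) (r : α → Bool) (g : α → List β) (B : ℕ)
    (l : List α) (h : ∀ x ∈ l, ∀ y ∈ g x, p y = true → r x = true)
    (hB : ∀ x ∈ l, (g x).length ≤ B) :
    (l.flatMap g).countP p ≤ l.countP r * B := by
  induction l with
  | nil => simp
  | cons x l ih =>
    rw [List.flatMap_cons, List.countP_append, List.countP_cons]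
    have h1 := ih (fun x hx => h x (List.mem_cons_of_mem _ hx))
      (fun x hx => hB x (List.mem_cons_of_mem _ hx))
    by_cases hr : r x = true
    · rw [if_pos hr, Nat.add_mul, Nat.one_mul]
      have h2 : (g x).countP p ≤ (g x).length := List.countP_le_length
      have h3 := hB x List.mem_cons_self
      omega
    · rw [if_neg hr, Nat.add_zero]
      have h2 : (g x).countP p = 0 := by
        rw [List.countP_eq_zero]
        intro y hy hp
        exact hr (h x List.mem_cons_self y hy hp)
      omega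

theorem card_eq_countP {β : Type} (L : List β) (p : β → Bool) :
    (Finset.univ.filter fun j : Fin L.length => p L[j] = true).card = L.countP p := by
  have h1 : L = (List.finRange L.length).map fun j => L[j] := by
    apply List.ext_getElem
    · simp
    · intro i h1 h2
      simp
  conv_rhs => rw [h1]
  rw [List.countP_map, List.countP_eq_length_filter]
  have h2 : (Finset.univ : Finset (Fin L.length)).filter (fun j => p L[j] = true) =
      ((List.finRange L.length).filter (p ∘ fun j => L[j])).toFinset := by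
    ext j
    simp
  rw [h2, List.toFinset_card_of_nodup ((List.nodup_finRange _).filter _)]

theorem degree_le {a b : ℕ} {C : List Cst} (hC : ∀ q, C.countP (occ q) ≤ 3)
    (v : Fin (klist a b C).length) :
    (Finset.univ.filter fun j : Fin (klist a b C).length =>
      kadj b (klist a b C)[v] (klist a b C)[j] = true).card ≤ 18 * (SL a b).length := by
  rw [card_eq_countP (klist a b C) (fun y => kadj b (klist a b C)[v] y)]
  set x := (klist a b C)[v] with hx
  unfold klist
  refine (countP_flatMap_le _ (fun c => occ x.1.2.1 c || occ x.1.2.2.1 c) _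
    (3 * (SL a b).length) C ?_ ?_).trans ?_
  · intro c _ y hy hadj
    have hy1 : y.1 = cf c ∨ y.1 = pf c.1 ∨ y.1 = pf c.2.1 := by
      obtain ⟨S, -, h⟩ := List.mem_flatMap.1 hy
      simp only [List.mem_cons, List.not_mem_nil, or_false] at h
      rcases h with rfl | rfl | rfl
      · exact Or.inl rfl
      · exact Or.inr (Or.inl rfl)
      · exact Or.inr (Or.inr rfl)
    have hy2 : c.1 = y.1.2.1 ∨ c.2.1 = y.1.2.1 := by
      rcases hy1 with h | h | h <;> rw [h]
      · exact Or.inl rfl
      · exact Or.inl rfl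
      · exact Or.inr rfl
    simp only [occ, Bool.or_eq_true, decide_eq_true_iff]
    unfold kadj kbase at hadj
    simp only [Bool.or_eq_true, Bool.and_eq_true, decide_eq_true_iff, Bool.not_eq_true'] at hadj
    rcases hadj with (h | h) | (h | h)
    · left
      rw [h.1]
      exact hy2
    · rcases h.2.2.2 with h1 | h1
      · left
        rw [← h1.1]
        exact hy2
      · right
        rw [← h1.1]
        exact hy2
    · left
      rw [← h.1]
      exact hy2
    · left
      have h3 : y.1 = cf c := by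
        rcases hy1 with h4 | h4 | h4
        · exact h4
        · rw [h4] at h
          exact absurd h.1 (by simp [pf])
        · rw [h4] at h
          exact absurd h.1 (by simp [pf])
      rcases h.2.2.2 with h1 | h1
      · left
        rw [h1.1, h3]
        rfl
      · right
        rw [h1.1, h3]
        rfl
  · intro c _
    rw [List.length_flatMap]
    simp
    omega
  · have h1 := countP_or_le (occ x.1.2.1) (occ x.1.2.2.1) C
    have h2 := hC x.1.2.1
    have h3 := hC x.1.2.2.1
    have h4 : C.countP (fun c => occ x.1.2.1 c || occ x.1.2.2.1 c) ≤ 6 := by omega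
    calc C.countP (fun c => occ x.1.2.1 c || occ x.1.2.2.1 c) * (3 * (SL a b).length) ≤
        6 * (3 * (SL a b).length) := Nat.mul_le_mul_right _ h4
      _ = 18 * (SL a b).length := by ring

/-- The degrees in the graph. -/
theorem graph_degree_le {a b : ℕ} {C : List Cst} (hC : ∀ q, C.countP (occ q) ≤ 3)
    (v : Fin (klist a b C).length) :
    ((graphOf (klist a b C).length (kedges b (klist a b C))).neighborSet v).ncard ≤
      18 * (SL a b).length := by
  refine le_trans ?_ (degree_le hC v)
  rw [← Set.ncard_coe_finset]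
  refine Set.ncard_le_ncard ?_ (Finset.finite_toSet _)
  intro j hj
  rw [Finset.mem_coe, Finset.mem_filter]
  refine ⟨Finset.mem_univ _, ?_⟩
  obtain ⟨-, h | h⟩ := hj
  · exact (mem_kedges b (klist a b C) v j).1 h
  · exact kadj_symm ((mem_kedges b (klist a b C) j v).1 h)

/-! ### Polynomial time -/

section ptf

variable {α : Type} [PEnc α]

theorem ptf_nms {C : α → List Cst} (hC : PTF C) : PTF (fun x => nms (C x)) := by
  unfold nms
  exact PTF.flatMap (f := fun _ c => [c.1, c.2.1]) hC
    (PTF.cons PTF.id.snd.fst (PTF.cons PTF.id.snd.snd.fst (PTF.const [])))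

theorem ptf_nmAt {C : α → List Cst} {i : α → ℕ} (hC : PTF C) (hi : PTF i) :
    PTF (fun x => nmAt (C x) (i x)) :=
  ptf_getD (PTF.getElem? hi (ptf_nms hC)) (PTF.const _)

theorem ptf_cpN {i : α → ℕ} (hi : PTF i) : PTF (fun x => cpN (i x)) :=
  PTF.pair hi (PTF.const _)

theorem ptf_nxt {C : α → List Cst} {i j : α → ℕ} (hC : PTF C) (hi : PTF i) (hj : PTF j) :
    PTF (fun x => nxt (C x) (i x) (j x)) := by
  unfold nxt
  refine PTF.and (PTF.lt hi hj) (PTF.and (PTF.eq (ptf_nmAt hC hi) (ptf_nmAt hC hj)) ?_)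
  refine PTF.all (f := fun x l => !(decide (i x < l) && (decide (l < j x) &&
    decide (nmAt (C x) l = nmAt (C x) (i x))))) (PTF.range (PTF.length (ptf_nms hC))) ?_
  have hC' : PTF (fun p : α × ℕ => C p.1) := hC.comp PTF.id.fst
  have hi' : PTF (fun p : α × ℕ => i p.1) := hi.comp PTF.id.fst
  have hj' : PTF (fun p : α × ℕ => j p.1) := hj.comp PTF.id.fst
  exact PTF.not (PTF.and (PTF.lt hi' PTF.id.snd) (PTF.and (PTF.lt PTF.id.snd hj')
    (PTF.eq (ptf_nmAt hC' PTF.id.snd) (ptf_nmAt hC' hi'))))

theorem ptf_cpC {C : α → List Cst} (hC : PTF C) : PTF (fun x => cpC (C x)) := by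
  refine PTF.append ?_ ?_
  · refine PTF.map (f := fun x k => (cpN (2 * k), cpN (2 * k + 1),
      (((C x)[k]?).getD (pf (0, 0, 0)).2).2.2)) (PTF.range (PTF.length hC)) ?_
    have h2 : PTF (fun p : α × ℕ => 2 * p.2) := PTF.mul (PTF.const 2) PTF.id.snd
    exact PTF.pair (ptf_cpN h2) (PTF.pair (ptf_cpN (PTF.succ h2))
      (ptf_getD (PTF.getElem? PTF.id.snd (hC.comp PTF.id.fst)) (PTF.const _)).snd.snd)
  · have hr : PTF (fun x => List.range (nms (C x)).length) :=
      PTF.range (PTF.length (ptf_nms hC))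
    refine PTF.flatMap (f := fun x i => ((List.range (nms (C x)).length).filter fun j =>
      nxt (C x) i j).map fun j => (cpN i, cpN j, 4)) hr ?_
    refine PTF.map (f := fun (p : α × ℕ) j => (cpN p.2, cpN j, 4)) ?_ ?_
    · refine PTF.filter (f := fun (p : α × ℕ) j => nxt (C p.1) p.2 j) (hr.comp PTF.id.fst) ?_
      exact ptf_nxt (hC.comp PTF.id.fst.fst) PTF.id.fst.snd PTF.id.snd
    · exact PTF.pair (ptf_cpN PTF.id.fst.snd) (PTF.pair (ptf_cpN PTF.id.snd) (PTF.const _))

end ptf

/-! ### The reduction to graphs of bounded degree -/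

/-- The reduction. -/
noncomputable def redB (a b : ℕ) (I : SDP) : ℕ × List (ℕ × ℕ) :=
  kgadget a b (cpC (linC (KE (redE I)) (redE I)))

theorem ptf_redB (a b : ℕ) : PTF (redB a b) := by
  have h1 : PTF (fun I : SDP => NS I) := by
    unfold NS
    exact ptf_NB (PTF.mul PTF.id.fst PTF.id.fst) (PTF.add (PTF.mul (PTF.const 9)
      (PTF.codeLength PTF.id)) (PTF.const 5))
  have h2 : PTF (fun I : SDP => redE I) := ptf_sdpE h1 PTF.id
  have h3 : PTF (fun I : SDP => KE (redE I)) :=
    PTF.add (PTF.mul (PTF.const 4) (PTF.codeLength h2)) (PTF.const 1)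
  exact ptf_kgadget a b (ptf_cpC (ptf_linC h3 h2))

theorem redB_iff {a b : ℕ} (ha : 1 ≤ a) (hab : 2 * a < b) (I : SDP) :
    I ∈ SDPFeas ↔ redB a b I ∈ ThetaT ((a : ℝ) / b) := by
  have hC := linC_le (KE (redE I)) (redE I)
  rw [red_iff I]
  exact ((gadget_iff _ hC).trans (gsat_cp _)).trans (kgadget_iff ha hab _ (cpC_le hC)).symm

theorem redB_clique {a b : ℕ} (I : SDP) (s : Finset (Fin (redB a b I).1))
    (hs : (graphOf (redB a b I).1 (redB a b I).2).IsClique s) : a * s.card ≤ b :=
  clique_le (cpC_le (linC_le _ _)) (cpC_ne _) s hs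

theorem redB_degree {a b : ℕ} (I : SDP) (v : Fin (redB a b I).1) :
    ((graphOf (redB a b I).1 (redB a b I).2).neighborSet v).ncard ≤ 18 * (SL a b).length :=
  graph_degree_le (fun q => cpC_count _ q) v

end Pool.Agent.Helper78.TT
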