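import Pool.Agent.Helper78.TT.Har

/-!
# Decomposition of vector-valued functions on the sets of size `R`

Every function on the sets of size `R` with values in a vector space is a sum of eigenfunctions
of the disjointness operator.
-/

set_option autoImplicit false

open Finset
open scoped InnerProductSpace

namespace Pool.Agent.Helper78.TT

variable {ι : Type} [Fintype ι] [DecidableEq ι] {H : Type} [NormedAddCommGroup H]
  [InnerProductSpace ℝ H]

/-- The `j`-th space. -/
def U (ι : Type) [DecidableEq ι] (H : Type) [NormedAddCommGroup H] [InnerProductSpace ℝ H]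
    (j : ℕ) : Submodule ℝ (Finset ι → H) :=
  Submodule.span ℝ {X | ∃ (P : List (ι × ι)) (v : H), (fl P).Nodup ∧ P.length = j ∧
    X = fun S => hp P S • v}

/-- The disjointness operator. -/
def adj (R : ℕ) (X : Finset ι → H) (T : Finset ι) : H := ∑ S ∈ powersetCard R Tᶜ, X S

/-- The eigenvalues. -/
def ev (N R j : ℕ) : ℝ := (-1) ^ j * ((N - R - j).choose (R - j) : ℕ)

theorem eig {R j : ℕ} (hj : j ≤ R) {X : Finset ι → H} (hX : X ∈ U ι H j) {T : Finset ι}
    (hT : T.card = R) : adj R X T = ev (Fintype.card ι) R j • X T := by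
  induction hX using Submodule.span_induction with
  | mem X hX =>
    obtain ⟨P, v, h1, h2, rfl⟩ := hX
    unfold adj
    rw [← sum_smul, sum_hp P Tᶜ R h1 (by omega), hp_compl, card_compl, hT, h2, smul_smul]
    congr 1
    unfold ev
    ring
  | zero => simp [adj]
  | add X Y _ _ hX hY =>
    have h : adj R (X + Y) T = adj R X T + adj R Y T := by
      unfold adj
      rw [← sum_add_distrib]
      rfl
    rw [h, hX, hY, Pi.add_apply, smul_add]
  | smul c X _ hX =>
    have h : adj R (c • X) T = c • adj R X T := by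
      unfold adj
      rw [smul_sum]
      rfl
    rw [h, hX, Pi.smul_apply, smul_comm]

/-- The sum of the inner products over the sets of size `R`. -/
def bf (R : ℕ) (X Y : Finset ι → H) : ℝ := ∑ T ∈ powersetCard R univ, ⟪X T, Y T⟫_ℝ

theorem bf_adj (R : ℕ) (X Y : Finset ι → H) : bf R (adj R X) Y = bf R X (adj R Y) := by
  unfold bf adj
  simp only [sum_inner, inner_sum]
  refine sum_comm' fun T S => ?_
  simp only [mem_powersetCard, subset_univ, true_and, subset_compl_iff_disjoint_right]
  constructor
  · rintro ⟨h1, h2, h3⟩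
    exact ⟨⟨h2.symm, h1⟩, h3⟩
  · rintro ⟨⟨h1, h2⟩, h3⟩
    exact ⟨h2, h1.symm, h3⟩

theorem bf_orth {R i j : ℕ} (hi : i ≤ R) (hj : j ≤ R)
    (hne : ev (Fintype.card ι) R i ≠ ev (Fintype.card ι) R j) {X Y : Finset ι → H}
    (hX : X ∈ U ι H i) (hY : Y ∈ U ι H j) : bf R X Y = 0 := by
  have h1 : bf R (adj R X) Y = ev (Fintype.card ι) R i * bf R X Y := by
    unfold bf
    rw [mul_sum]
    refine sum_congr rfl fun T hT => ?_
    rw [eig hi hX (mem_powersetCard.1 hT).2, real_inner_smul_left]
  have h2 : bf R X (adj R Y) = ev (Fintype.card ι) R j * bf R X Y := by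
    unfold bf
    rw [mul_sum]
    refine sum_congr rfl fun T hT => ?_
    rw [eig hj hY (mem_powersetCard.1 hT).2, real_inner_smul_right]
  rw [bf_adj, h2] at h1
  have h3 : (ev (Fintype.card ι) R i - ev (Fintype.card ι) R j) * bf R X Y = 0 := by
    rw [sub_mul, ← h1, sub_self]
  exact (mul_eq_zero.1 h3).resolve_left (sub_ne_zero.2 hne)

/-- The function is a sum of functions of the spaces `U`, on the sets of size `R`. -/
def Dec (R : ℕ) (X : Finset ι → H) : Prop :=
  ∃ Y : ℕ → Finset ι → H, (∀ j, Y j ∈ U ι H j) ∧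
    ∀ S, S.card = R → X S = ∑ j ∈ range (R + 1), Y j S

theorem Dec.add {R : ℕ} {X X' : Finset ι → H} (h : Dec R X) (h' : Dec R X') :
    Dec R (X + X') := by
  obtain ⟨Y, h1, h2⟩ := h
  obtain ⟨Y', h1', h2'⟩ := h'
  refine ⟨fun j => Y j + Y' j, fun j => add_mem (h1 j) (h1' j), fun S hS => ?_⟩
  rw [Pi.add_apply, h2 S hS, h2' S hS, ← sum_add_distrib]
  rfl

theorem Dec.smul {R : ℕ} {X : Finset ι → H} (c : ℝ) (h : Dec R X) : Dec R (c • X) := by
  obtain ⟨Y, h1, h2⟩ := h
  refine ⟨fun j => c • Y j, fun j => (U ι H j).smul_mem c (h1 j), fun S hS => ?_⟩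
  rw [Pi.smul_apply, h2 S hS, smul_sum]
  rfl

theorem Dec.zero (R : ℕ) : Dec R (0 : Finset ι → H) :=
  ⟨fun _ => 0, fun j => zero_mem _, fun S _ => by simp⟩

theorem Dec.sum {R : ℕ} {J : Type} (s : Finset J) {X : J → Finset ι → H}
    (h : ∀ j ∈ s, Dec R (X j)) : Dec R (∑ j ∈ s, X j) := by
  classical
  induction s using Finset.induction_on with
  | empty =>
    rw [sum_empty]
    exact Dec.zero R
  | insert a s ha ih =>
    rw [sum_insert ha]
    exact (h a (mem_insert_self a s)).add (ih fun j hj => h j (mem_insert_of_mem hj))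

theorem Dec.congr {R : ℕ} {X X' : Finset ι → H} (h : Dec R X)
    (h' : ∀ S, S.card = R → X' S = X S) : Dec R X' := by
  obtain ⟨Y, h1, h2⟩ := h
  exact ⟨Y, h1, fun S hS => (h' S hS).trans (h2 S hS)⟩

theorem dec_of_mem {R j : ℕ} (hj : j ≤ R) {X : Finset ι → H} (h : X ∈ U ι H j) : Dec R X := by
  refine ⟨fun i => if i = j then X else 0, fun i => ?_, fun S _ => ?_⟩
  · by_cases hi : i = j
    · subst hi
      simpa using h
    · simp [hi]
  · rw [sum_eq_single j]
    · simp
    · intro i _ hi
      simp [hi]
    · intro h'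
      exact absurd (mem_range.2 (by omega)) h'

/-- Products of differences times monomials. -/
theorem dec_mono {R : ℕ} (v : H) : ∀ (n : ℕ) (P : List (ι × ι)) (C : List ι), C.length = n →
    (fl P ++ C).Nodup → P.length + C.length ≤ R → Dec R (fun S => (hp P S * mo C S) • v) := by
  intro n
  induction n with
  | zero =>
    intro P C hC hL hR
    obtain rfl := List.length_eq_zero_iff.1 hC
    rw [List.append_nil] at hL
    refine dec_of_mem (j := P.length) (by omega) (Submodule.subset_span ⟨P, v, hL, rfl, ?_⟩)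
    funext S
    rw [mo_nil, mul_one]
  | succ n ih =>
    intro P C hC hL hR
    obtain ⟨c, C, rfl⟩ : ∃ c C', C = c :: C' := by
      cases C with
      | nil => simp at hC
      | cons c C => exact ⟨c, C, rfl⟩
    rw [List.length_cons] at hC hR
    have hC' : C.length = n := by omega
    -- the functions with one more pair
    have h1 : ∀ d ∈ (fl P ++ c :: C).toFinsetᶜ,
        Dec R (fun S => (hp ((c, d) :: P) S * mo C S) • v) := by
      intro d hd
      refine ih ((c, d) :: P) C hC' ?_ (by rw [List.length_cons]; omega)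
      have hd' : d ∉ fl P ++ c :: C := by
        rw [mem_compl, List.mem_toFinset] at hd
        exact hd
      have h3 : (fl ((c, d) :: P) ++ C).Perm (d :: (fl P ++ c :: C)) := by
        rw [fl_cons]
        simp only [List.cons_append]
        refine (List.Perm.swap d c _).trans ?_
        refine List.Perm.cons d ?_
        exact List.perm_middle.symm
      exact h3.nodup_iff.2 (List.nodup_cons.2 ⟨hd', hL⟩)
    have h2 : Dec R (fun S => (hp P S * mo C S) • v) := by
      refine ih P C hC' ?_ (by omega)
      have h3 : (fl P ++ c :: C).Perm (c :: (fl P ++ C)) := List.perm_middle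
      exact (List.nodup_cons.1 (h3.nodup_iff.1 hL)).2
    have h4 := ((Dec.sum _ h1).add (h2.smul ((R : ℝ) - P.length - C.length))).smul
      (((((fl P ++ c :: C).toFinsetᶜ).card : ℝ) + 1)⁻¹)
    refine h4.congr fun S hS => ?_
    have h5 := step_id hL hS
    have h6 : ((((fl P ++ c :: C).toFinsetᶜ).card : ℝ) + 1) ≠ 0 := by positivity
    simp only [Pi.smul_apply, Pi.add_apply, Finset.sum_apply]
    rw [← sum_smul, smul_smul, ← add_smul, smul_smul, ← h5, ← mul_assoc, inv_mul_cancel₀ h6,
      one_mul]

theorem mo_toList (T S : Finset ι) (h : S.card = T.card) :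
    mo T.toList S = if S = T then 1 else 0 := by
  by_cases hST : S = T
  · subst hST
    rw [if_pos rfl]
    unfold mo
    refine List.prod_eq_one fun x hx => ?_
    obtain ⟨c, hc, rfl⟩ := List.mem_map.1 hx
    exact if_pos (Finset.mem_toList.1 hc)
  · rw [if_neg hST]
    have h1 : ∃ c ∈ T, c ∉ S := by
      by_contra hcon
      push Not at hcon
      exact hST (Finset.eq_of_subset_of_card_le hcon h.le).symm
    obtain ⟨c, hc, hcS⟩ := h1
    unfold mo
    refine List.prod_eq_zero (List.mem_map.2 ⟨c, Finset.mem_toList.2 hc, ?_⟩)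
    exact if_neg hcS

/-- Every function can be decomposed. -/
theorem dec_all (R : ℕ) (X : Finset ι → H) : Dec R X := by
  have h1 : ∀ T ∈ powersetCard R (univ : Finset ι),
      Dec R (fun S => (hp [] S * mo T.toList S) • X T) := by
    intro T hT
    refine dec_mono (X T) _ [] T.toList rfl ?_ ?_
    · simpa [fl] using T.nodup_toList
    · rw [List.length_nil, zero_add, Finset.length_toList, (mem_powersetCard.1 hT).2]
  refine (Dec.sum _ h1).congr fun S hS => ?_
  rw [Finset.sum_apply, sum_eq_single S]
  · rw [hp_nil, mo_toList S S rfl, if_pos rfl, one_mul, one_smul]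
  · intro T hT hTS
    rw [mo_toList T S (by rw [hS, (mem_powersetCard.1 hT).2]), if_neg (Ne.symm hTS), mul_zero,
      zero_smul]
  · intro h
    exact absurd (mem_powersetCard.2 ⟨subset_univ S, hS⟩) h

end Pool.Agent.Helper78.TT
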