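import Mathlib

/-!
# Definitions for the statement of `MP_0878b7_lc.ThresholdDichotomy`
-/

open Turing
open scoped InnerProductSpace

namespace Pool.Agent.Results.MP_0878b7_lc.ThresholdDichotomy

/-! ### Computability in polynomial time -/

/-- Types whose elements are coded by strings of Booleans. -/
class Coded (α : Type) where
  /-- the code -/
  code : α → List Bool

export Coded (code)

/-- The code of a pair of strings: the symbols of the first string, each preceded by `true`, then
`false`, then the second string. -/
def pairCode (u v : List Bool) : List Bool := u.flatMap (fun a => [true, a]) ++ false :: v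

/-- A Boolean is coded by itself. -/
instance instCodedBool : Coded Bool := ⟨fun b => [b]⟩

/-- A natural number that is a size or the index of a vertex is coded in unary. (Other numbers are
represented by their binary digits, see `bval` below.) -/
instance instCodedNat : Coded ℕ := ⟨fun n => List.replicate n true⟩

/-- The code of a pair. -/
instance instCodedProd {α β : Type} [Coded α] [Coded β] : Coded (α × β) :=
  ⟨fun x => pairCode (code x.1) (code x.2)⟩

/-- The code of a list: `pairCode (code a₁) (pairCode (code a₂) (… []))`. -/
instance instCodedList {α : Type} [Coded α] : Coded (List α) :=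
  ⟨fun l => l.foldr (fun a s => pairCode (code a) s) []⟩

/-- The function `f` is computable in polynomial time by a Turing machine. -/
def PolyTime {α β : Type} [Coded α] [Coded β] (f : α → β) : Prop :=
  Nonempty (TM2ComputableInPolyTime (code : α → List Bool) (code : β → List Bool) f)

/-- Polynomial-time many-one reducibility. -/
def Reduces {α β : Type} [Coded α] [Coded β] (A : Set α) (B : Set β) : Prop :=
  ∃ f : α → β, PolyTime f ∧ ∀ x, x ∈ A ↔ f x ∈ B

/-- The problem can be decided in polynomial time. -/
def InP {α : Type} [Coded α] (A : Set α) : Prop :=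
  ∃ f : α → Bool, PolyTime f ∧ ∀ x, x ∈ A ↔ f x = true

/-! ### Numbers in binary -/

/-- The natural number with the given binary digits, least significant digit first. -/
def bval : List Bool → ℕ
  | [] => 0
  | b :: l => (bif b then 1 else 0) + 2 * bval l

/-- Integers in binary: a sign (`true` for nonnegative) and the digits of the absolute value. -/
abbrev BInt : Type := Bool × List Bool

/-- The integer with a given binary representation. -/
def ival (z : BInt) : ℤ := bif z.1 then (bval z.2 : ℤ) else - (bval z.2 : ℤ)

/-! ### The theta body -/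

/-- The theta body of a graph. The index `none` stands for the additional row `0`. -/
def TH {V : Type} (G : SimpleGraph V) : Set (V → ℝ) :=
  {x | ∃ Y : Matrix (Option V) (Option V) ℝ, Y.PosSemidef ∧ Y none none = 1 ∧
    (∀ i, Y none (some i) = x i ∧ Y (some i) (some i) = x i) ∧
    ∀ i j, G.Adj i j → Y (some i) (some j) = 0}

/-- The graph on `Fin n` whose edges are given by a list of pairs of vertices. -/
def graphOf (n : ℕ) (E : List (ℕ × ℕ)) : SimpleGraph (Fin n) where
  Adj i j := i ≠ j ∧ (((i : ℕ), (j : ℕ)) ∈ E ∨ ((j : ℕ), (i : ℕ)) ∈ E)
  symm := ⟨fun _ _ h => ⟨h.1.symm, h.2.symm⟩⟩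
  loopless := ⟨fun _ h => h.1 rfl⟩

/-- **Constant vectors.** An instance is a number `n` of vertices with a list of edges. Question: is
the vector with all coordinates `t` in the theta body of the graph? -/
def THConst (t : ℝ) : Set (ℕ × List (ℕ × ℕ)) := {I | (fun _ => t) ∈ TH (graphOf I.1 I.2)}

/-- **Strict vector `k`-colouring.** An instance is a number `n` of vertices with a list of edges.
Question: are there real unit vectors `v i`, one for each vertex, with inner product exactly
`-1/(k-1)` for adjacent vertices? -/
def VectorColour (k : ℝ) : Set (ℕ × List (ℕ × ℕ)) :=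
  {I | ∃ (m : ℕ) (v : Fin I.1 → EuclideanSpace ℝ (Fin m)), (∀ i, ‖v i‖ = 1) ∧
    ∀ i j, (graphOf I.1 I.2).Adj i j → ⟪v i, v j⟫_ℝ = - 1 / (k - 1)}

/-- The Lovász number of a graph: the maximum of the sum of the coordinates on the theta body. -/
noncomputable def lovasz {V : Type} [Fintype V] (G : SimpleGraph V) : ℝ :=
  sSup {s | ∃ x ∈ TH G, s = ∑ i, x i}

/-- **Fixed thresholds for the Lovász number.** An instance is a number `n` of vertices with a list
of edges. Question: is the Lovász number of the graph at most `k`? -/
def LovaszLe (k : ℝ) : Set (ℕ × List (ℕ × ℕ)) := {I | lovasz (graphOf I.1 I.2) ≤ k}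

/-- The graphs in which every clique has at most `k` vertices. -/
def CliqueLe (k : ℝ) : Set (ℕ × List (ℕ × ℕ)) :=
  {I | ∀ s : Finset (Fin I.1), (graphOf I.1 I.2).IsClique s → (s.card : ℝ) ≤ k}

/-- The graphs in which every stable set has at most `k` vertices. -/
def StableLe (k : ℝ) : Set (ℕ × List (ℕ × ℕ)) :=
  {I | ∀ s : Finset (Fin I.1), (graphOf I.1 I.2).IsIndepSet s → (s.card : ℝ) ≤ k}

/-- The graphs in which every vertex is adjacent to at most `d` vertices. -/
def DegreeLe (d : ℕ) : Set (ℕ × List (ℕ × ℕ)) :=
  {I | ∀ v, {w | (graphOf I.1 I.2).Adj v w}.ncard ≤ d}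

/-- The graphs in which, for every vertex, at most `d` other vertices are not adjacent to it. -/
def CodegreeLe (d : ℕ) : Set (ℕ × List (ℕ × ℕ)) :=
  {I | ∀ v, {w | w ≠ v ∧ ¬ (graphOf I.1 I.2).Adj v w}.ncard ≤ d}

/-- The graphs with stability number `k`. -/
def StableNum (k : ℕ) : Set (ℕ × List (ℕ × ℕ)) := {I | (graphOf I.1 I.2).indepNum = k}

/-- **Tightness of the Lovász number.** An instance is a number `n` of vertices with a list of edges.
Question: is the Lovász number of the graph equal to its stability number? -/
def Tight : Set (ℕ × List (ℕ × ℕ)) :=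
  {I | lovasz (graphOf I.1 I.2) = ((graphOf I.1 I.2).indepNum : ℝ)}

/-! ### Semidefinite feasibility -/

/-- The entry of a matrix that is given as a list of rows; missing entries are zero. -/
def entry (A : List (List BInt)) (i j : ℕ) : BInt := (((A[i]?).getD [])[j]?).getD (true, [])

/-- **Exact semidefinite feasibility.** An instance consists of a number `n` and a list of pairs
`(A, b)` of an integer `n × n` matrix `A` and an integer `b`, in binary. Question: is there a
positive semidefinite real `n × n` matrix `X` with `⟨A, X⟩ = b` for all these pairs? -/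
def SDPFeas : Set (ℕ × List (List (List BInt) × BInt)) :=
  {I | ∃ X : Matrix (Fin I.1) (Fin I.1) ℝ, X.PosSemidef ∧
    ∀ a ∈ I.2, ∑ i : Fin I.1, ∑ j : Fin I.1, (ival (entry a.1 i j) : ℝ) * X i j = ival a.2}

/-- `A` and `B` are equivalent under polynomial-time many-one reductions, and the reduction from `A`
to `B` has values in `P` only. -/
def EquivalentOn {α β : Type} [Coded α] [Coded β] (A : Set α) (B P : Set β) : Prop :=
  Reduces B A ∧ ∃ f : α → β, PolyTime f ∧ ∀ x, (x ∈ A ↔ f x ∈ B) ∧ f x ∈ P

/-- The problem `B` for instances in `P` only is equivalent to `A` under polynomial-time many-one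
reductions: the reduction from `B` to `A` has to be correct for the instances in `P`, and the
reduction from `A` to `B` has values in `P` only. -/
def PromiseEquivalent {α β : Type} [Coded α] [Coded β] (A : Set α) (B P : Set β) : Prop :=
  (∃ g : β → α, PolyTime g ∧ ∀ y ∈ P, (y ∈ B ↔ g y ∈ A)) ∧
    ∃ f : α → β, PolyTime f ∧ ∀ x, (x ∈ A ↔ f x ∈ B) ∧ f x ∈ P

end Pool.Agent.Results.MP_0878b7_lc.ThresholdDichotomy
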