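import Pool.Agent.Helper78.TT.Cpl
import Pool.Agent.Helper92.Theta.Extra

/-!
# The reduction for the vector `(a/b, …, a/b)` is computable in polynomial time
-/

set_option autoImplicit false

open Pool.Agent.Helper91.PolyTime

namespace Pool.Agent.Helper78.TT

open Pool.Agent.Helper92.Theta

variable {α : Type} [PEnc α]

theorem ptf_disL {S T : α → List ℕ} (hS : PTF S) (hT : PTF T) :
    PTF (fun x => disL (S x) (T x)) := by
  unfold disL
  refine PTF.all (f := fun x i => (T x).all fun j => !decide (i = j)) hS ?_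
  exact PTF.all (f := fun (p : α × ℕ) j => !decide (p.2 = j)) (hT.comp PTF.id.fst)
    (PTF.not (PTF.eq PTF.id.fst.snd PTF.id.snd))

theorem ptf_inA (b : ℕ) {S : α → List ℕ} (hS : PTF S) : PTF (fun x => inA b (S x)) := by
  unfold inA
  exact PTF.all (f := fun (_ : α) i => decide (i < 4 * b)) hS (PTF.lt PTF.id.snd (PTF.const _))

theorem ptf_inH (b : ℕ) {S : α → List ℕ} (hS : PTF S) : PTF (fun x => inH b (S x)) := by
  unfold inH
  exact PTF.all (f := fun (_ : α) i => !decide (i < 4 * b)) hS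
    (PTF.not (PTF.lt PTF.id.snd (PTF.const _)))

theorem ptf_inB (b : ℕ) {τ : α → ℕ} {S : α → List ℕ} (hτ : PTF τ) (hS : PTF S) :
    PTF (fun x => inB b (τ x) (S x)) := by
  unfold inB
  have h : PTF (fun p : α × ℕ => p.2 + b * τ p.1) :=
    PTF.add PTF.id.snd (PTF.mul (PTF.const b) (hτ.comp PTF.id.fst))
  exact PTF.all (f := fun x i => (!decide (i + b * τ x < 4 * b)) && decide (i + b * τ x < 8 * b))
    hS (PTF.and (PTF.not (PTF.lt h (PTF.const _))) (PTF.lt h (PTF.const _)))

theorem ptf_kbase (b : ℕ) {x y : α → VK} (hx : PTF x) (hy : PTF y) :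
    PTF (fun a => kbase b (x a) (y a)) := by
  have x1 : PTF (fun a => (x a).1) := hx.fst
  have y1 : PTF (fun a => (y a).1) := hy.fst
  have x2 : PTF (fun a => (x a).2) := hx.snd
  have y2 : PTF (fun a => (y a).2) := hy.snd
  exact PTF.or (PTF.and (PTF.eq x1 y1) (ptf_disL x2 y2))
    (PTF.and (PTF.not x1.fst) (PTF.and y1.fst (PTF.and (ptf_inH b y2)
      (PTF.or (PTF.and (PTF.eq y1.snd.fst x1.snd.fst) (ptf_inA b x2))
        (PTF.and (PTF.eq y1.snd.fst x1.snd.snd.fst) (ptf_inB b x1.snd.snd.snd x2))))))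

theorem ptf_kadj (b : ℕ) {x y : α → VK} (hx : PTF x) (hy : PTF y) :
    PTF (fun a => kadj b (x a) (y a)) := PTF.or (ptf_kbase b hx hy) (ptf_kbase b hy hx)

theorem ptf_kedges (b : ℕ) {L : α → List VK} (hL : PTF L) : PTF (fun a => kedges b (L a)) := by
  unfold kedges
  have hr : PTF (fun a => List.range (L a).length) := PTF.range (PTF.length hL)
  refine PTF.flatMap (f := fun a i => ((List.range (L a).length).filter fun j =>
    kadj b (((L a)[i]?).getD (pf (0, 0, 0), []))
      (((L a)[j]?).getD (pf (0, 0, 0), []))).map fun j => (i, j)) hr ?_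
  refine PTF.map (f := fun (p : α × ℕ) j => (p.2, j)) ?_ (PTF.pair PTF.id.fst.snd PTF.id.snd)
  refine PTF.filter (f := fun (p : α × ℕ) j =>
    kadj b (((L p.1)[p.2]?).getD (pf (0, 0, 0), []))
      (((L p.1)[j]?).getD (pf (0, 0, 0), []))) (hr.comp PTF.id.fst) ?_
  have hL' : PTF (fun p : (α × ℕ) × ℕ => L p.1.1) := hL.comp PTF.id.fst.fst
  exact ptf_kadj b (ptf_getD (PTF.getElem? PTF.id.fst.snd hL') (PTF.const _))
    (ptf_getD (PTF.getElem? PTF.id.snd hL') (PTF.const _))

theorem ptf_cf {c : α → Cst} (hc : PTF c) : PTF (fun x => cf (c x)) :=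
  PTF.pair (PTF.const false) hc

theorem ptf_pf {p : α → Nm} (hp : PTF p) : PTF (fun x => pf (p x)) :=
  PTF.pair (PTF.const true) (PTF.pair hp (PTF.pair (PTF.const (0, 0, 0)) (PTF.const 0)))

theorem ptf_klist (a b : ℕ) {C : α → List Cst} (hC : PTF C) :
    PTF (fun x => klist a b (C x)) := by
  unfold klist
  refine PTF.flatMap (f := fun _ c => (SL a b).flatMap fun S =>
    [(cf c, S), (pf c.1, S), (pf c.2.1, S)]) hC ?_
  refine PTF.flatMap (f := fun (p : α × Cst) S =>
    [(cf p.2, S), (pf p.2.1, S), (pf p.2.2.1, S)]) (PTF.const _) ?_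
  have h1 : PTF (fun p : (α × Cst) × List ℕ => p.1.2) := PTF.id.fst.snd
  have h2 : PTF (fun p : (α × Cst) × List ℕ => p.2) := PTF.id.snd
  exact PTF.cons (PTF.pair (ptf_cf h1) h2) (PTF.cons (PTF.pair (ptf_pf h1.fst) h2)
    (PTF.cons (PTF.pair (ptf_pf h1.snd.fst) h2) (PTF.const [])))

theorem ptf_kgadget (a b : ℕ) {C : α → List Cst} (hC : PTF C) :
    PTF (fun x => kgadget a b (C x)) :=
  PTF.pair (PTF.length (ptf_klist a b hC)) (ptf_kedges b (ptf_klist a b hC))

/-! ### The reduction -/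

/-- The reduction from semidefinite feasibility to the problem of the vector `(a/b, …, a/b)`. -/
noncomputable def redT (a b : ℕ) (I : SDP) : ℕ × List (ℕ × ℕ) :=
  kgadget a b (linC (KE (redE I)) (redE I))

theorem ptf_redT (a b : ℕ) : PTF (redT a b) := by
  have h1 : PTF (fun I : SDP => NS I) := by
    unfold NS
    exact ptf_NB (PTF.mul PTF.id.fst PTF.id.fst) (PTF.add (PTF.mul (PTF.const 9)
      (PTF.codeLength PTF.id)) (PTF.const 5))
  have h2 : PTF (fun I : SDP => redE I) := ptf_sdpE h1 PTF.id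
  have h3 : PTF (fun I : SDP => KE (redE I)) :=
    PTF.add (PTF.mul (PTF.const 4) (PTF.codeLength h2)) (PTF.const 1)
  exact ptf_kgadget a b (ptf_linC h3 h2)

theorem linC_le (K : ℕ) (E : List (List Tm)) : ∀ c ∈ linC K E, c.2.2 ≤ 4 := by
  intro c hc
  rcases List.mem_append.1 hc with hc | hc
  · have : ∀ c ∈ baseC, c.2.2 ≤ 4 := by
      simp only [baseC, List.forall_mem_cons]
      simp
    exact this c hc
  · obtain ⟨k, -, hc⟩ := List.mem_flatMap.1 hc
    rw [eqC, List.mem_cons, List.mem_cons, List.mem_flatMap] at hc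
    rcases hc with rfl | rfl | ⟨m, -, hc⟩
    · simp
    · simp
    · rcases List.mem_append.1 hc with hc | hc
      · have : ∀ c ∈ termC K k m ((((E[k]?).getD [])[m]?).getD tm0),
            c.2.2 ≤ 4 := by
          simp only [termC, List.forall_mem_cons]
          refine ⟨?_, ?_, ?_, ?_, ?_, ?_, ?_, ?_, ?_, ?_, ?_, ?_, ?_, ?_, ?_, ?_, ?_, ?_, ?_,
            ?_, ?_, ?_, ?_, ?_, ?_, ?_, ?_, ?_, ?_, ?_, ?_, ?_, ?_, ?_, ?_, ?_⟩
          all_goals try simp
          rename_i h
          cases ((((E[k]?).getD [])[m]?).getD tm0).1 <;> simp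
        exact this c hc
      · obtain ⟨i, -, hc⟩ := List.mem_flatMap.1 hc
        have : ∀ x y i, ∀ c ∈ chainC x y i, c.2.2 ≤ 4 := by
          intro x y i
          simp [chainC]
        exact this _ _ _ c hc

theorem redT_iff {a b : ℕ} (ha : 1 ≤ a) (hab : 2 * a < b) (I : SDP) :
    I ∈ SDPFeas ↔ redT a b I ∈ ThetaT ((a : ℝ) / b) := by
  have hC := linC_le (KE (redE I)) (redE I)
  rw [red_iff I]
  exact (gadget_iff _ hC).trans (kgadget_iff ha hab _ hC).symm

end Pool.Agent.Helper78.TT
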