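import Pool.Agent.Helper78.TT.Cpy
import Pool.Agent.Helper78.TT.Cpt

/-!
# Graphs with a given stability number
-/

set_option autoImplicit false

open scoped InnerProductSpace
open Pool.Agent.Helper91.PolyTime

namespace Pool.Agent.Helper78.TT

open Pool.Agent.Helper92.Theta

/-- A constraint that always holds. -/
def triv : Cst := ((0, 0, 0), (0, 0, 0), 4)

/-- Add the trivial constraint. -/
@[irreducible]
def trC (C : List Cst) : List Cst := triv :: C

theorem trC_eq (C : List Cst) : trC C = triv :: C := by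
  unfold trC
  rfl

theorem gsat_triv (C : List Cst) : GSat C ↔ GSat (trC C) := by
  rw [trC_eq]
  constructor
  · rintro ⟨H, _, _, u, hu, h⟩
    refine ⟨H, inferInstance, inferInstance, u, hu, fun c hc => ?_⟩
    rcases List.mem_cons.1 hc with rfl | hc
    · change ⟪u (0, 0, 0), u (0, 0, 0)⟫_ℝ = ((4 : ℕ) : ℝ) / 2 - 1
      rw [hu]
      norm_num
    · exact h c hc
  · rintro ⟨H, _, _, u, hu, h⟩
    exact ⟨H, inferInstance, inferInstance, u, hu, fun c hc => h c (List.mem_cons_of_mem _ hc)⟩

/-! ### A large clique -/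

/-- The sets `{8 i, …, 8 i + 7}`. -/
def blk (b : ℕ) (i : Fin b) : Finset (Fin (8 * b)) :=
  (Finset.univ : Finset (Fin 8)).image fun j : Fin 8 => ⟨8 * i + j, by omega⟩

theorem blk_card (b : ℕ) (i : Fin b) : (blk b i).card = 8 * 1 := by
  unfold blk
  rw [Finset.card_image_of_injective _ (fun j j' h => by
    have h1 : 8 * (i : ℕ) + j = 8 * i + j' := congrArg Fin.val h
    exact Fin.ext (by omega)), Finset.card_univ, Fintype.card_fin]

theorem blk_disj {b : ℕ} {i i' : Fin b} (h : i ≠ i') : Disjoint (blk b i) (blk b i') := by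
  rw [Finset.disjoint_left]
  intro x hx hx'
  obtain ⟨j, -, rfl⟩ := Finset.mem_image.1 hx
  obtain ⟨j', -, h'⟩ := Finset.mem_image.1 hx'
  have h1 : 8 * (i' : ℕ) + j' = 8 * i + j := congrArg Fin.val h'
  exact h (Fin.ext (by omega))

theorem exists_clique {b : ℕ} {C : List Cst} (hC : C ≠ []) :
    ∃ s : Finset (Fin (klist 1 b C).length),
      (graphOf (klist 1 b C).length (kedges b (klist 1 b C))).IsClique s ∧ s.card = b := by
  classical
  obtain ⟨c, C', rfl⟩ := List.exists_cons_of_ne_nil hC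
  have h1 : ∀ i : Fin b, ((cf c, code (blk b i)) : VK) ∈ klist 1 b (c :: C') := fun i =>
    mem_klist.2 ⟨c, List.mem_cons_self, blk b i, blk_card b i, rfl, Or.inl rfl⟩
  have h2 : ∀ i : Fin b, ∃ v : Fin (klist 1 b (c :: C')).length,
      (klist 1 b (c :: C'))[v] = (cf c, code (blk b i)) := fun i => by
    obtain ⟨n, hn, h⟩ := List.getElem_of_mem (h1 i)
    exact ⟨⟨n, hn⟩, h⟩
  choose v hv using h2
  have hadj : ∀ i i' : Fin b, i ≠ i' →
      kadj b (klist 1 b (c :: C'))[v i] (klist 1 b (c :: C'))[v i'] = true := by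
    intro i i' h
    rw [hv, hv]
    have h3 : disL (code (blk b i)) (code (blk b i')) = true := disL_code.2 (blk_disj h)
    unfold kadj kbase
    simp [h3]
  have hinj : Function.Injective v := by
    intro i i' h
    by_contra hne
    have h3 := hadj i i' hne
    have h4 : (klist 1 b (c :: C'))[v i] = (klist 1 b (c :: C'))[v i'] :=
      congrArg (fun w : Fin (klist 1 b (c :: C')).length => (klist 1 b (c :: C'))[w]) h
    rw [h4] at h3
    have h5 := kadj_irrefl (b := b) (klist_ne le_rfl _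
      (List.getElem_mem (l := klist 1 b (c :: C')) (v i').2))
    exact Bool.false_ne_true (h5.symm.trans h3)
  refine ⟨Finset.univ.image v, ?_, ?_⟩
  · intro x hx y hy hxy
    obtain ⟨i, -, rfl⟩ := Finset.mem_image.1 (Finset.mem_coe.1 hx)
    obtain ⟨i', -, rfl⟩ := Finset.mem_image.1 (Finset.mem_coe.1 hy)
    have hne : i ≠ i' := fun h => hxy (by rw [h])
    exact ⟨hxy, Or.inl ((mem_kedges b _ _ _).2 (hadj i i' hne))⟩
  · rw [Finset.card_image_of_injective _ hinj, Finset.card_univ, Fintype.card_fin]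

/-! ### The Lovász number and the stability number -/

theorem indep_le_lov {n : ℕ} (G : SimpleGraph (Fin n)) : (G.indepNum : ℝ) ≤ lov G := by
  classical
  obtain ⟨s, hs⟩ := G.exists_isNIndepSet_indepNum
  have h1 : (fun i => if i ∈ s then (1 : ℝ) else 0) ∈ TH G := by
    rw [th_iff]
    refine ⟨ℝ, inferInstance, inferInstance, 1, fun i => if i ∈ s then 1 else 0, ?_, ?_, ?_⟩
    · simp
    · intro i
      by_cases h : i ∈ s <;> simp [h]
    · intro i j hij
      by_cases hi : i ∈ s
      · by_cases hj : j ∈ s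
        · exact absurd hij (hs.isIndepSet hi hj hij.ne)
        · simp [hj]
      · simp [hi]
  refine le_trans (le_of_eq ?_) (le_lov G h1)
  rw [← hs.card_eq]
  simp

/-! ### The reduction -/

/-- The reduction. -/
noncomputable def redA (a b : ℕ) (I : SDP) : ℕ × List (ℕ × ℕ) :=
  kgadget a b (cpC (trC (linC (KE (redE I)) (redE I))))

theorem ptf_redA (a b : ℕ) : PTF (redA a b) := by
  have h1 : PTF (fun I : SDP => NS I) := by
    unfold NS
    exact ptf_NB (PTF.mul PTF.id.fst PTF.id.fst) (PTF.add (PTF.mul (PTF.const 9)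
      (PTF.codeLength PTF.id)) (PTF.const 5))
  have h2 : PTF (fun I : SDP => redE I) := ptf_sdpE h1 PTF.id
  have h3 : PTF (fun I : SDP => KE (redE I)) :=
    PTF.add (PTF.mul (PTF.const 4) (PTF.codeLength h2)) (PTF.const 1)
  refine ptf_kgadget a b (ptf_cpC ?_)
  simp only [trC_eq]
  exact PTF.cons (PTF.const triv) (ptf_linC h3 h2)

theorem triv_le {C : List Cst} (hC : ∀ c ∈ C, c.2.2 ≤ 4) : ∀ c ∈ trC C, c.2.2 ≤ 4 := by
  intro c hc
  rw [trC_eq] at hc
  rcases List.mem_cons.1 hc with rfl | hc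
  · exact le_rfl
  · exact hC c hc

theorem redA_iff {a b : ℕ} (ha : 1 ≤ a) (hab : 2 * a < b) (I : SDP) :
    I ∈ SDPFeas ↔ redA a b I ∈ ThetaT ((a : ℝ) / b) := by
  have hC := linC_le (KE (redE I)) (redE I)
  rw [red_iff I]
  exact ((gadget_iff _ hC).trans ((gsat_triv _).trans (gsat_cp _))).trans
    (kgadget_iff ha hab _ (cpC_le (triv_le hC))).symm

theorem redA_clique {a b : ℕ} (I : SDP) (s : Finset (Fin (redA a b I).1))
    (hs : (graphOf (redA a b I).1 (redA a b I).2).IsClique s) : a * s.card ≤ b :=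
  clique_le (cpC_le (triv_le (linC_le _ _))) (cpC_ne _) s hs

theorem redA_degree {a b : ℕ} (I : SDP) (v : Fin (redA a b I).1) :
    ((graphOf (redA a b I).1 (redA a b I).2).neighborSet v).ncard ≤ 18 * (SL a b).length :=
  graph_degree_le (fun q => cpC_count _ q) v

theorem redA_exists (b : ℕ) (I : SDP) : ∃ s : Finset (Fin (redA 1 b I).1),
    (graphOf (redA 1 b I).1 (redA 1 b I).2).IsClique s ∧ s.card = b := by
  refine exists_clique ?_
  unfold cpC cp1
  rw [trC_eq, List.length_cons, List.range_succ_eq_map]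
  exact List.cons_ne_nil _ _

theorem redA_cliqueNum (b : ℕ) (I : SDP) :
    (graphOf (redA 1 b I).1 (redA 1 b I).2).cliqueNum = b := by
  obtain ⟨s, hs, hs'⟩ := redA_exists b I
  obtain ⟨t, ht⟩ := (graphOf (redA 1 b I).1 (redA 1 b I).2).exists_isNClique_cliqueNum
  have h1 := redA_clique I t ht.isClique
  rw [ht.card_eq, one_mul] at h1
  have h2 := hs.card_le_cliqueNum
  omega

theorem compl_indepNum (b : ℕ) (I : SDP) :
    (graphOf (complI (redA 1 b I)).1 (complI (redA 1 b I)).2).indepNum = b := by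
  change (graphOf (redA 1 b I).1 (complE (redA 1 b I).1 (redA 1 b I).2)).indepNum = b
  rw [graphOf_compl, SimpleGraph.indepNum_compl, redA_cliqueNum]

end Pool.Agent.Helper78.TT
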