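import Pool.Agent.Helper89.Comp
import Pool.Agent.Helper78.TT.PolyK
import Pool.Agent.Helper78.TT.Cpt
import Pool.Agent.Helper78.TT.Tig
import Pool.Agent.Helper78.TT.DichDefs

/-!
# Proof of `MP_0878b7_lc.ThresholdDichotomy`
-/

open Turing
open scoped InnerProductSpace

namespace Pool.Agent.Results.MP_0878b7_lc.ThresholdDichotomy

/-! ### Comparison with the definitions of the helper files -/

open Pool.Agent.Helper92 in
lemma bval_eq : bval = Theta.bval := by
  funext l
  induction l with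
  | nil => rfl
  | cons b l ih => rw [bval, Theta.bval, ih]

open Pool.Agent.Helper92 in
lemma ival_eq : ival = Theta.ival := by
  funext z
  rw [ival, Theta.ival, bval_eq]

open Pool.Agent.Helper92 in
lemma sdp_eq : SDPFeas = Theta.SDPFeas := by
  unfold SDPFeas Theta.SDPFeas Theta.Solves
  rw [ival_eq]
  rfl

open Pool.Agent.Helper78 in
lemma const_eq (t : ℝ) : THConst t = TT.ThetaT t := rfl

open Pool.Agent.Helper78 in
lemma colour_eq {k : ℝ} (hk : 1 < k) : VectorColour k = THConst (1 / k) := by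
  ext I
  exact (TT.thetaT_iff_vec hk I.1 (graphOf I.1 I.2)).symm

open Pool.Agent.Helper78 in
lemma lovasz_eq (k : ℝ) : LovaszLe k = TT.ThetaLe k := rfl

/-! ### Reductions -/

open Pool.Agent.Helper91.PolyTime in
/-- The codes agree with those of the helper files. -/
class Agree (α : Type) [Coded α] [PEnc α] : Prop where
  eq : ∀ x : α, code x = PEnc.enc x

instance : Agree Bool := ⟨fun _ => rfl⟩

instance : Agree ℕ := ⟨fun _ => rfl⟩

open Pool.Agent.Helper91.PolyTime in
instance {α β : Type} [Coded α] [PEnc α] [Agree α] [Coded β] [PEnc β] [Agree β] :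
    Agree (α × β) := ⟨fun x => by
  change pairCode (code x.1) (code x.2) = pr (PEnc.enc x.1) (PEnc.enc x.2)
  rw [Agree.eq, Agree.eq]
  rfl⟩

open Pool.Agent.Helper91.PolyTime in
instance {α : Type} [Coded α] [PEnc α] [Agree α] : Agree (List α) := ⟨fun l => by
  induction l with
  | nil => rfl
  | cons a l ih =>
    change pairCode (code a) (code l) = pr (PEnc.enc a) (PEnc.enc l)
    rw [Agree.eq a, ih]
    rfl⟩

open Pool.Agent.Helper91.PolyTime in
lemma polyTime_of_ptf {α β : Type} [Coded α] [PEnc α] [Agree α] [Coded β] [PEnc β] [Agree β]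
    {f : α → β} (hf : PTF f) : PolyTime f := by
  have h1 : (code : α → List Bool) = PEnc.enc := funext Agree.eq
  have h2 : (code : β → List Bool) = PEnc.enc := funext Agree.eq
  unfold PolyTime
  rw [h1, h2]
  refine PT.tm2 _ _ (fun b => [b]) f ?_
  have h : (fun a : α => (PEnc.enc a).flatMap (fun b => [b])) = fun a => PEnc.enc a := by
    funext a
    simp
  rw [h]
  exact hf

lemma InP.of_reduces {α β : Type} [Coded α] [Coded β] {A : Set α} {B : Set β} (h : Reduces A B)
    (hB : InP B) : InP A := by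
  obtain ⟨f, ⟨hf⟩, hfA⟩ := h
  obtain ⟨g, ⟨hg⟩, hgB⟩ := hB
  exact ⟨g ∘ f, Pool.Agent.Helper89.TM2Poly.comp hf hg, fun x => (hfA x).trans (hgB _)⟩

lemma Reduces.trans {α β γ : Type} [Coded α] [Coded β] [Coded γ] {A : Set α} {B : Set β} {C : Set γ}
    (h : Reduces A B) (h' : Reduces B C) : Reduces A C := by
  obtain ⟨f, ⟨hf⟩, hfA⟩ := h
  obtain ⟨g, ⟨hg⟩, hgB⟩ := h'
  exact ⟨g ∘ f, Pool.Agent.Helper89.TM2Poly.comp hf hg, fun x => (hfA x).trans (hgB _)⟩

open Pool.Agent.Helper91.PolyTime in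
lemma polyTime_id {α : Type} [Coded α] [PEnc α] [Agree α] : PolyTime (fun x : α => x) :=
  polyTime_of_ptf PTF.id

lemma sdp_reduces {a b : ℕ} (ha : 1 ≤ a) (hab : 2 * a < b) :
    ∃ f : ℕ × List (List (List BInt) × BInt) → ℕ × List (ℕ × ℕ), PolyTime f ∧
      ∀ x, (x ∈ SDPFeas ↔ f x ∈ THConst ((a : ℝ) / b)) ∧ f x ∈ CliqueLe ((b : ℝ) / a) ∩
        DegreeLe (18 * (Pool.Agent.Helper78.TT.SL a b).length) := by
  rw [sdp_eq, const_eq]
  refine ⟨_, polyTime_of_ptf (Pool.Agent.Helper78.TT.ptf_redB a b), fun x =>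
    ⟨Pool.Agent.Helper78.TT.redB_iff ha hab x, fun s hs => ?_, fun v =>
      Pool.Agent.Helper78.TT.redB_degree x v⟩⟩
  have h1 := Pool.Agent.Helper78.TT.redB_clique x s hs
  have h2 : (0 : ℝ) < a := by exact_mod_cast ha
  rw [le_div_iff₀ h2, mul_comm]
  exact_mod_cast h1

lemma const_reduces (q : ℚ) : Reduces (THConst (q : ℝ)) SDPFeas := by
  rw [sdp_eq, const_eq]
  obtain ⟨z, hz, hq⟩ := Pool.Agent.Helper78.TT.exists_toTH q
  exact Reduces.trans (B := Pool.Agent.Helper92.Theta.THMem)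
    ⟨_, polyTime_of_ptf (Pool.Agent.Helper78.TT.ptf_toTHz z),
      Pool.Agent.Helper78.TT.toTHz_iff z hz hq⟩
    ⟨_, polyTime_of_ptf Pool.Agent.Helper92.Theta.ptf_toSDP,
      Pool.Agent.Helper92.Theta.toSDP_iff⟩

lemma const_equiv {q : ℚ} (h0 : 0 < q) (h1 : q < 1 / 2) :
    ∃ d, EquivalentOn SDPFeas (THConst (q : ℝ)) (CliqueLe (1 / (q : ℝ)) ∩ DegreeLe d) := by
  refine ⟨18 * (Pool.Agent.Helper78.TT.SL q.num.toNat q.den).length, const_reduces q, ?_⟩
  have h2 : 0 < q.num := Rat.num_pos.2 h0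
  have h3 : (q.num.toNat : ℤ) = q.num := Int.toNat_of_nonneg h2.le
  have h4 : (q : ℝ) = (q.num.toNat : ℝ) / (q.den : ℝ) := by
    rw [Rat.cast_def, ← Int.cast_natCast q.num.toNat, h3]
  have h5 : 2 * q.num < q.den := by
    have h6 : (q.num : ℚ) / q.den < 1 / 2 := by rw [Rat.num_div_den]; exact h1
    have h7 : (0 : ℚ) < q.den := by exact_mod_cast q.pos
    rw [div_lt_div_iff₀ h7 (by norm_num), one_mul] at h6
    have h8 : ((2 * q.num : ℤ) : ℚ) < ((q.den : ℤ) : ℚ) := by
      push_cast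
      linarith
    exact_mod_cast h8
  rw [h4, one_div_div]
  exact sdp_reduces (by omega) (by omega)

lemma easy {t : ℝ} (ht : t ≤ 0 ∨ 1 / 2 ≤ t) : InP (THConst t) := by
  obtain ⟨f, hf, h⟩ := Pool.Agent.Helper78.TT.thetaT_easy ht
  exact ⟨f, polyTime_of_ptf hf, h⟩

lemma compl_clique {k : ℝ} {I : ℕ × List (ℕ × ℕ)} (h : I ∈ CliqueLe k) :
    Pool.Agent.Helper78.TT.complI I ∈ StableLe k := by
  intro s hs
  refine h s fun u hu v hv huv => ?_
  by_contra h1
  refine hs hu hv huv ?_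
  have h2 := Pool.Agent.Helper78.TT.graphOf_compl I.1 I.2
  change (Pool.Agent.Helper92.Theta.graphOf I.1
    (Pool.Agent.Helper78.TT.complE I.1 I.2)).Adj u v
  rw [h2, SimpleGraph.compl_adj]
  exact ⟨huv, h1⟩

lemma compl_degree {d : ℕ} {I : ℕ × List (ℕ × ℕ)} (h : I ∈ DegreeLe d) :
    Pool.Agent.Helper78.TT.complI I ∈ CodegreeLe d := by
  intro v
  refine le_trans (Set.ncard_le_ncard ?_ (Set.toFinite _)) (h v)
  rintro w ⟨hw, h1⟩
  by_contra h3
  refine h1 ?_
  have h2 := Pool.Agent.Helper78.TT.graphOf_compl I.1 I.2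
  change (Pool.Agent.Helper92.Theta.graphOf I.1
    (Pool.Agent.Helper78.TT.complE I.1 I.2)).Adj v w
  rw [h2]
  exact (SimpleGraph.compl_adj _ _ _).2 ⟨fun h => hw h.symm, h3⟩

lemma lovasz_equiv {k : ℝ} {d : ℕ} (hk : 0 < k)
    (h : EquivalentOn SDPFeas (THConst (1 / k)) (CliqueLe k ∩ DegreeLe d)) :
    EquivalentOn SDPFeas (LovaszLe k) (StableLe k ∩ CodegreeLe d) := by
  obtain ⟨h1, f, hf, h2⟩ := h
  refine ⟨Reduces.trans ⟨_, polyTime_of_ptf Pool.Agent.Helper78.TT.ptf_complI,
    Pool.Agent.Helper78.TT.thetaLe_iff hk⟩ h1, ?_⟩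
  have hc : PolyTime Pool.Agent.Helper78.TT.complI :=
    polyTime_of_ptf Pool.Agent.Helper78.TT.ptf_complI
  obtain ⟨hf⟩ := hf
  obtain ⟨hc⟩ := hc
  exact ⟨Pool.Agent.Helper78.TT.complI ∘ f, Pool.Agent.Helper89.TM2Poly.comp hf hc, fun x =>
    ⟨(h2 x).1.trans (Pool.Agent.Helper78.TT.thetaT_iff_le hk _), compl_clique (h2 x).2.1,
      compl_degree (h2 x).2.2⟩⟩

lemma tight_iff {k : ℕ} {I : ℕ × List (ℕ × ℕ)} (h : I ∈ StableNum k) :
    I ∈ Tight ↔ I ∈ LovaszLe (k : ℝ) := by
  have h1 := Pool.Agent.Helper78.TT.indep_le_lov (graphOf I.1 I.2)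
  have h2 : (graphOf I.1 I.2).indepNum = k := h
  change ((graphOf I.1 I.2).indepNum : ℝ) ≤ lovasz (graphOf I.1 I.2) at h1
  change lovasz (graphOf I.1 I.2) = ((graphOf I.1 I.2).indepNum : ℝ) ↔
    lovasz (graphOf I.1 I.2) ≤ (k : ℝ)
  rw [h2] at h1 ⊢
  exact ⟨fun h => h.le, fun h => le_antisymm h h1⟩

lemma tight_equiv {k : ℕ} (hk : 3 ≤ k)
    (h : Reduces (LovaszLe (k : ℝ)) SDPFeas) :
    ∃ d, PromiseEquivalent SDPFeas Tight (StableNum k ∩ CodegreeLe d) := by
  refine ⟨18 * (Pool.Agent.Helper78.TT.SL 1 k).length, ?_, ?_⟩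
  · obtain ⟨g, hg, h1⟩ := h
    exact ⟨g, hg, fun y hy => (tight_iff hy.1).trans (h1 y)⟩
  · have hf : PolyTime (Pool.Agent.Helper78.TT.redA 1 k) :=
      polyTime_of_ptf (Pool.Agent.Helper78.TT.ptf_redA 1 k)
    have hc : PolyTime Pool.Agent.Helper78.TT.complI :=
      polyTime_of_ptf Pool.Agent.Helper78.TT.ptf_complI
    obtain ⟨hf⟩ := hf
    obtain ⟨hc⟩ := hc
    refine ⟨Pool.Agent.Helper78.TT.complI ∘ Pool.Agent.Helper78.TT.redA 1 k,
      Pool.Agent.Helper89.TM2Poly.comp hf hc, fun x => ?_⟩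
    have h2 : (Pool.Agent.Helper78.TT.complI ∘ Pool.Agent.Helper78.TT.redA 1 k) x ∈ StableNum k :=
      Pool.Agent.Helper78.TT.compl_indepNum k x
    refine ⟨?_, h2, compl_degree fun v => Pool.Agent.Helper78.TT.redA_degree x v⟩
    rw [tight_iff h2, sdp_eq]
    have h3 := Pool.Agent.Helper78.TT.redA_iff (a := 1) (b := k) le_rfl (by omega) x
    have h4 : (0 : ℝ) < k := by exact_mod_cast (by omega : 0 < k)
    refine h3.trans ?_
    rw [Nat.cast_one]
    exact Pool.Agent.Helper78.TT.thetaT_iff_le h4 _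

lemma lovasz_easy {k : ℝ} (hk : k ≤ 2) : InP (LovaszLe k) := by
  obtain ⟨f, hf, h⟩ := Pool.Agent.Helper78.TT.thetaLe_easy hk
  exact ⟨f, polyTime_of_ptf hf, h⟩

/-- **The result.** (1) For every rational `t` with `0 < t < 1/2` there is a number `d` such that the
problem whether `(t, …, t)` is in the theta body of a graph is equivalent to exact semidefinite
feasibility under polynomial-time many-one reductions, even for graphs in which no clique has more
than `1/t` vertices and no vertex has more than `d` neighbours. (2) For every real number `t ≤ 0` or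
`t ≥ 1/2` it can be decided in polynomial time. (3) For every rational `k > 2` there is a number `d`
such that the problem whether the Lovász number of a graph is at most `k` (even for graphs in which
no stable set has more than `k` vertices and every vertex has at most `d` non-neighbours), and
strict vector `k`-colouring (even for graphs in which no clique has more than `k` vertices and no
vertex has more than `d` neighbours), are equivalent to exact semidefinite feasibility. (4) For real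
`k ≤ 2` (and `k > 1` for vector colouring) they can be decided in polynomial time. (5) For every
integer `k ≥ 3` there is a number `d` such that, for graphs with stability number `k` in which every
vertex has at most `d` non-neighbours, the problem whether the Lovász number is equal to the
stability number is equivalent to exact semidefinite feasibility. -/
theorem main :
    (∀ t : ℚ, 0 < t → t < 1 / 2 →
      ∃ d, EquivalentOn SDPFeas (THConst t) (CliqueLe (1 / t) ∩ DegreeLe d)) ∧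
    (∀ t : ℝ, t ≤ 0 ∨ 1 / 2 ≤ t → InP (THConst t)) ∧
    (∀ k : ℚ, 2 < k → ∃ d, EquivalentOn SDPFeas (LovaszLe k) (StableLe k ∩ CodegreeLe d) ∧
      EquivalentOn SDPFeas (VectorColour k) (CliqueLe k ∩ DegreeLe d)) ∧
    (∀ k : ℝ, k ≤ 2 → InP (LovaszLe k) ∧ (1 < k → InP (VectorColour k))) ∧
    (∀ k : ℕ, 3 ≤ k →
      ∃ d, PromiseEquivalent SDPFeas Tight (StableNum k ∩ CodegreeLe d)) := by
  have key : ∀ k : ℚ, 2 < k → ∃ d, EquivalentOn SDPFeas (LovaszLe k) (StableLe k ∩ CodegreeLe d) ∧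
      EquivalentOn SDPFeas (VectorColour k) (CliqueLe k ∩ DegreeLe d) := by
    intro k hk
    have h3 : (1 : ℝ) < (k : ℝ) := by
      have h4 : ((1 : ℚ) : ℝ) < (k : ℝ) := by exact_mod_cast (by linarith : (1 : ℚ) < k)
      simpa using h4
    rw [colour_eq h3]
    obtain ⟨d, h5⟩ := const_equiv (q := 1 / k) (by positivity) (by
      rw [one_div_lt_one_div (by linarith) (by norm_num)]
      exact hk)
    have h6 : (((1 / k : ℚ)) : ℝ) = 1 / (k : ℝ) := by push_cast; rfl
    rw [h6, one_div_one_div] at h5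
    exact ⟨d, lovasz_equiv (by linarith) h5, h5⟩
  refine ⟨fun t => const_equiv, fun t => easy, key, fun k h2 =>
    ⟨lovasz_easy h2, fun h1 => ?_⟩, fun k hk => tight_equiv hk ?_⟩
  · rw [colour_eq h1]
    refine easy (Or.inr ?_)
    rw [one_div_le_one_div (by norm_num) (by linarith)]
    exact h2
  · obtain ⟨d, h1, -⟩ := key k (by
      have h2 : ((3 : ℕ) : ℚ) ≤ (k : ℚ) := by exact_mod_cast hk
      have h3 : ((3 : ℕ) : ℚ) = 3 := by norm_num
      linarith)
    have h2 := h1.1
    rw [Rat.cast_natCast] at h2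
    exact h2

end Pool.Agent.Results.MP_0878b7_lc.ThresholdDichotomy
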