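import Pool.Agent.Helper78.TT.Dec

/-!
# Rigidity of the extreme vector colourings of Kneser graphs

Vectors `y S` for the sets of size `R` in a set of size `N ≥ 2 R + 1` with the inner products of a
vector colouring of the Kneser graph with parameter `R / N` are sums `∑ i ∈ S, f i` with orthogonal
vectors `f i`.
-/

set_option autoImplicit false

open Finset
open scoped InnerProductSpace

namespace Pool.Agent.Helper78.TT

theorem ch_lt {N R : ℕ} (hN : 2 * R + 1 ≤ N) {i j : ℕ} (hij : i < j) (hj : j ≤ R) :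
    (N - R - j).choose (R - j) < (N - R - i).choose (R - i) := by
  induction j, hij using Nat.le_induction with
  | base =>
    have h1 : N - R - i = (N - R - (i + 1)) + 1 := by omega
    have h2 : R - i = (R - (i + 1)) + 1 := by omega
    rw [h1, h2, Nat.choose_succ_succ]
    have h3 : 0 < (N - R - (i + 1)).choose ((R - (i + 1)) + 1) := Nat.choose_pos (by omega)
    exact Nat.lt_add_of_pos_right h3
  | succ j hij ih =>
    refine lt_trans ?_ (ih (by omega))
    have h1 : N - R - j = (N - R - (j + 1)) + 1 := by omega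
    have h2 : R - j = (R - (j + 1)) + 1 := by omega
    rw [h1, h2, Nat.choose_succ_succ]
    have h3 : 0 < (N - R - (j + 1)).choose ((R - (j + 1)) + 1) := Nat.choose_pos (by omega)
    exact Nat.lt_add_of_pos_right h3

theorem ev_inj {N R : ℕ} (hN : 2 * R + 1 ≤ N) {i j : ℕ} (hi : i ≤ R) (hj : j ≤ R)
    (h : ev N R i = ev N R j) : i = j := by
  have h1 : ((N - R - i).choose (R - i) : ℝ) = ((N - R - j).choose (R - j) : ℝ) := by
    have h2 := congrArg (fun x : ℝ => |x|) h
    simpa [ev, abs_mul, abs_pow] using h2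
  have h2 : (N - R - i).choose (R - i) = (N - R - j).choose (R - j) := by exact_mod_cast h1
  rcases lt_trichotomy i j with h3 | h3 | h3
  · exact absurd h2 (ch_lt hN h3 hj).ne'
  · exact h3
  · exact absurd h2 (ch_lt hN h3 hi).ne

/-- The absolute value of the least eigenvalue. -/
def mu (N R : ℕ) : ℝ := ((N - R - 1).choose (R - 1) : ℕ)

theorem ev_one (N R : ℕ) : ev N R 1 + mu N R = 0 := by
  unfold ev mu
  ring

theorem ev_pos {N R : ℕ} (hR : 1 ≤ R) (hN : 2 * R + 1 ≤ N) {j : ℕ} (hj : j ≤ R) (h1 : j ≠ 1) :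
    0 < ev N R j + mu N R := by
  have hmu : 0 < mu N R := by
    unfold mu
    exact_mod_cast Nat.choose_pos (by omega)
  rcases Nat.even_or_odd j with h2 | h2
  · have h3 : 0 ≤ ev N R j := by
      unfold ev
      rw [h2.neg_one_pow, one_mul]
      positivity
    linarith
  · have h3 : 1 < j := by
      obtain ⟨k, rfl⟩ := h2
      omega
    have h4 : ((N - R - j).choose (R - j) : ℝ) < ((N - R - 1).choose (R - 1) : ℝ) := by
      exact_mod_cast ch_lt hN h3 hj
    unfold ev mu
    rw [h2.neg_one_pow]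
    linarith

variable {ι : Type} [Fintype ι] [DecidableEq ι] {H : Type} [NormedAddCommGroup H]
  [InnerProductSpace ℝ H]

theorem additive_of_mem {X : Finset ι → H} (h : X ∈ U ι H 1) :
    ∃ g : ι → H, ∀ S, X S = ∑ i ∈ S, g i := by
  induction h using Submodule.span_induction with
  | mem X hX =>
    obtain ⟨P, v, h1, h2, rfl⟩ := hX
    obtain ⟨p, rfl⟩ := List.length_eq_one_iff.1 h2
    refine ⟨fun i => (if i = p.1 then v else 0) - (if i = p.2 then v else 0), fun S => ?_⟩
    rw [sum_sub_distrib, sum_ite_eq', sum_ite_eq']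
    change hp [p] S • v = _
    rw [hp_cons, hp_nil, mul_one, sub_smul]
    unfold ix
    congr 1 <;> split_ifs <;> simp
  | zero => exact ⟨0, fun S => by simp⟩
  | add X Y _ _ hX hY =>
    obtain ⟨g, hg⟩ := hX
    obtain ⟨g', hg'⟩ := hY
    refine ⟨g + g', fun S => ?_⟩
    rw [Pi.add_apply, hg, hg', ← sum_add_distrib]
    rfl
  | smul c X _ hX =>
    obtain ⟨g, hg⟩ := hX
    refine ⟨c • g, fun S => ?_⟩
    rw [Pi.smul_apply, hg, smul_sum]
    rfl

theorem additive_of_form {R : ℕ} (hR : 1 ≤ R) (hN : 2 * R + 1 ≤ Fintype.card ι)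
    {X : Finset ι → H}
    (h : bf R (adj R X) X + mu (Fintype.card ι) R * bf R X X ≤ 0) :
    ∃ g : ι → H, ∀ S, S.card = R → X S = ∑ i ∈ S, g i := by
  obtain ⟨Y, hY, hX⟩ := dec_all R X
  have horth : ∀ i ∈ range (R + 1), ∀ j ∈ range (R + 1), i ≠ j → bf R (Y i) (Y j) = 0 := by
    intro i hi j hj hij
    rw [mem_range] at hi hj
    exact bf_orth (by omega) (by omega)
      (fun h' => hij (ev_inj hN (by omega) (by omega) h')) (hY i) (hY j)
  have hadj : ∀ T, T.card = R →
      adj R X T = ∑ j ∈ range (R + 1), ev (Fintype.card ι) R j • Y j T := by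
    intro T hT
    have h1 : adj R X T = ∑ j ∈ range (R + 1), adj R (Y j) T := by
      unfold adj
      rw [sum_comm]
      exact sum_congr rfl fun S hS => hX S (mem_powersetCard.1 hS).2
    rw [h1]
    refine sum_congr rfl fun j hj => ?_
    rw [mem_range] at hj
    exact eig (by omega) (hY j) hT
  have e1 : bf R X X = ∑ j ∈ range (R + 1), bf R (Y j) (Y j) := by
    have h1 : bf R X X = ∑ i ∈ range (R + 1), ∑ j ∈ range (R + 1), bf R (Y i) (Y j) := by
      unfold bf
      have h2 : ∀ T ∈ powersetCard R (univ : Finset ι), ⟪X T, X T⟫_ℝ =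
          ∑ i ∈ range (R + 1), ∑ j ∈ range (R + 1), ⟪Y i T, Y j T⟫_ℝ := by
        intro T hT
        rw [hX T (mem_powersetCard.1 hT).2, sum_inner]
        exact sum_congr rfl fun i _ => inner_sum _ _ _
      rw [sum_congr rfl h2, sum_comm]
      refine sum_congr rfl fun i _ => ?_
      rw [sum_comm]
    rw [h1]
    refine sum_congr rfl fun i hi => ?_
    exact sum_eq_single i (fun j hj hji => horth i hi j hj (Ne.symm hji))
      (fun h' => absurd hi h')
  have e2 : bf R (adj R X) X = ∑ j ∈ range (R + 1), ev (Fintype.card ι) R j * bf R (Y j) (Y j) := by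
    have h1 : bf R (adj R X) X = ∑ i ∈ range (R + 1), ∑ j ∈ range (R + 1),
        ev (Fintype.card ι) R i * bf R (Y i) (Y j) := by
      unfold bf
      have h2 : ∀ T ∈ powersetCard R (univ : Finset ι), ⟪adj R X T, X T⟫_ℝ =
          ∑ i ∈ range (R + 1), ∑ j ∈ range (R + 1),
            ev (Fintype.card ι) R i * ⟪Y i T, Y j T⟫_ℝ := by
        intro T hT
        rw [hadj T (mem_powersetCard.1 hT).2, hX T (mem_powersetCard.1 hT).2, sum_inner]
        refine sum_congr rfl fun i _ => ?_
        rw [inner_sum]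
        exact sum_congr rfl fun j _ => real_inner_smul_left _ _ _
      rw [sum_congr rfl h2, sum_comm]
      refine sum_congr rfl fun i _ => ?_
      rw [sum_comm]
      exact sum_congr rfl fun j _ => (mul_sum _ _ _).symm
    rw [h1]
    refine sum_congr rfl fun i hi => ?_
    exact sum_eq_single i (fun j hj hji => by rw [horth i hi j hj (Ne.symm hji), mul_zero])
      (fun h' => absurd hi h')
  have hnn : ∀ j, 0 ≤ bf R (Y j) (Y j) := fun j => sum_nonneg fun T _ => real_inner_self_nonneg
  rw [e1, e2, mul_sum, ← sum_add_distrib] at h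
  have h0 : ∀ j ∈ range (R + 1), 0 ≤ ev (Fintype.card ι) R j * bf R (Y j) (Y j) +
      mu (Fintype.card ι) R * bf R (Y j) (Y j) := by
    intro j hj
    rw [mem_range] at hj
    rw [← add_mul]
    refine mul_nonneg ?_ (hnn j)
    by_cases hj1 : j = 1
    · rw [hj1, ev_one]
    · exact (ev_pos hR hN (by omega) hj1).le
  have hz := (sum_eq_zero_iff_of_nonneg h0).1 (le_antisymm h (sum_nonneg h0))
  have hzero : ∀ j ∈ range (R + 1), j ≠ 1 → ∀ T, T.card = R → Y j T = 0 := by
    intro j hj hj1 T hT
    have h3 := hz j hj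
    rw [← add_mul] at h3
    rw [mem_range] at hj
    have h4 : bf R (Y j) (Y j) = 0 :=
      (mul_eq_zero.1 h3).resolve_left (ev_pos hR hN (by omega) hj1).ne'
    have h5 := (sum_eq_zero_iff_of_nonneg (fun T _ => real_inner_self_nonneg)).1 h4 T
      (mem_powersetCard.2 ⟨subset_univ T, hT⟩)
    exact inner_self_eq_zero.1 h5
  obtain ⟨g, hg⟩ := additive_of_mem (hY 1)
  refine ⟨g, fun S hS => ?_⟩
  rw [hX S hS, ← hg S]
  exact sum_eq_single 1 (fun j hj hj1 => hzero j hj hj1 S hS)
    (fun h' => absurd (mem_range.2 (by omega)) h')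

/-! ### The exchange argument -/

theorem exch {ι : Type} [DecidableEq ι] {A : Finset ι} {R : ℕ} (hR : 0 < R) (hA : R < A.card)
    {g : ι → ℝ} {c : ℝ} (h : ∀ S ⊆ A, S.card = R → ∑ i ∈ S, g i = c) :
    ∀ i ∈ A, (R : ℝ) * g i = c := by
  have h1 : ∀ i ∈ A, ∀ j ∈ A, g i = g j := by
    intro i hi j hj
    by_cases hij : i = j
    · rw [hij]
    have hj' : j ∈ A.erase i := mem_erase.2 ⟨Ne.symm hij, hj⟩
    obtain ⟨S, hS, hSc⟩ := exists_subset_card_eq (s := (A.erase i).erase j) (n := R - 1) (by
      rw [card_erase_of_mem hj', card_erase_of_mem hi]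
      omega)
    have hiS : i ∉ S := fun h' => by
      have := hS h'
      simp at this
    have hjS : j ∉ S := fun h' => by
      have := hS h'
      simp at this
    have hSA : S ⊆ A := hS.trans ((erase_subset _ _).trans (erase_subset _ _))
    have e1 := h (insert i S) (insert_subset hi hSA) (by rw [card_insert_of_notMem hiS]; omega)
    have e2 := h (insert j S) (insert_subset hj hSA) (by rw [card_insert_of_notMem hjS]; omega)
    rw [sum_insert hiS] at e1
    rw [sum_insert hjS] at e2
    linarith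
  intro i hi
  obtain ⟨S, hS, hSc⟩ := exists_subset_card_eq (s := A) (n := R) hA.le
  rw [← h S hS hSc, sum_congr rfl fun j hj => (h1 i hi j (hS hj)).symm, sum_const, hSc,
    nsmul_eq_mul]

/-- **Rigidity.** -/
theorem rigid {R : ℕ} (hR : 2 ≤ R) (hN : 2 * R + 1 ≤ Fintype.card ι) {y₀ : H}
    {y : Finset ι → H} (h0 : ⟪y₀, y₀⟫_ℝ = 1)
    (h1 : ∀ S, S.card = R → ⟪y₀, y S⟫_ℝ = (R : ℝ) / Fintype.card ι ∧
      ⟪y S, y S⟫_ℝ = (R : ℝ) / Fintype.card ι)
    (h2 : ∀ S T, S.card = R → T.card = R → Disjoint S T → ⟪y S, y T⟫_ℝ = 0) :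
    ∃ f : ι → H, (∀ S, S.card = R → y S = ∑ i ∈ S, f i) ∧
      (∀ i, ⟪y₀, f i⟫_ℝ = 1 / Fintype.card ι) ∧
      (∀ i, ⟪f i, f i⟫_ℝ = 1 / Fintype.card ι) ∧ (∀ i j, i ≠ j → ⟪f i, f j⟫_ℝ = 0) ∧
      ∑ i, f i = y₀ := by
  set N := Fintype.card ι with hNd
  have hNpos : (0 : ℝ) < N := by
    have : 0 < N := by omega
    exact_mod_cast this
  have hRpos : (0 : ℝ) < R := by
    have : 0 < R := by omega
    exact_mod_cast this
  set t : ℝ := (R : ℝ) / N with ht
  -- the shifted vectors
  have hX1 : ∀ S, S.card = R → ⟪y S - t • y₀, y S - t • y₀⟫_ℝ = t - t ^ 2 := by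
    intro S hS
    have e1 : ⟪y S, y₀⟫_ℝ = t := by rw [real_inner_comm]; exact (h1 S hS).1
    simp only [inner_sub_left, inner_sub_right, real_inner_smul_left, real_inner_smul_right,
      (h1 S hS).1, (h1 S hS).2, e1, h0]
    ring
  have hX2 : ∀ S T, S.card = R → T.card = R → Disjoint S T →
      ⟪y S - t • y₀, y T - t • y₀⟫_ℝ = - t ^ 2 := by
    intro S T hS hT hST
    have e1 : ⟪y S, y₀⟫_ℝ = t := by rw [real_inner_comm]; exact (h1 S hS).1
    simp only [inner_sub_left, inner_sub_right, real_inner_smul_left, real_inner_smul_right,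
      (h1 T hT).1, e1, h0, h2 S T hS hT hST]
    ring
  set X : Finset ι → H := fun S => y S - t • y₀ with hXd
  have hform : bf R (adj R X) X + mu N R * bf R X X ≤ 0 := by
    have e1 : bf R X X = (N.choose R : ℕ) * (t - t ^ 2) := by
      unfold bf
      rw [sum_congr rfl fun T hT => hX1 T (mem_powersetCard.1 hT).2, sum_const,
        card_powersetCard, card_univ, nsmul_eq_mul]
    have e2 : bf R (adj R X) X = (N.choose R : ℕ) * (((N - R).choose R : ℕ) * (- t ^ 2)) := by
      unfold bf
      have e3 : ∀ T ∈ powersetCard R (univ : Finset ι), ⟪adj R X T, X T⟫_ℝ =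
          ((N - R).choose R : ℕ) * (- t ^ 2) := by
        intro T hT
        have hT' := (mem_powersetCard.1 hT).2
        unfold adj
        rw [sum_inner, sum_congr rfl fun S hS => hX2 S T (mem_powersetCard.1 hS).2 hT'
          (subset_compl_iff_disjoint_right.1 (mem_powersetCard.1 hS).1), sum_const,
          card_powersetCard, card_compl, hT', nsmul_eq_mul]
      rw [sum_congr rfl e3, sum_const, card_powersetCard, card_univ, nsmul_eq_mul]
    have e4 : ((N - R).choose R : ℝ) * R = (N - R) * ((N - R - 1).choose (R - 1) : ℕ) := by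
      have e5 := Nat.add_one_mul_choose_eq (N - R - 1) (R - 1)
      have e6 : N - R - 1 + 1 = N - R := by omega
      have e7 : R - 1 + 1 = R := by omega
      rw [e6, e7] at e5
      have e8 : ((N - R : ℕ) : ℝ) = (N : ℝ) - R := Nat.cast_sub (by omega)
      rw [← e8]
      exact_mod_cast e5.symm
    have e9 : ((N - R).choose R : ℝ) * (- t ^ 2) + mu N R * (t - t ^ 2) = 0 := by
      unfold mu
      have e10 : t * N = R := by rw [ht]; field_simp
      have e11 : (N : ℝ) * (((N - R).choose R : ℝ) * (- t ^ 2) +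
          ((N - R - 1).choose (R - 1) : ℕ) * (t - t ^ 2)) = 0 := by
        have : (N : ℝ) * (((N - R).choose R : ℝ) * (- t ^ 2) +
          ((N - R - 1).choose (R - 1) : ℕ) * (t - t ^ 2)) = t * (((N : ℝ) - t * N) *
          ((N - R - 1).choose (R - 1) : ℕ) - ((N - R).choose R : ℝ) * (t * N)) := by ring
        rw [this, e10, e4]
        ring
      exact (mul_eq_zero.1 e11).resolve_left hNpos.ne'
    rw [e1, e2]
    have : ((N.choose R : ℕ) : ℝ) * (((N - R).choose R : ℕ) * (- t ^ 2)) +
        mu N R * ((N.choose R : ℕ) * (t - t ^ 2)) = (N.choose R : ℕ) *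
        (((N - R).choose R : ℝ) * (- t ^ 2) + mu N R * (t - t ^ 2)) := by ring
    rw [this, e9, mul_zero]
  obtain ⟨g, hg⟩ := additive_of_form (by omega) hN hform
  -- the frame
  set f : ι → H := fun i => g i + (1 / (N : ℝ)) • y₀ with hf
  have hyf : ∀ S, S.card = R → y S = ∑ i ∈ S, f i := by
    intro S hS
    have e1 := hg S hS
    have e2 : ∑ i ∈ S, f i = ∑ i ∈ S, g i + t • y₀ := by
      rw [hf, sum_add_distrib, sum_const, hS, ← Nat.cast_smul_eq_nsmul ℝ, smul_smul]
      congr 2
      rw [ht]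
      field_simp
    rw [e2, ← e1, hXd]
    simp
  have hy0 : ∀ i, ⟪y₀, f i⟫_ℝ = 1 / N := by
    intro i
    have e1 := exch (A := univ) (R := R) (g := fun i => ⟪y₀, f i⟫_ℝ) (c := t) (by omega)
      (by rw [card_univ]; omega) (fun S _ hS => by
        rw [← inner_sum, ← hyf S hS]
        exact (h1 S hS).1) i (mem_univ i)
    have e2 : ⟪y₀, f i⟫_ℝ = t / R := by
      rw [eq_div_iff hRpos.ne', mul_comm]
      exact e1
    rw [e2, ht]
    field_simp
  -- orthogonality
  have ho : ∀ i j, i ≠ j → ⟪f i, f j⟫_ℝ = 0 := by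
    -- differences are orthogonal to the sets that avoid the two indices
    have a1 : ∀ i k : ι, ∀ T, T.card = R → i ∉ T → k ∉ T → ∑ j ∈ T, ⟪f i - f k, f j⟫_ℝ = 0 := by
      intro i k T hT hi hk
      by_cases hik : i = k
      · simp [hik]
      have hk' : k ∈ Tᶜ.erase i := mem_erase.2 ⟨Ne.symm hik, mem_compl.2 hk⟩
      obtain ⟨S, hS, hSc⟩ := exists_subset_card_eq (s := (Tᶜ.erase i).erase k) (n := R - 1) (by
        rw [card_erase_of_mem hk', card_erase_of_mem (mem_compl.2 hi), card_compl, hT]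
        omega)
      have hiS : i ∉ S := fun h' => by
        have := hS h'
        simp at this
      have hkS : k ∉ S := fun h' => by
        have := hS h'
        simp at this
      have hST : Disjoint S T := by
        rw [← subset_compl_iff_disjoint_right]
        exact hS.trans ((erase_subset _ _).trans (erase_subset _ _))
      have b1 := h2 (insert i S) T (by rw [card_insert_of_notMem hiS]; omega) hT
        (disjoint_insert_left.2 ⟨hi, hST⟩)
      have b2 := h2 (insert k S) T (by rw [card_insert_of_notMem hkS]; omega) hT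
        (disjoint_insert_left.2 ⟨hk, hST⟩)
      rw [hyf _ (by rw [card_insert_of_notMem hiS]; omega), sum_insert hiS, inner_add_left] at b1
      rw [hyf _ (by rw [card_insert_of_notMem hkS]; omega), sum_insert hkS, inner_add_left] at b2
      rw [← inner_sum, ← hyf T hT, inner_sub_left]
      linarith
    have a2 : ∀ i k j : ι, j ≠ i → j ≠ k → ⟪f i - f k, f j⟫_ℝ = 0 := by
      intro i k j hji hjk
      have hcard : R < ((univ.erase i).erase k).card := by
        have c1 : (univ.erase i).card = N - 1 := by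
          rw [card_erase_of_mem (mem_univ i), card_univ]
        have c2 : (univ.erase i).card - 1 ≤ ((univ.erase i).erase k).card :=
          pred_card_le_card_erase
        omega
      have e1 := exch (A := (univ.erase i).erase k) (R := R) (g := fun j => ⟪f i - f k, f j⟫_ℝ)
        (c := 0) (by omega) hcard (fun T hT hTc => a1 i k T hTc
          (fun h' => by have := hT h'; simp at this) (fun h' => by have := hT h'; simp at this))
        j (by simp [hji, hjk])
      exact (mul_eq_zero.1 e1).resolve_left hRpos.ne'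
    have a3 : ∀ i k j : ι, j ≠ i → j ≠ k → ⟪f i, f j⟫_ℝ = ⟪f k, f j⟫_ℝ := by
      intro i k j hji hjk
      have := a2 i k j hji hjk
      rw [inner_sub_left] at this
      linarith
    intro i j hij
    -- two disjoint sets
    obtain ⟨T, hT, hTc⟩ := exists_subset_card_eq (s := univ.erase i) (n := R) (by
      rw [card_erase_of_mem (mem_univ i), card_univ]
      omega)
    have hiT : i ∉ T := fun h' => by
      have := hT h'
      simp at this
    obtain ⟨S, hS, hSc⟩ := exists_subset_card_eq (s := Tᶜ) (n := R) (by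
      rw [card_compl, hTc]
      omega)
    have hdis : Disjoint S T := subset_compl_iff_disjoint_right.1 hS
    have e1 := h2 S T hSc hTc hdis
    rw [hyf S hSc, hyf T hTc, sum_inner] at e1
    have e2 : ∀ k ∈ S, ⟪f k, ∑ l ∈ T, f l⟫_ℝ = R * ⟪f i, f j⟫_ℝ := by
      intro k hk
      have hkT : k ∉ T := fun h' => disjoint_left.1 hdis hk h'
      have e3 : ∀ l ∈ T, ⟪f k, f l⟫_ℝ = ⟪f i, f j⟫_ℝ := by
        intro l hl
        have hli : l ≠ i := fun h' => hiT (h' ▸ hl)
        have hlk : l ≠ k := fun h' => hkT (h' ▸ hl)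
        rw [a3 k i l hlk hli, real_inner_comm]
        -- now exchange `l` for `j`
        by_cases hlj : l = j
        · rw [hlj, real_inner_comm]
        · rw [a3 l j i (Ne.symm hli) hij, real_inner_comm]
      rw [inner_sum, sum_congr rfl e3, sum_const, hTc, nsmul_eq_mul]
    rw [sum_congr rfl e2, sum_const, hSc, nsmul_eq_mul] at e1
    have e4 := (mul_eq_zero.1 e1).resolve_left hRpos.ne'
    exact (mul_eq_zero.1 e4).resolve_left hRpos.ne'
  have hn : ∀ i, ⟪f i, f i⟫_ℝ = 1 / N := by
    intro i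
    have e1 := exch (A := univ) (R := R) (g := fun i => ⟪f i, f i⟫_ℝ) (c := t) (by omega)
      (by rw [card_univ]; omega) (fun S _ hS => by
        rw [← (h1 S hS).2, hyf S hS, sum_inner]
        refine sum_congr rfl fun i hi => ?_
        rw [inner_sum]
        exact (sum_eq_single i (fun j _ hji => ho i j (Ne.symm hji))
          (fun h' => absurd hi h')).symm) i (mem_univ i)
    have e2 : ⟪f i, f i⟫_ℝ = t / R := by
      rw [eq_div_iff hRpos.ne', mul_comm]
      exact e1
    rw [e2, ht]
    field_simp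
  refine ⟨f, hyf, hy0, hn, ho, ?_⟩
  -- the sum
  have s1 : ⟪∑ i, f i, ∑ i, f i⟫_ℝ = 1 := by
    rw [sum_inner]
    have : ∀ i ∈ (univ : Finset ι), ⟪f i, ∑ j, f j⟫_ℝ = 1 / N := by
      intro i _
      rw [inner_sum, ← hn i]
      exact sum_eq_single i (fun j _ hji => ho i j (Ne.symm hji))
        (fun h' => absurd (mem_univ i) h')
    rw [sum_congr rfl this, sum_const, card_univ, nsmul_eq_mul, mul_one_div_cancel hNpos.ne']
  have s2 : ⟪y₀, ∑ i, f i⟫_ℝ = 1 := by
    rw [inner_sum, sum_congr rfl fun i _ => hy0 i, sum_const, card_univ, nsmul_eq_mul,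
      mul_one_div_cancel hNpos.ne']
  have s3 : ⟪∑ i, f i, y₀⟫_ℝ = 1 := by rw [real_inner_comm]; exact s2
  have s4 : ⟪(∑ i, f i) - y₀, (∑ i, f i) - y₀⟫_ℝ = 0 := by
    rw [inner_sub_left, inner_sub_right, inner_sub_right, s1, s2, s3, h0]
    ring
  exact sub_eq_zero.1 (inner_self_eq_zero.1 s4)

end Pool.Agent.Helper78.TT
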