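import Pool.Agent.Helper92.Theta.Gad
import Pool.Agent.Helper78.TT.Rig
import Pool.Agent.Helper78.TT.BlowN

/-!
# Partial Gram matrices with entries `-1/2, 0, 1/2` and the vector `(a/b, …, a/b)`

For `0 < a / b < 1 / 2` the cliques of the case `1/8` are replaced by the Kneser graphs of the sets
of size `8 a` in a set of size `8 b`.
-/

set_option autoImplicit false

open Finset
open scoped InnerProductSpace

namespace Pool.Agent.Helper78.TT

open Pool.Agent.Helper92.Theta (TH th_iff exists_ext Nm Cst GSat graphOf)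

/-- The graphs for which the vector with all entries `t` lies in the theta body. -/
def ThetaT (t : ℝ) : Set (ℕ × List (ℕ × ℕ)) :=
  {I | (fun _ => t) ∈ TH (graphOf I.1 I.2)}

/-- Names of vertices: a frame and a set, as a list. -/
abbrev VK : Type := (Bool × Cst) × List ℕ

instance : DecidableEq VK := instDecidableEqProd

/-- The frame of a unit vector. -/
def pf (p : Nm) : Bool × Cst := (true, (p, (0, 0, 0), 0))

/-- The frame of a constraint. -/
def cf (c : Cst) : Bool × Cst := (false, c)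

/-- The lists are disjoint. -/
def disL (S T : List ℕ) : Bool := S.all fun i => T.all fun j => !decide (i = j)

/-- All elements are in the first half. -/
def inA (b : ℕ) (S : List ℕ) : Bool := S.all fun i => decide (i < 4 * b)

/-- All elements are in the second half. -/
def inH (b : ℕ) (S : List ℕ) : Bool := S.all fun i => !decide (i < 4 * b)

/-- All elements are in the interval of the constraint. -/
def inB (b τ : ℕ) (S : List ℕ) : Bool :=
  S.all fun i => (!decide (i + b * τ < 4 * b)) && decide (i + b * τ < 8 * b)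

/-- Adjacency in one direction. -/
def kbase (b : ℕ) (x y : VK) : Bool :=
  (decide (x.1 = y.1) && disL x.2 y.2) ||
  ((!x.1.1) && (y.1.1 && (inH b y.2 &&
    ((decide (y.1.2.1 = x.1.2.1) && inA b x.2) ||
      (decide (y.1.2.1 = x.1.2.2.1) && inB b x.1.2.2.2 x.2)))))

/-- Adjacency of names of vertices. -/
def kadj (b : ℕ) (x y : VK) : Bool := kbase b x y || kbase b y x

/-- The adjacent pairs of positions in a list of names. -/
def kedges (b : ℕ) (L : List VK) : List (ℕ × ℕ) :=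
  (List.range L.length).flatMap fun i => ((List.range L.length).filter fun j =>
    kadj b ((L[i]?).getD (pf (0, 0, 0), [])) ((L[j]?).getD (pf (0, 0, 0), []))).map
      fun j => (i, j)

theorem mem_kedges (b : ℕ) (L : List VK) (i j : Fin L.length) :
    ((i : ℕ), (j : ℕ)) ∈ kedges b L ↔ kadj b L[i] L[j] = true := by
  unfold kedges
  simp only [List.mem_flatMap, List.mem_range, List.mem_map, List.mem_filter, Prod.mk.injEq]
  constructor
  · rintro ⟨a, ha, b, ⟨hb, hab⟩, rfl, rfl⟩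
    simpa using hab
  · intro h
    exact ⟨i, i.2, j, ⟨j.2, by simpa using h⟩, rfl, rfl⟩

theorem kadj_symm {b : ℕ} {x y : VK} (h : kadj b x y = true) : kadj b y x = true := by
  unfold kadj at h ⊢
  rw [Bool.or_eq_true] at h ⊢
  exact h.symm

theorem kbase_irrefl {b : ℕ} {x : VK} (hx : x.2 ≠ []) : kbase b x x = false := by
  have h1 : disL x.2 x.2 = false := by
    obtain ⟨i, l, hl⟩ := List.exists_cons_of_ne_nil hx
    rw [hl]
    simp [disL]
  unfold kbase
  rw [h1]
  cases x.1.1 <;> simp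

theorem kadj_irrefl {b : ℕ} {x : VK} (hx : x.2 ≠ []) : kadj b x x = false := by
  unfold kadj
  rw [kbase_irrefl hx]
  rfl

/-- A system of vectors for a list of names of vertices. -/
theorem thetaT_iff {t : ℝ} (b : ℕ) (L : List VK) (hL : ∀ x ∈ L, x.2 ≠ []) :
    (L.length, kedges b L) ∈ ThetaT t ↔
    ∃ (H : Type) (_ : NormedAddCommGroup H) (_ : InnerProductSpace ℝ H) (z₀ : H) (z : VK → H),
      ⟪z₀, z₀⟫_ℝ = 1 ∧ (∀ x ∈ L, ⟪z₀, z x⟫_ℝ = t ∧ ⟪z x, z x⟫_ℝ = t) ∧
      ∀ x ∈ L, ∀ x' ∈ L, kadj b x x' = true → ⟪z x, z x'⟫_ℝ = 0 := by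
  unfold ThetaT
  rw [Set.mem_ofPred_eq, th_iff]
  constructor
  · rintro ⟨H, _, _, y₀, y, h0, h1, h2⟩
    refine ⟨H, inferInstance, inferInstance, y₀,
      fun x => if h : L.idxOf x < L.length then y ⟨L.idxOf x, h⟩ else 0, h0, ?_, ?_⟩
    · intro x hx
      have h := List.idxOf_lt_length_iff.2 hx
      simp only [dif_pos h]
      exact h1 _
    · intro x hx x' hx' hadj
      have h := List.idxOf_lt_length_iff.2 hx
      have h' := List.idxOf_lt_length_iff.2 hx'
      simp only [dif_pos h, dif_pos h']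
      refine h2 _ _ ⟨?_, Or.inl ?_⟩
      · intro heq
        have h3 : L.idxOf x = L.idxOf x' := congrArg Fin.val heq
        have h4 : x = x' := (List.idxOf_inj hx).1 h3
        subst h4
        rw [kadj_irrefl (hL x hx)] at hadj
        exact absurd hadj Bool.false_ne_true
      · have h5 := (mem_kedges b L ⟨L.idxOf x, h⟩ ⟨L.idxOf x', h'⟩).2 (by
          simpa using hadj)
        exact h5
  · rintro ⟨H, _, _, z₀, z, h0, h1, h2⟩
    refine ⟨H, inferInstance, inferInstance, z₀, fun i => z L[i], h0,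
      fun i => h1 _ (List.getElem_mem _), ?_⟩
    rintro i j ⟨-, hE | hE⟩
    · exact h2 _ (List.getElem_mem _) _ (List.getElem_mem _) ((mem_kedges b L i j).1 hE)
    · exact h2 _ (List.getElem_mem _) _ (List.getElem_mem _) (kadj_symm ((mem_kedges b L j i).1 hE))

/-- A set as a list. -/
noncomputable def code {N : ℕ} (S : Finset (Fin N)) : List ℕ := S.toList.map Fin.val

theorem mem_code {N : ℕ} (S : Finset (Fin N)) (i : ℕ) : i ∈ code S ↔ ∃ j ∈ S, (j : ℕ) = i := by
  unfold code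
  simp [Finset.mem_toList]

/-- The sets of size `8 a` in a set of size `8 b`. -/
noncomputable def SL (a b : ℕ) : List (List ℕ) :=
  ((powersetCard (8 * a) (univ : Finset (Fin (8 * b)))).toList).map code

theorem mem_SL {a b : ℕ} {l : List ℕ} :
    l ∈ SL a b ↔ ∃ S : Finset (Fin (8 * b)), S.card = 8 * a ∧ code S = l := by
  unfold SL
  simp [Finset.mem_toList, mem_powersetCard]

/-- The vertices for a list of constraints. -/
noncomputable def klist (a b : ℕ) (C : List Cst) : List VK := C.flatMap fun c =>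
  (SL a b).flatMap fun S => [(cf c, S), (pf c.1, S), (pf c.2.1, S)]

/-- The graph for a list of constraints. -/
noncomputable def kgadget (a b : ℕ) (C : List Cst) : ℕ × List (ℕ × ℕ) :=
  ((klist a b C).length, kedges b (klist a b C))

theorem mem_klist {a b : ℕ} {C : List Cst} {x : VK} : x ∈ klist a b C ↔
    ∃ c ∈ C, ∃ S : Finset (Fin (8 * b)), S.card = 8 * a ∧ x.2 = code S ∧
      (x.1 = cf c ∨ x.1 = pf c.1 ∨ x.1 = pf c.2.1) := by
  obtain ⟨φ, l⟩ := x
  unfold klist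
  simp only [List.mem_flatMap, List.mem_cons, List.not_mem_nil, or_false, Prod.mk.injEq]
  constructor
  · rintro ⟨c, hc, l', hl', h⟩
    obtain ⟨S, hS, rfl⟩ := mem_SL.1 hl'
    refine ⟨c, hc, S, hS, ?_, ?_⟩
    · rcases h with h | h | h <;> exact h.2
    · rcases h with h | h | h
      · exact Or.inl h.1
      · exact Or.inr (Or.inl h.1)
      · exact Or.inr (Or.inr h.1)
  · rintro ⟨c, hc, S, hS, hl, h⟩
    refine ⟨c, hc, code S, mem_SL.2 ⟨S, hS, rfl⟩, ?_⟩
    rcases h with h | h | h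
    · exact Or.inl ⟨h, hl⟩
    · exact Or.inr (Or.inl ⟨h, hl⟩)
    · exact Or.inr (Or.inr ⟨h, hl⟩)

theorem klist_ne {a b : ℕ} (ha : 1 ≤ a) {C : List Cst} : ∀ x ∈ klist a b C, x.2 ≠ [] := by
  intro x hx
  obtain ⟨c, -, S, hS, h, -⟩ := mem_klist.1 hx
  rw [h]
  intro h'
  have h1 : (code S).length = S.card := by simp [code]
  rw [h', hS] at h1
  simp at h1
  omega

/-! ### Boolean conditions -/

theorem disL_code {N : ℕ} {S T : Finset (Fin N)} : disL (code S) (code T) = true ↔ Disjoint S T := by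
  unfold disL
  simp only [List.all_eq_true, mem_code, Bool.not_eq_true', decide_eq_false_iff_not]
  rw [Finset.disjoint_left]
  constructor
  · intro h i hi hj
    exact h i ⟨i, hi, rfl⟩ i ⟨i, hj, rfl⟩ rfl
  · rintro h _ ⟨i, hi, rfl⟩ _ ⟨j, hj, rfl⟩ hij
    exact h hi (Fin.ext hij ▸ hj)

/-- The first half. -/
def hA (b : ℕ) : Finset (Fin (8 * b)) := univ.filter fun i => (i : ℕ) < 4 * b

/-- The interval of the constraint. -/
def hB (b τ : ℕ) : Finset (Fin (8 * b)) :=
  univ.filter fun i => ¬ ((i : ℕ) + b * τ < 4 * b) ∧ (i : ℕ) + b * τ < 8 * b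

theorem inA_code {b : ℕ} {S : Finset (Fin (8 * b))} : inA b (code S) = true ↔ S ⊆ hA b := by
  unfold inA hA
  simp only [List.all_eq_true, mem_code, decide_eq_true_eq]
  constructor
  · intro h i hi
    exact mem_filter.2 ⟨mem_univ _, h i ⟨i, hi, rfl⟩⟩
  · rintro h _ ⟨i, hi, rfl⟩
    exact (mem_filter.1 (h hi)).2

theorem inH_code {b : ℕ} {S : Finset (Fin (8 * b))} : inH b (code S) = true ↔ S ⊆ (hA b)ᶜ := by
  unfold inH hA
  simp only [List.all_eq_true, mem_code, Bool.not_eq_true', decide_eq_false_iff_not]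
  constructor
  · intro h i hi
    rw [mem_compl, mem_filter]
    exact fun h' => h i ⟨i, hi, rfl⟩ h'.2
  · rintro h _ ⟨i, hi, rfl⟩ h'
    exact (mem_compl.1 (h hi)) (mem_filter.2 ⟨mem_univ _, h'⟩)

theorem inB_code {b τ : ℕ} {S : Finset (Fin (8 * b))} : inB b τ (code S) = true ↔ S ⊆ hB b τ := by
  unfold inB hB
  simp only [List.all_eq_true, mem_code, Bool.and_eq_true, Bool.not_eq_true',
    decide_eq_false_iff_not, decide_eq_true_eq]
  constructor
  · intro h i hi
    exact mem_filter.2 ⟨mem_univ _, h i ⟨i, hi, rfl⟩⟩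
  · rintro h _ ⟨i, hi, rfl⟩
    exact (mem_filter.1 (h hi)).2

/-! ### Cardinalities -/

theorem card_ico {n l u : ℕ} (h : u ≤ n) :
    ((univ : Finset (Fin n)).filter fun i : Fin n => l ≤ (i : ℕ) ∧ (i : ℕ) < u).card = u - l := by
  rw [← Nat.card_Ico l u]
  refine card_bij (fun i _ => (i : ℕ)) ?_ ?_ ?_
  · intro i hi
    rw [mem_Ico]
    exact (mem_filter.1 hi).2
  · intro i _ j _ hij
    exact Fin.ext hij
  · intro k hk
    rw [mem_Ico] at hk
    exact ⟨⟨k, by omega⟩, mem_filter.2 ⟨mem_univ _, hk⟩, rfl⟩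

theorem card_hA (b : ℕ) : (hA b).card = 4 * b := by
  have h1 : hA b = univ.filter fun i : Fin (8 * b) => 0 ≤ (i : ℕ) ∧ (i : ℕ) < 4 * b := by
    unfold hA
    exact filter_congr fun i _ => by omega
  rw [h1, card_ico (by omega)]
  omega

theorem bt_le {b τ : ℕ} (h : τ ≤ 4) : b * τ ≤ 4 * b := by nlinarith

theorem card_hB {b τ : ℕ} (h : τ ≤ 4) : (hB b τ).card = 4 * b := by
  have h0 := bt_le (b := b) h
  have h1 : hB b τ = univ.filter fun i : Fin (8 * b) =>
      4 * b - b * τ ≤ (i : ℕ) ∧ (i : ℕ) < 8 * b - b * τ := by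
    unfold hB
    refine filter_congr fun i _ => ?_
    omega
  rw [h1, card_ico (by omega)]
  omega

theorem card_hAB {b τ : ℕ} (h : τ ≤ 4) : (hA b ∩ hB b τ).card = b * τ := by
  have h0 := bt_le (b := b) h
  have h1 : hA b ∩ hB b τ = univ.filter fun i : Fin (8 * b) =>
      4 * b - b * τ ≤ (i : ℕ) ∧ (i : ℕ) < 4 * b := by
    ext i
    simp only [hA, hB, mem_inter, mem_filter, mem_univ, true_and]
    omega
  rw [h1, card_ico (by omega)]
  omega

/-! ### Frames -/

section frames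

variable {H : Type} [NormedAddCommGroup H] [InnerProductSpace ℝ H]

/-- Orthogonal vectors of equal length with sum `y₀`. -/
structure Frm {N : ℕ} (y₀ : H) (f : Fin N → H) : Prop where
  u : ⟪y₀, y₀⟫_ℝ = 1
  y0 : ∀ i, ⟪y₀, f i⟫_ℝ = 1 / N
  nn : ∀ i, ⟪f i, f i⟫_ℝ = 1 / N
  orth : ∀ i j, i ≠ j → ⟪f i, f j⟫_ℝ = 0
  sum : ∑ i, f i = y₀

theorem Frm.inner_sums {N : ℕ} {y₀ : H} {f : Fin N → H} (h : Frm y₀ f) (S T : Finset (Fin N)) :
    ⟪∑ i ∈ S, f i, ∑ i ∈ T, f i⟫_ℝ = (S ∩ T).card / N := by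
  rw [sum_inner]
  have h1 : ∀ i ∈ S, ⟪f i, ∑ j ∈ T, f j⟫_ℝ = if i ∈ T then (1 / N : ℝ) else 0 := by
    intro i _
    rw [inner_sum]
    by_cases hi : i ∈ T
    · rw [if_pos hi, ← h.nn i]
      exact sum_eq_single i (fun j _ hji => h.orth i j (Ne.symm hji)) (fun h' => absurd hi h')
    · rw [if_neg hi]
      exact sum_eq_zero fun j hj => h.orth i j (fun h' => hi (h' ▸ hj))
  rw [sum_congr rfl h1, ← sum_filter, filter_mem_eq_inter, sum_const, nsmul_eq_mul]
  ring

theorem Frm.y0_sum {N : ℕ} {y₀ : H} {f : Fin N → H} (h : Frm y₀ f) (S : Finset (Fin N)) :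
    ⟪y₀, ∑ i ∈ S, f i⟫_ℝ = S.card / N := by
  rw [inner_sum, sum_congr rfl fun i _ => h.y0 i, sum_const, nsmul_eq_mul]
  ring

/-- Two halves of two frames which are orthogonal to each other are complementary. -/
theorem half_eq {b : ℕ} (hb : 1 ≤ b) {y₀ : H} {f g : Fin (8 * b) → H} (hf : Frm y₀ f)
    (hg : Frm y₀ g) {S T : Finset (Fin (8 * b))} (hS : S.card = 4 * b) (hT : T.card = 4 * b)
    (h : ⟪∑ i ∈ S, f i, ∑ i ∈ Tᶜ, g i⟫_ℝ = 0) : ∑ i ∈ S, f i = ∑ i ∈ T, g i := by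
  have hb' : (b : ℝ) ≠ 0 := by
    have : b ≠ 0 := by omega
    exact_mod_cast this
  have e0 : ((4 * b : ℕ) : ℝ) / ((8 * b : ℕ) : ℝ) = 1 / 2 := by
    push_cast
    field_simp
    norm_num
  have e1 : ∑ i ∈ Tᶜ, g i = y₀ - ∑ i ∈ T, g i := by
    rw [← hg.sum, ← sum_add_sum_compl T g]
    abel
  have e2 : ⟪∑ i ∈ S, f i, y₀⟫_ℝ = 1 / 2 := by
    rw [real_inner_comm, hf.y0_sum, hS, e0]
  have e3 : ⟪∑ i ∈ S, f i, ∑ i ∈ S, f i⟫_ℝ = 1 / 2 := by
    rw [hf.inner_sums, inter_self, hS, e0]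
  have e4 : ⟪∑ i ∈ T, g i, ∑ i ∈ T, g i⟫_ℝ = 1 / 2 := by
    rw [hg.inner_sums, inter_self, hT, e0]
  rw [e1, inner_sub_right, e2] at h
  have e5 : ⟪∑ i ∈ S, f i, ∑ i ∈ T, g i⟫_ℝ = 1 / 2 := by linarith
  have e6 : ⟪∑ i ∈ T, g i, ∑ i ∈ S, f i⟫_ℝ = 1 / 2 := by rw [real_inner_comm]; exact e5
  have e7 : ⟪∑ i ∈ S, f i - ∑ i ∈ T, g i, ∑ i ∈ S, f i - ∑ i ∈ T, g i⟫_ℝ = 0 := by
    rw [inner_sub_left, inner_sub_right, inner_sub_right, e3, e4, e5, e6]
    norm_num
  exact sub_eq_zero.1 (inner_self_eq_zero.1 e7)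

/-- Orthogonality of all sums over sets of size `R` gives orthogonality of the vectors. -/
theorem cross {ι : Type} [DecidableEq ι] {R : ℕ} (hR : 0 < R) {A B : Finset ι} (hA : R < A.card)
    (hB : R < B.card) {f g : ι → H}
    (h : ∀ S ⊆ A, S.card = R → ∀ T ⊆ B, T.card = R → ⟪∑ i ∈ S, f i, ∑ j ∈ T, g j⟫_ℝ = 0) :
    ⟪∑ i ∈ A, f i, ∑ j ∈ B, g j⟫_ℝ = 0 := by
  have hR' : (R : ℝ) ≠ 0 := by
    have : R ≠ 0 := by omega
    exact_mod_cast this
  have h1 : ∀ T ⊆ B, T.card = R → ∀ i ∈ A, ⟪f i, ∑ j ∈ T, g j⟫_ℝ = 0 := by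
    intro T hT hTc i hi
    have e1 := exch (g := fun i => ⟪f i, ∑ j ∈ T, g j⟫_ℝ) (c := 0) hR hA (fun S hS hSc => by
      rw [← sum_inner]
      exact h S hS hSc T hT hTc) i hi
    exact (mul_eq_zero.1 e1).resolve_left hR'
  have h2 : ∀ i ∈ A, ∀ j ∈ B, ⟪f i, g j⟫_ℝ = 0 := by
    intro i hi j hj
    have e1 := exch (g := fun j => ⟪f i, g j⟫_ℝ) (c := 0) hR hB (fun T hT hTc => by
      rw [← inner_sum]
      exact h1 T hT hTc i hi) j hj
    exact (mul_eq_zero.1 e1).resolve_left hR'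
  rw [sum_inner]
  refine sum_eq_zero fun i hi => ?_
  rw [inner_sum]
  exact sum_eq_zero fun j hj => h2 i hi j hj

end frames

end Pool.Agent.Helper78.TT
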