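import Pool.Agent.Helper78.TT.Bip
import Pool.Agent.Helper78.TT.GadK
import Pool.Agent.Helper92.Theta.Extra

/-!
# The vectors `(t, …, t)` with `t ≤ 0` or `t ≥ 1/2`, and vector colourings
-/

set_option autoImplicit false

open Finset
open scoped InnerProductSpace
open Pool.Agent.Helper91.PolyTime

namespace Pool.Agent.Helper78.TT

open Pool.Agent.Helper92.Theta (TH th_iff exists_ext exists_vectors gram_posSemidef graphOf BInt
  bval ival xval THMem theta_cast)

theorem thetaT_mem {t : ℝ} (I : ℕ × List (ℕ × ℕ)) :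
    I ∈ ThetaT t ↔ ∃ (H : Type) (_ : NormedAddCommGroup H) (_ : InnerProductSpace ℝ H)
      (y₀ : H) (y : Fin I.1 → H), ⟪y₀, y₀⟫_ℝ = 1 ∧ (∀ i, ⟪y₀, y i⟫_ℝ = t ∧ ⟪y i, y i⟫_ℝ = t) ∧
      ∀ i j, (graphOf I.1 I.2).Adj i j → ⟪y i, y j⟫_ℝ = 0 := th_iff _ _

theorem thetaT_empty {t : ℝ} (I : ℕ × List (ℕ × ℕ)) (h : I.1 = 0) : I ∈ ThetaT t := by
  have : IsEmpty (Fin I.1) := by rw [h]; exact Fin.isEmpty
  refine (thetaT_mem I).2 ⟨EuclideanSpace ℝ (Fin 1), inferInstance, inferInstance,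
    EuclideanSpace.single 0 1, isEmptyElim, by simp, isEmptyElim, isEmptyElim⟩

theorem thetaT_range {t : ℝ} {I : ℕ × List (ℕ × ℕ)} (h : I ∈ ThetaT t) (h0 : I.1 ≠ 0) :
    0 ≤ t ∧ t ≤ 1 := by
  obtain ⟨H, _, _, y₀, y, h1, h2, -⟩ := (thetaT_mem I).1 h
  obtain ⟨h3, h4⟩ := h2 ⟨0, Nat.pos_of_ne_zero h0⟩
  set z := y ⟨0, Nat.pos_of_ne_zero h0⟩
  refine ⟨h4 ▸ real_inner_self_nonneg, ?_⟩
  have h5 : 0 ≤ ⟪y₀ - z, y₀ - z⟫_ℝ := real_inner_self_nonneg
  rw [inner_sub_left, inner_sub_right, inner_sub_right, real_inner_comm y₀ z, h1, h3, h4] at h5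
  linarith

theorem thetaT_out {t : ℝ} (ht : t < 0 ∨ 1 < t) (I : ℕ × List (ℕ × ℕ)) :
    I ∈ ThetaT t ↔ decide (I.1 = 0) = true := by
  rw [decide_eq_true_iff]
  refine ⟨fun h => ?_, thetaT_empty I⟩
  by_contra h0
  obtain ⟨h1, h2⟩ := thetaT_range h h0
  rcases ht with h3 | h3 <;> linarith

theorem thetaT_zero (I : ℕ × List (ℕ × ℕ)) : I ∈ ThetaT 0 := by
  refine (thetaT_mem I).2 ⟨EuclideanSpace ℝ (Fin 1), inferInstance, inferInstance,
    EuclideanSpace.single 0 1, fun _ => 0, by simp, fun i => by simp, fun i j _ => by simp⟩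

theorem thetaT_noedge {t : ℝ} (h0 : 0 ≤ t) (h1 : t ≤ 1) (I : ℕ × List (ℕ × ℕ))
    (h : ∀ e ∈ I.2, ¬ okE I.1 e) : I ∈ ThetaT t := by
  have hs : Real.sqrt (t - t ^ 2) * Real.sqrt (t - t ^ 2) = t - t ^ 2 :=
    Real.mul_self_sqrt (by nlinarith)
  refine (thetaT_mem I).2 ⟨EuclideanSpace ℝ (Fin 2), inferInstance, inferInstance,
    !₂[1, 0], fun _ => !₂[t, Real.sqrt (t - t ^ 2)], ?_, fun i => ⟨?_, ?_⟩, ?_⟩
  · rw [PiLp.inner_apply, Fin.sum_univ_two]
    simp
  · simp [PiLp.inner_apply, Fin.sum_univ_two]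
  · rw [PiLp.inner_apply, Fin.sum_univ_two]
    simp only [RCLike.inner_apply, conj_trivial, PiLp.toLp_apply, Matrix.cons_val_zero,
      Matrix.cons_val_one, hs]
    ring
  · rintro i j ⟨hij, h2 | h2⟩
    · exact absurd ⟨fun h3 => hij (Fin.ext h3), i.2, j.2⟩ (h _ h2)
    · exact absurd ⟨fun h3 => hij (Fin.ext h3.symm), j.2, i.2⟩ (h _ h2)

theorem thetaT_half_le {t : ℝ} {I : ℕ × List (ℕ × ℕ)} (h : I ∈ ThetaT t) {e : ℕ × ℕ}
    (he : e ∈ I.2) (ho : okE I.1 e) : t ≤ 1 / 2 := by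
  obtain ⟨H, _, _, y₀, y, h1, h2, h3⟩ := (thetaT_mem I).1 h
  obtain ⟨h4, h5, h6⟩ := ho
  have h7 : (graphOf I.1 I.2).Adj ⟨e.1, h5⟩ ⟨e.2, h6⟩ :=
    ⟨fun h => h4 (congrArg Fin.val h), Or.inl he⟩
  have h8 := h3 _ _ h7
  obtain ⟨a1, a2⟩ := h2 ⟨e.1, h5⟩
  obtain ⟨b1, b2⟩ := h2 ⟨e.2, h6⟩
  set z := y ⟨e.1, h5⟩
  set w := y ⟨e.2, h6⟩
  have h9 : 0 ≤ ⟪y₀ - z - w, y₀ - z - w⟫_ℝ := real_inner_self_nonneg
  simp only [inner_sub_left, inner_sub_right, real_inner_comm y₀ z, real_inner_comm y₀ w,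
    real_inner_comm z w, h1, a1, a2, b1, b2, h8] at h9
  linarith

/-- Is there a proper edge? -/
def noE (I : ℕ × List (ℕ × ℕ)) : Bool := I.2.all fun e => !decide (okE I.1 e)

theorem noE_iff (I : ℕ × List (ℕ × ℕ)) : noE I = true ↔ ∀ e ∈ I.2, ¬ okE I.1 e := by
  simp [noE, List.all_eq_true]

theorem ptf_noE : PTF noE := by
  unfold noE
  exact PTF.all (f := fun (I : ℕ × List (ℕ × ℕ)) e => !decide (okE I.1 e)) PTF.id.snd
    (PTF.not (ptf_okE PTF.id.fst.fst PTF.id.snd))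

theorem thetaT_mid {t : ℝ} (h0 : 1 / 2 < t) (h1 : t ≤ 1) (I : ℕ × List (ℕ × ℕ)) :
    I ∈ ThetaT t ↔ noE I = true := by
  rw [noE_iff]
  refine ⟨fun h e he ho => ?_, thetaT_noedge (by linarith) h1 I⟩
  have := thetaT_half_le h he ho
  linarith

theorem lex_pos {m : ℕ} {x : Lex (Fin m → ℝ)} (hx : x ≠ 0) : 0 < x ↔ ¬ 0 < -x := by
  rw [neg_pos]
  constructor
  · intro h h'
    exact lt_asymm h h'
  · intro h
    rcases lt_trichotomy x 0 with h' | h' | h'
    · exact absurd h' h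
    · exact absurd h' hx
    · exact h'

theorem thetaT_bip (I : ℕ × List (ℕ × ℕ)) : I ∈ ThetaT (1 / 2) ↔ bip I = true := by
  rw [bip_iff]
  constructor
  · rintro ⟨Y, hY, h0, h1, h2⟩
    obtain ⟨m, y, hy⟩ := exists_vectors hY
    set u : Fin I.1 → Lex (Fin m → ℝ) := fun i =>
      toLex (WithLp.ofLp ((2 : ℝ) • y (some i) - y none)) with hu
    have a0 : ⟪y none, y none⟫_ℝ = 1 := by rw [hy, h0]
    have a1 : ∀ i, ⟪y none, y (some i)⟫_ℝ = 1 / 2 := fun i => by rw [hy, (h1 i).1]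
    have a1' : ∀ i, ⟪y (some i), y none⟫_ℝ = 1 / 2 := fun i => by rw [real_inner_comm, a1]
    have a2 : ∀ i, ⟪y (some i), y (some i)⟫_ℝ = 1 / 2 := fun i => by rw [hy, (h1 i).2]
    have hne : ∀ i, u i ≠ 0 := by
      intro i h
      have h3 : (2 : ℝ) • y (some i) - y none = 0 := by
        have h4 : WithLp.ofLp ((2 : ℝ) • y (some i) - y none) = 0 := h
        exact (WithLp.ofLp_eq_zero _).1 h4
      have h5 : ⟪(2 : ℝ) • y (some i) - y none, (2 : ℝ) • y (some i) - y none⟫_ℝ = 1 := by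
        simp only [inner_sub_left, inner_sub_right, inner_smul_left, inner_smul_right,
          RCLike.conj_to_real, a0, a1, a1', a2]
        norm_num
      rw [h3, inner_zero_left] at h5
      norm_num at h5
    have hneg : ∀ i j, (graphOf I.1 I.2).Adj i j → u j = - u i := by
      intro i j hij
      have h3 : ⟪y (some i), y (some j)⟫_ℝ = 0 := by rw [hy, h2 i j hij]
      have h3' : ⟪y (some j), y (some i)⟫_ℝ = 0 := by rw [real_inner_comm, h3]
      have h4 : ((2 : ℝ) • y (some i) - y none) + ((2 : ℝ) • y (some j) - y none) = 0 := by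
        rw [← inner_self_eq_zero (𝕜 := ℝ)]
        simp only [inner_add_left, inner_add_right, inner_sub_left, inner_sub_right,
          inner_smul_left, inner_smul_right, RCLike.conj_to_real, a0, a1, a1', a2, h3, h3']
        norm_num
      have h5 : (2 : ℝ) • y (some j) - y none = -((2 : ℝ) • y (some i) - y none) :=
        eq_neg_of_add_eq_zero_right h4
      simp only [hu]
      rw [h5]
      rfl
    classical
    refine ⟨fun v => if h : v < I.1 then decide (0 < u ⟨v, h⟩) else false, ?_⟩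
    rintro e he ⟨h3, h4, h5⟩ h6
    have h7 : (graphOf I.1 I.2).Adj ⟨e.1, h4⟩ ⟨e.2, h5⟩ :=
      ⟨fun h => h3 (congrArg Fin.val h), Or.inl he⟩
    simp only [dif_pos h4, dif_pos h5, hneg _ _ h7] at h6
    have h8 := lex_pos (hne ⟨e.1, h4⟩)
    by_cases h9 : 0 < u ⟨e.1, h4⟩
    · rw [decide_eq_true h9, decide_eq_false (h8.1 h9)] at h6
      exact absurd h6 (by decide)
    · rw [decide_eq_false h9, decide_eq_true (by
        by_contra h10
        exact h9 (h8.2 h10))] at h6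
      exact absurd h6 (by decide)
  · rintro ⟨χ, hχ⟩
    have hc : ∀ b : Bool, ((if b then (1 / 2 : ℝ) else -1 / 2) * (if b then (1 / 2 : ℝ) else -1 / 2))
        = 1 / 4 := by
      intro b
      cases b <;> norm_num
    refine (thetaT_mem I).2 ⟨EuclideanSpace ℝ (Fin 2), inferInstance, inferInstance,
      !₂[1, 0], fun i => !₂[1 / 2, if χ i then 1 / 2 else -1 / 2], ?_, fun i => ⟨?_, ?_⟩, ?_⟩
    · rw [PiLp.inner_apply, Fin.sum_univ_two]
      simp
    · simp [PiLp.inner_apply, Fin.sum_univ_two]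
    · rw [PiLp.inner_apply, Fin.sum_univ_two]
      simp only [RCLike.inner_apply, conj_trivial, PiLp.toLp_apply, Matrix.cons_val_zero,
        Matrix.cons_val_one, hc]
      norm_num
    · rintro i j ⟨hij, h2⟩
      have h3 : χ i ≠ χ j := by
        rcases h2 with h2 | h2
        · exact hχ _ h2 ⟨fun h3 => hij (Fin.ext h3), i.2, j.2⟩
        · exact (hχ _ h2 ⟨fun h3 => hij (Fin.ext h3.symm), j.2, i.2⟩).symm
      rw [PiLp.inner_apply, Fin.sum_univ_two]
      simp only [RCLike.inner_apply, conj_trivial, PiLp.toLp_apply, Matrix.cons_val_zero,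
        Matrix.cons_val_one]
      revert h3
      cases χ i <;> cases χ j <;> simp <;> norm_num

/-- **The easy vectors.** -/
theorem thetaT_easy {t : ℝ} (ht : t ≤ 0 ∨ 1 / 2 ≤ t) :
    ∃ f : ℕ × List (ℕ × ℕ) → Bool, PTF f ∧ ∀ I, I ∈ ThetaT t ↔ f I = true := by
  rcases lt_trichotomy t 0 with h | h | h
  · exact ⟨_, PTF.isZero PTF.id.fst, thetaT_out (Or.inl h)⟩
  · subst h
    exact ⟨fun _ => true, PTF.const true, fun I => iff_of_true (thetaT_zero I) rfl⟩
  · have h1 : 1 / 2 ≤ t := by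
      rcases ht with h1 | h1
      · linarith
      · exact h1
    rcases h1.lt_or_eq with h2 | h2
    · by_cases h3 : t ≤ 1
      · exact ⟨noE, ptf_noE, thetaT_mid h2 h3⟩
      · exact ⟨_, PTF.isZero PTF.id.fst, thetaT_out (Or.inr (not_le.1 h3))⟩
    · subst h2
      exact ⟨bip, ptf_bip, thetaT_bip⟩

/-- The vector `(1/k, …, 1/k)` and vector colourings. -/
theorem thetaT_iff_vec {k : ℝ} (hk : 1 < k) (n : ℕ) (G : SimpleGraph (Fin n)) :
    (fun _ : Fin n => (1 / k : ℝ)) ∈ TH G ↔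
      ∃ (m : ℕ) (v : Fin n → EuclideanSpace ℝ (Fin m)), (∀ i, ‖v i‖ = 1) ∧
        ∀ i j, G.Adj i j → ⟪v i, v j⟫_ℝ = - 1 / (k - 1) := by
  have hk0 : k ≠ 0 := by linarith
  have hk1 : k - 1 ≠ 0 := by linarith
  have hs : Real.sqrt (k - 1) * Real.sqrt (k - 1) = k - 1 := Real.mul_self_sqrt (by linarith)
  have hs0 : Real.sqrt (k - 1) ≠ 0 := by
    intro h
    rw [h] at hs
    exact hk1 (by linarith)
  rw [th_iff]
  constructor
  · rintro ⟨H, _, _, y₀, y, h0, h1, h2⟩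
    set w : Fin n → H := fun i => (1 / Real.sqrt (k - 1)) • (k • y i - y₀) with hw
    have h1' : ∀ i, ⟪y i, y₀⟫_ℝ = 1 / k := fun i => by rw [real_inner_comm]; exact (h1 i).1
    have hs2 : 1 / Real.sqrt (k - 1) * (1 / Real.sqrt (k - 1)) = 1 / (k - 1) := by
      rw [div_mul_div_comm, one_mul, hs]
    have e1 : ∀ i j, ⟪w i, w j⟫_ℝ = (k ^ 2 * ⟪y i, y j⟫_ℝ - 1) / (k - 1) := by
      intro i j
      simp only [hw, inner_smul_left, inner_smul_right, inner_sub_left, inner_sub_right, h0, h1',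
        (h1 _).1, RCLike.conj_to_real]
      have e2 : k * (1 / k) = 1 := by field_simp
      have e4 : (k ^ 2 * ⟪y i, y j⟫_ℝ - 1) / (k - 1) =
          (1 / (k - 1)) * (k * (k * ⟪y i, y j⟫_ℝ) - k * (1 / k) - (k * (1 / k) - 1)) := by
        rw [e2]
        ring
      rw [e4, ← hs2]
      ring
    obtain ⟨m, v, hv⟩ := exists_vectors (gram_posSemidef w)
    refine ⟨m, v, fun i => ?_, fun i j hij => ?_⟩
    · have h3 : ‖v i‖ ^ 2 = 1 := by
        rw [← real_inner_self_eq_norm_sq, hv, Matrix.of_apply, e1, (h1 i).2]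
        field_simp
      have h4 : (0 : ℝ) ≤ ‖v i‖ := norm_nonneg _
      nlinarith
    · rw [hv, Matrix.of_apply, e1, h2 i j hij]
      ring
  · rintro ⟨m, v, hv, hadj⟩
    obtain ⟨H, _, _, e, b, he, hb, heb, hbe⟩ := exists_ext (EuclideanSpace ℝ (Fin m)) Unit
    have hbb : ⟪b (), b ()⟫_ℝ = 1 := by rw [hb, if_pos rfl]
    have hvv : ∀ i, ⟪v i, v i⟫_ℝ = 1 := fun i => by
      rw [real_inner_self_eq_norm_sq, hv]; norm_num
    refine ⟨H, inferInstance, inferInstance, b (),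
      fun i => (1 / k : ℝ) • (b () + Real.sqrt (k - 1) • e (v i)), hbb, fun i => ⟨?_, ?_⟩, ?_⟩
    · simp only [inner_smul_right, inner_add_right, hbb, hbe]
      ring
    · simp only [inner_smul_left, inner_smul_right, inner_add_left, inner_add_right, hbb, hbe,
        heb, he, hvv, RCLike.conj_to_real]
      have e5 : 1 / k * (1 / k) * (1 + (k - 1)) = 1 / k := by field_simp; ring
      linear_combination (1 / k * (1 / k)) * hs + e5
    · intro i j hij
      simp only [inner_smul_left, inner_smul_right, inner_add_left, inner_add_right, hbb, hbe,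
        heb, he, hadj i j hij, RCLike.conj_to_real]
      have e5 : 1 + (k - 1) * (-1 / (k - 1)) = 0 := by field_simp; ring
      linear_combination (1 / k * (1 / k)) * (-1 / (k - 1)) * hs + (1 / k * (1 / k)) * e5

/-- Every natural number has digits. -/
theorem exists_bval : ∀ n : ℕ, ∃ l : List Bool, bval l = n := by
  intro n
  induction n using Nat.strong_induction_on with
  | _ n ih =>
    rcases Nat.eq_zero_or_pos n with h | h
    · exact ⟨[], h ▸ rfl⟩
    · obtain ⟨l, hl⟩ := ih (n / 2) (Nat.div_lt_self h (by norm_num))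
      refine ⟨decide (n % 2 = 1) :: l, ?_⟩
      rw [bval, hl]
      rcases Nat.mod_two_eq_zero_or_one n with h1 | h1 <;> simp [h1] <;> omega

/-- From a constant vector to arbitrary vectors. -/
def toTHz (z : BInt × List Bool) (I : ℕ × List (ℕ × ℕ)) :
    List (BInt × List Bool) × List (ℕ × ℕ) := ((List.range I.1).map fun _ => z, I.2)

theorem ptf_toTHz (z : BInt × List Bool) : PTF (toTHz z) := by
  unfold toTHz
  exact PTF.pair (PTF.map (f := fun (_ : ℕ × List (ℕ × ℕ)) (_ : ℕ) => z) (PTF.range PTF.id.fst)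
    (PTF.const _)) PTF.id.snd

theorem cast_const {t : ℝ} (n : ℕ) (E : List (ℕ × ℕ)) : ∀ m, m = n → ∀ x : Fin m → ℝ,
    (∀ i, x i = t) → (x ∈ TH (graphOf m E) ↔ (fun _ : Fin n => t) ∈ TH (graphOf n E)) := by
  rintro _ rfl x hx
  have : x = fun _ => t := funext hx
  rw [this]

theorem toTHz_iff {t : ℝ} (z : BInt × List Bool) (hz : bval z.2 ≠ 0) (ht : xval z = t)
    (I : ℕ × List (ℕ × ℕ)) : I ∈ ThetaT t ↔ toTHz z I ∈ THMem := by
  have h1 : ∀ z' ∈ (toTHz z I).1, z' = z := by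
    intro z' hz'
    obtain ⟨_, -, rfl⟩ := List.mem_map.1 hz'
    rfl
  have h2 := cast_const (t := t) I.1 I.2 (toTHz z I).1.length (by simp [toTHz])
    (fun i : Fin (toTHz z I).1.length => xval (toTHz z I).1[i]) (fun i =>
      (congrArg xval (h1 _ (List.getElem_mem i.2))).trans ht)
  constructor
  · intro h
    refine ⟨fun z' hz' => ?_, h2.2 h⟩
    rw [h1 z' hz']
    exact hz
  · intro h
    exact h2.1 h.2

/-- Rational constant vectors. -/
theorem exists_toTH (q : ℚ) : ∃ z : BInt × List Bool, bval z.2 ≠ 0 ∧ xval z = (q : ℝ) := by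
  obtain ⟨l, hl⟩ := exists_bval q.den
  obtain ⟨l', hl'⟩ := exists_bval q.num.natAbs
  refine ⟨((decide (0 ≤ q.num), l'), l), by rw [hl]; exact q.den_nz, ?_⟩
  unfold xval ival
  rw [hl, hl', Rat.cast_def]
  congr 1
  by_cases h : 0 ≤ q.num
  · rw [decide_eq_true h, cond_true, Int.natAbs_of_nonneg h]
  · rw [decide_eq_false h, cond_false, Int.ofNat_natAbs_of_nonpos (not_le.1 h).le, neg_neg]

end Pool.Agent.Helper78.TT
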