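import Mathlib

/-!
# Products of differences on the sets of size `R`

Sums of the functions `S ↦ ∏ ([a ∈ S] - [b ∈ S])` over the sets of size `R` in a set; they are
eigenfunctions of the disjointness operator, and every function on the sets of size `R` is a sum
of them.
-/

set_option autoImplicit false

open Finset
open scoped InnerProductSpace

namespace Pool.Agent.Helper78.TT

section scalars

variable {ι : Type} [DecidableEq ι]

/-- The indicator function of `a`. -/
def ix (a : ι) (S : Finset ι) : ℝ := if a ∈ S then 1 else 0

/-- The product of the differences for a list of pairs. -/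
def hp (P : List (ι × ι)) (S : Finset ι) : ℝ := (P.map fun p => ix p.1 S - ix p.2 S).prod

/-- The product of the indicator functions for a list. -/
def mo (C : List ι) (S : Finset ι) : ℝ := (C.map fun c => ix c S).prod

/-- The elements of a list of pairs. -/
def fl (P : List (ι × ι)) : List ι := P.flatMap fun p => [p.1, p.2]

theorem hp_nil (S : Finset ι) : hp [] S = 1 := rfl

theorem hp_cons (p : ι × ι) (P : List (ι × ι)) (S : Finset ι) :
    hp (p :: P) S = (ix p.1 S - ix p.2 S) * hp P S := by
  simp [hp]

theorem mo_nil (S : Finset ι) : mo [] S = 1 := rfl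

theorem mo_cons (c : ι) (C : List ι) (S : Finset ι) : mo (c :: C) S = ix c S * mo C S := by
  simp [mo]

theorem fl_cons (p : ι × ι) (P : List (ι × ι)) : fl (p :: P) = p.1 :: p.2 :: fl P := by
  simp [fl]

theorem hp_congr {P : List (ι × ι)} {S T : Finset ι} (h : ∀ a ∈ fl P, (a ∈ S ↔ a ∈ T)) :
    hp P S = hp P T := by
  induction P with
  | nil => rfl
  | cons p P ih =>
    rw [fl_cons] at h
    rw [hp_cons, hp_cons, ih (fun a ha => h a (by simp [ha]))]
    unfold ix
    simp only [h p.1 (by simp), h p.2 (by simp)]

theorem sum_ix {r : ℕ} (W : Finset ι) (a : ι) (F : Finset ι → ℝ)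
    (hF : ∀ S, F (insert a S) = F S) :
    ∑ S ∈ powersetCard (r + 1) W, ix a S * F S =
      ix a W * ∑ S ∈ powersetCard r (W.erase a), F S := by
  by_cases ha : a ∈ W
  · have h1 : ix a W = 1 := if_pos ha
    have h2 : insert a (W.erase a) = W := insert_erase ha
    have h3 : powersetCard (r + 1) W = powersetCard (r + 1) (W.erase a) ∪
        (powersetCard r (W.erase a)).image (insert a) := by
      conv_lhs => rw [← h2]
      exact powersetCard_succ_insert (notMem_erase a W) r
    rw [h3, sum_union, h1, one_mul, sum_image]
    · have h4 : ∑ S ∈ powersetCard (r + 1) (W.erase a), ix a S * F S = 0 := by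
        refine sum_eq_zero fun S hS => ?_
        have h5 : a ∉ S := fun h => notMem_erase a W ((mem_powersetCard.1 hS).1 h)
        unfold ix
        rw [if_neg h5, zero_mul]
      rw [h4, zero_add]
      refine sum_congr rfl fun S _ => ?_
      unfold ix
      rw [if_pos (mem_insert_self a S), one_mul, hF]
    · intro S hS T hT hST
      have h5 : a ∉ S := fun h => notMem_erase a W ((mem_powersetCard.1 hS).1 h)
      have h6 : a ∉ T := fun h => notMem_erase a W ((mem_powersetCard.1 hT).1 h)
      rw [← erase_insert h5, ← erase_insert h6]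
      exact congrArg (fun X => erase X a) hST
    · rw [disjoint_left]
      intro S hS hS'
      obtain ⟨T, -, rfl⟩ := mem_image.1 hS'
      exact notMem_erase a W ((mem_powersetCard.1 hS).1 (mem_insert_self a T))
  · have h1 : ix a W = 0 := if_neg ha
    rw [h1, zero_mul]
    refine sum_eq_zero fun S hS => ?_
    have h5 : a ∉ S := fun h => ha ((mem_powersetCard.1 hS).1 h)
    unfold ix
    rw [if_neg h5, zero_mul]

theorem sum_hp (P : List (ι × ι)) : ∀ (W : Finset ι) (r : ℕ), (fl P).Nodup → P.length ≤ r →
    ∑ S ∈ powersetCard r W, hp P S =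
      hp P W * ((W.card - P.length).choose (r - P.length) : ℕ) := by
  induction P with
  | nil =>
    intro W r _ _
    simp [hp_nil]
  | cons p P ih =>
    intro W r hP hr
    obtain ⟨a, b⟩ := p
    rw [fl_cons] at hP
    have ha : a ∉ fl P := fun h => (List.nodup_cons.1 hP).1 (by simp [h])
    have hb : b ∉ fl P := (List.nodup_cons.1 (List.nodup_cons.1 hP).2).1
    have hP' := (List.nodup_cons.1 (List.nodup_cons.1 hP).2).2
    obtain ⟨r, rfl⟩ : ∃ r', r = r' + 1 := ⟨r - 1, by
      rw [List.length_cons] at hr
      omega⟩
    rw [List.length_cons] at hr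
    have key : ∀ x : ι, x ∉ fl P → ∑ S ∈ powersetCard (r + 1) W, ix x S * hp P S =
        ix x W * (hp P W * ((W.card - (P.length + 1)).choose (r + 1 - (P.length + 1)) : ℕ)) := by
      intro x hx
      rw [sum_ix]
      · by_cases hxW : x ∈ W
        · rw [ih _ r hP' (by omega), card_erase_of_mem hxW]
          congr 2
          · refine hp_congr fun y hy => ?_
            rw [mem_erase]
            have : y ≠ x := fun h => hx (h ▸ hy)
            tauto
          · rw [Nat.sub_sub, Nat.add_comm 1, Nat.add_sub_add_right]
        · unfold ix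
          rw [if_neg hxW, zero_mul, zero_mul]
      · intro S
        refine hp_congr fun y hy => ?_
        rw [mem_insert]
        have : y ≠ x := fun h => hx (h ▸ hy)
        tauto
    simp only [hp_cons, sub_mul, sum_sub_distrib]
    rw [key a ha, key b hb, List.length_cons]
    ring

/-- The function at the complement. -/
theorem hp_compl [Fintype ι] (P : List (ι × ι)) (T : Finset ι) :
    hp P Tᶜ = (-1) ^ P.length * hp P T := by
  induction P with
  | nil => simp [hp_nil]
  | cons p P ih =>
    rw [hp_cons, hp_cons, ih, List.length_cons, pow_succ]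
    have h : ∀ x : ι, ix x Tᶜ = 1 - ix x T := by
      intro x
      unfold ix
      by_cases hx : x ∈ T <;> simp [hx]
    rw [h, h]
    ring

theorem ix_zero_one (a : ι) (S : Finset ι) : ix a S = 0 ∨ ix a S = 1 := by
  unfold ix
  split_ifs <;> simp

/-- A set where the product is not zero has exactly one element of each pair. -/
theorem sum_fl {P : List (ι × ι)} {S : Finset ι} (h : hp P S ≠ 0) :
    ((fl P).map fun i => ix i S).sum = P.length := by
  induction P with
  | nil => simp [fl]
  | cons p P ih =>
    rw [hp_cons] at h
    have h1 := left_ne_zero_of_mul h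
    have h2 := ih (right_ne_zero_of_mul h)
    rw [fl_cons, List.map_cons, List.map_cons, List.sum_cons, List.sum_cons, h2, List.length_cons]
    push_cast
    rcases ix_zero_one p.1 S with h3 | h3 <;> rcases ix_zero_one p.2 S with h4 | h4 <;>
      rw [h3, h4] at h1 ⊢
    · exact absurd (sub_self _) h1
    · ring
    · ring
    · exact absurd (sub_self _) h1

theorem sum_mo {C : List ι} {S : Finset ι} (h : mo C S ≠ 0) :
    (C.map fun i => ix i S).sum = C.length := by
  induction C with
  | nil => simp
  | cons c C ih =>
    rw [mo_cons] at h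
    have h1 := left_ne_zero_of_mul h
    rw [List.map_cons, List.sum_cons, ih (right_ne_zero_of_mul h), List.length_cons]
    rcases ix_zero_one c S with h3 | h3
    · exact absurd h3 h1
    · rw [h3]
      push_cast
      ring

theorem sum_all [Fintype ι] (S : Finset ι) : ∑ i, ix i S = S.card := by
  unfold ix
  simp

theorem sum_toFinset {L : List ι} (hL : L.Nodup) (g : ι → ℝ) :
    ∑ i ∈ L.toFinset, g i = (L.map g).sum := by
  rw [List.sum_toFinset g hL]

/-- The step of the decomposition. -/
theorem step_id [Fintype ι] {R : ℕ} {P : List (ι × ι)} {c : ι} {C : List ι}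
    (hL : (fl P ++ c :: C).Nodup) {S : Finset ι} (hS : S.card = R) :
    ((((fl P ++ c :: C).toFinsetᶜ).card : ℝ) + 1) * (hp P S * mo (c :: C) S) =
      (∑ d ∈ (fl P ++ c :: C).toFinsetᶜ, hp ((c, d) :: P) S * mo C S) +
        ((R : ℝ) - P.length - C.length) * (hp P S * mo C S) := by
  simp only [hp_cons, mo_cons]
  by_cases h1 : hp P S = 0
  · simp [h1]
  by_cases h2 : mo C S = 0
  · simp [h2]
  have h3 : ∑ d ∈ (fl P ++ c :: C).toFinsetᶜ, ix d S = R - P.length - ix c S - C.length := by
    have h4 := sum_add_sum_compl (fl P ++ c :: C).toFinset (fun i => ix i S)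
    rw [sum_toFinset hL, sum_all, hS, List.map_append, List.sum_append, sum_fl h1, List.map_cons,
      List.sum_cons, sum_mo h2] at h4
    linarith
  have h5 : ∑ d ∈ (fl P ++ c :: C).toFinsetᶜ, (ix c S - ix d S) * hp P S * mo C S =
      ((((fl P ++ c :: C).toFinsetᶜ).card : ℝ) * ix c S - (R - P.length - ix c S - C.length)) *
        (hp P S * mo C S) := by
    rw [← h3]
    simp only [mul_assoc]
    rw [← sum_mul, sum_sub_distrib, sum_const, nsmul_eq_mul]
  rw [h5]
  ring

end scalars

end Pool.Agent.Helper78.TT
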