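import Pool.Agent.Helper78.TT.GadK

/-!
# From the graph to unit vectors
-/

set_option autoImplicit false

open Finset
open scoped InnerProductSpace

namespace Pool.Agent.Helper78.TT

open Pool.Agent.Helper92.Theta (TH th_iff exists_ext Nm Cst GSat graphOf)

theorem kadj_frame {b : ℕ} (φ : Bool × Cst) {S T : Finset (Fin (8 * b))} (h : Disjoint S T) :
    kadj b (φ, code S) (φ, code T) = true := by
  unfold kadj kbase
  simp [disL_code.2 h]

theorem kadj_A {b : ℕ} (c : Cst) {S T : Finset (Fin (8 * b))} (hS : S ⊆ hA b) (hT : T ⊆ (hA b)ᶜ) :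
    kadj b (cf c, code S) (pf c.1, code T) = true := by
  unfold kadj kbase
  simp [inH_code.2 hT, inA_code.2 hS, cf, pf]

theorem kadj_B {b : ℕ} (c : Cst) {S T : Finset (Fin (8 * b))} (hS : S ⊆ hB b c.2.2)
    (hT : T ⊆ (hA b)ᶜ) : kadj b (cf c, code S) (pf c.2.1, code T) = true := by
  unfold kadj kbase
  simp [inH_code.2 hT, inB_code.2 hS, cf, pf]

theorem frame_of {a b : ℕ} (ha : 1 ≤ a) (hab : 2 * a < b) {L : List VK} {H : Type}
    [NormedAddCommGroup H] [InnerProductSpace ℝ H] {z₀ : H} {z : VK → H} (h0 : ⟪z₀, z₀⟫_ℝ = 1)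
    (h1 : ∀ x ∈ L, ⟪z₀, z x⟫_ℝ = (a : ℝ) / b ∧ ⟪z x, z x⟫_ℝ = (a : ℝ) / b)
    (h2 : ∀ x ∈ L, ∀ x' ∈ L, kadj b x x' = true → ⟪z x, z x'⟫_ℝ = 0) (φ : Bool × Cst)
    (hφ : ∀ S : Finset (Fin (8 * b)), S.card = 8 * a → (φ, code S) ∈ L) :
    ∃ f : Fin (8 * b) → H, Frm z₀ f ∧ ∀ S : Finset (Fin (8 * b)), S.card = 8 * a →
      z (φ, code S) = ∑ i ∈ S, f i := by
  have hb' : (b : ℝ) ≠ 0 := by
    have : b ≠ 0 := by omega
    exact_mod_cast this
  have e0 : (a : ℝ) / b = ((8 * a : ℕ) : ℝ) / (Fintype.card (Fin (8 * b)) : ℕ) := by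
    rw [Fintype.card_fin]
    push_cast
    field_simp
  obtain ⟨f, k1, k2, k3, k4, k5⟩ := rigid (ι := Fin (8 * b)) (R := 8 * a) (y₀ := z₀)
    (y := fun S => z (φ, code S)) (by omega) (by rw [Fintype.card_fin]; omega) h0
    (fun S hS => by
      rw [← e0]
      exact h1 _ (hφ S hS))
    (fun S T hS hT hST => h2 _ (hφ S hS) _ (hφ T hT) (kadj_frame φ hST))
  rw [Fintype.card_fin] at k2 k3
  exact ⟨f, ⟨h0, k2, k3, k4, k5⟩, k1⟩

/-- From the graph to unit vectors. -/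
theorem gsat_of_kgadget {a b : ℕ} (ha : 1 ≤ a) (hab : 2 * a < b) (C : List Cst)
    (hC : ∀ c ∈ C, c.2.2 ≤ 4) (h : kgadget a b C ∈ ThetaT ((a : ℝ) / b)) : GSat C := by
  classical
  obtain ⟨H, _, _, y₀, z, h0, h1, h2⟩ := (thetaT_iff b (klist a b C) (klist_ne ha)).1 h
  have hb' : (b : ℝ) ≠ 0 := by
    have : b ≠ 0 := by omega
    exact_mod_cast this
  have e0 : ((4 * b : ℕ) : ℝ) / ((8 * b : ℕ) : ℝ) = 1 / 2 := by
    push_cast
    field_simp
    norm_num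
  set occ : Bool × Cst → Prop := fun φ => ∀ S : Finset (Fin (8 * b)), S.card = 8 * a →
    (φ, code S) ∈ klist a b C with hocc
  have hex : ∀ φ, ∃ f : Fin (8 * b) → H, occ φ → Frm y₀ f ∧ ∀ S : Finset (Fin (8 * b)),
      S.card = 8 * a → z (φ, code S) = ∑ i ∈ S, f i := by
    intro φ
    by_cases hφ : occ φ
    · obtain ⟨f, hf⟩ := frame_of ha hab h0 h1 h2 φ hφ
      exact ⟨f, fun _ => hf⟩
    · exact ⟨0, fun h' => absurd h' hφ⟩
  choose F hF using hex
  have hocc0 : ∀ c ∈ C, occ (cf c) := fun c hc S hS =>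
    mem_klist.2 ⟨c, hc, S, hS, rfl, Or.inl rfl⟩
  have hocc1 : ∀ c ∈ C, occ (pf c.1) := fun c hc S hS =>
    mem_klist.2 ⟨c, hc, S, hS, rfl, Or.inr (Or.inl rfl)⟩
  have hocc2 : ∀ c ∈ C, occ (pf c.2.1) := fun c hc S hS =>
    mem_klist.2 ⟨c, hc, S, hS, rfl, Or.inr (Or.inr rfl)⟩
  -- the halves
  set P : Nm → H := fun p => ∑ i ∈ hA b, F (pf p) i with hP
  have hcA : (hA b)ᶜ.card = 4 * b := by
    rw [card_compl, Fintype.card_fin, card_hA]
    omega
  have hPP : ∀ p, occ (pf p) → ⟪P p, P p⟫_ℝ = 1 / 2 := by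
    intro p hp
    rw [hP]
    simp only
    rw [(hF _ hp).1.inner_sums, inter_self, card_hA, e0]
  have hyP : ∀ p, occ (pf p) → ⟪y₀, P p⟫_ℝ = 1 / 2 := by
    intro p hp
    rw [hP]
    simp only
    rw [(hF _ hp).1.y0_sum, card_hA, e0]
  have key1 : ∀ c ∈ C, ∑ i ∈ hA b, F (cf c) i = P c.1 := by
    intro c hc
    refine half_eq (by omega) (hF _ (hocc0 c hc)).1 (hF _ (hocc1 c hc)).1 (card_hA b) (card_hA b) ?_
    refine cross (R := 8 * a) (by omega) (by rw [card_hA]; omega) (by rw [hcA]; omega) ?_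
    intro S hS hSc T hT hTc
    rw [← (hF _ (hocc0 c hc)).2 S hSc, ← (hF _ (hocc1 c hc)).2 T hTc]
    exact h2 _ (hocc0 c hc S hSc) _ (hocc1 c hc T hTc) (kadj_A c hS hT)
  have key2 : ∀ c ∈ C, ∑ i ∈ hB b c.2.2, F (cf c) i = P c.2.1 := by
    intro c hc
    have hcB := card_hB (b := b) (hC c hc)
    refine half_eq (by omega) (hF _ (hocc0 c hc)).1 (hF _ (hocc2 c hc)).1 hcB (card_hA b) ?_
    refine cross (R := 8 * a) (by omega) (by rw [hcB]; omega) (by rw [hcA]; omega) ?_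
    intro S hS hSc T hT hTc
    rw [← (hF _ (hocc0 c hc)).2 S hSc, ← (hF _ (hocc2 c hc)).2 T hTc]
    exact h2 _ (hocc0 c hc S hSc) _ (hocc2 c hc T hTc) (kadj_B c hS hT)
  have key : ∀ c ∈ C, ⟪P c.1, P c.2.1⟫_ℝ = (c.2.2 : ℝ) / 8 := by
    intro c hc
    rw [← key1 c hc, ← key2 c hc, (hF _ (hocc0 c hc)).1.inner_sums, card_hAB (hC c hc)]
    push_cast
    field_simp
  refine ⟨H, inferInstance, inferInstance,
    fun p => if occ (pf p) then (2 : ℝ) • P p - y₀ else y₀, ?_, ?_⟩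
  · intro p
    by_cases hp : occ (pf p)
    · simp only [if_pos hp]
      have e1 := hPP p hp
      have e2 := hyP p hp
      have e3 : ⟪P p, y₀⟫_ℝ = 1 / 2 := by rw [real_inner_comm]; exact e2
      simp only [inner_sub_left, inner_sub_right, inner_smul_left, inner_smul_right, e1, e2, e3,
        h0, RCLike.conj_to_real]
      norm_num
    · simp only [if_neg hp]; exact h0
  · intro c hc
    simp only [if_pos (hocc1 c hc), if_pos (hocc2 c hc)]
    have e1 := key c hc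
    have e2 := hyP _ (hocc2 c hc)
    have e3 : ⟪P c.1, y₀⟫_ℝ = 1 / 2 := by
      rw [real_inner_comm]; exact hyP _ (hocc1 c hc)
    simp only [inner_sub_left, inner_sub_right, inner_smul_left, inner_smul_right, e1, e2, e3,
      h0, RCLike.conj_to_real]
    ring

end Pool.Agent.Helper78.TT
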